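import Mathlib

/-!
# MP_ae5b4e_an, project HYP: definitions

The homogeneous solutions at a smooth branch of type `(1, b)`, `b ≥ 4`; `r = b - 1`.  The
coordinate `V` on the tangent lines of the curve `y = x ^ b` is `∞` at the point of tangency, and
`0`, `r`, `-1` at the intersections with the three fixed lines.
-/

set_option autoImplicit false

noncomputable section

namespace Pool.Agent.MP_ae5b4e_an_HYP

open Filter Topology Set Metric

/-- the absolute invariant of the points of the tangent lines -/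
def Rr (r : ℕ) (V : ℂ) : ℂ := (V - r) * (V + 1) ^ r / V ^ (r + 1)

/-- `(V / (V + 1)) ^ (2 * d)` -/
def chi (d V : ℂ) : ℂ := Complex.exp (2 * d * Complex.log (V / (V + 1)))

/-- minus the centre of the flip -/
def cen (r : ℕ) (d : ℂ) : ℂ := d - ((r : ℂ) - 1) / 3

/-- A homogeneous solution: the square of the first integral is `chi d V * F (Rr r V)`, it is
invariant under the flip `V ↦ -2 c - V`. -/
structure HypSol (r : ℕ) (d : ℂ) (F : ℂ → ℂ) : Prop where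
  ana : AnalyticAt ℂ F 1
  zero : F 1 = 0
  nz : ¬ ∀ᶠ z in 𝓝 (1:ℂ), F z = 0
  flip : ∀ᶠ V in Bornology.cobounded ℂ,
    chi d V * F (Rr r V) = chi d (-2 * cen r d - V) * F (Rr r (-2 * cen r d - V))

/-- the argument of `Rr r (X + i Y)`, for `0 < Y` -/
def hh (r : ℕ) (X Y : ℝ) : ℝ :=
  (r + 1) * Real.arctan (X / Y) - Real.arctan ((X - r) / Y) - r * Real.arctan ((X + 1) / Y)

/-- the fundamental domain -/
def EE (r : ℕ) : Set ℂ := {V | 0 < V.re ∧ (V.im = 0 ∨ 0 < hh r V.re |V.im|)}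

/-- the upper half of its boundary -/
def CC (r : ℕ) : Set ℂ := {V | 0 < V.re ∧ 0 < V.im ∧ hh r V.re V.im = 0}

/-- the slit `[1, ∞)` -/
def Sl (z : ℂ) : Prop := z.im = 0 ∧ 1 ≤ z.re

/-- the closed fundamental domain (without `0`, `∞`) -/
def EC (r : ℕ) (V : ℂ) : Prop := V ∈ EE r ∨ V ∈ CC r ∨ (starRingEnd ℂ) V ∈ CC r

/-- The inverse of `Rr r` on the fundamental domain. -/
structure Inv (r : ℕ) (g : ℂ → ℂ) : Prop where
  mem : ∀ z, ¬ Sl z → g z ∈ EE r ∧ Rr r (g z) = z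
  slit : ∀ x : ℝ, 1 < x → g x ∈ CC r ∧ Rr r (g x) = x
  uniq : ∀ V ∈ EE r, g (Rr r V) = V
  an : ∀ z, ¬ Sl z → AnalyticAt ℂ g z
  loc : ∀ x : ℝ, 1 < x → ∃ p q : ℂ → ℂ, AnalyticAt ℂ p x ∧ AnalyticAt ℂ q x ∧ p x = g x ∧
    q x = (starRingEnd ℂ) (g x) ∧
    (∀ᶠ z in 𝓝 (x:ℂ), (0 ≤ z.im → g z = p z) ∧ (z.im < 0 → g z = q z)) ∧
    ∀ᶠ t : ℝ in 𝓝 x, q t = (starRingEnd ℂ) (p t)
  inf : Tendsto g (𝓝[≠] 1) (Bornology.cobounded ℂ)
  zero : Tendsto g (Bornology.cobounded ℂ) (𝓝 0)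
  mono : ∀ x t₁ t₂ : ℝ, 1 < t₁ → t₁ ≤ t₂ → x < (g t₂).re → x < (g t₁).re

end Pool.Agent.MP_ae5b4e_an_HYP
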