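import Mathlib
import Pool.Agent.Lib.MP_ae5b4e_an_HYP.Defs

/-! # MP_ae5b4e_an, project HYP, module H1: the function `hh` -/

set_option autoImplicit false

noncomputable section

namespace Pool.Agent.MP_ae5b4e_an_HYP

open Filter Topology Set Metric
open scoped ComplexConjugate

variable {r : ℕ}

namespace Harg

/-- polar form of a point of the upper half plane -/
theorem pol (a : ℝ) {Y : ℝ} (hY : 0 < Y) :
    ((a : ℂ) + Y * Complex.I) = ‖(a : ℂ) + Y * Complex.I‖ *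
      Complex.exp ((Real.pi / 2 - Real.arctan (a / Y) : ℝ) * Complex.I) := by
  obtain ⟨x, hx⟩ : ∃ x : ℝ, x = a / Y := ⟨_, rfl⟩
  have ha : a = x * Y := by rw [hx]; field_simp
  have h1 : (0 : ℝ) < 1 + x ^ 2 := by positivity
  have hs : 0 < Real.sqrt (1 + x ^ 2) := Real.sqrt_pos.2 h1
  have hn : ‖(a : ℂ) + Y * Complex.I‖ = Y * Real.sqrt (1 + x ^ 2) := by
    rw [Complex.norm_add_mul_I, ha]
    have : (x * Y) ^ 2 + Y ^ 2 = Y ^ 2 * (1 + x ^ 2) := by ring
    rw [this, Real.sqrt_mul (sq_nonneg Y), Real.sqrt_sq hY.le]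
  rw [hn, ← hx, Complex.exp_mul_I, ← Complex.ofReal_cos, ← Complex.ofReal_sin,
    Real.cos_pi_div_two_sub, Real.sin_pi_div_two_sub, Real.sin_arctan, Real.cos_arctan, ha]
  have hs' : ((Real.sqrt (1 + x ^ 2) : ℝ) : ℂ) ≠ 0 := Complex.ofReal_ne_zero.2 hs.ne'
  push_cast
  field_simp

/-- the numerator of the derivative -/
def num (r : ℕ) (X Y : ℝ) : ℝ := X * (X + 1) * (X - r) + Y ^ 2 * (((r : ℝ) - 1) - 3 * X)

theorem deriv_arctan (a : ℝ) {Y : ℝ} (hY : 0 < Y) :
    HasDerivAt (fun Y : ℝ => Real.arctan (a / Y)) (-a / (a ^ 2 + Y ^ 2)) Y := by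
  have h1 : HasDerivAt (fun Y : ℝ => a / Y) (-a / Y ^ 2) Y := by
    have h0 : HasDerivAt (fun Y : ℝ => a * Y⁻¹) (a * -(Y ^ 2)⁻¹) Y :=
      (hasDerivAt_inv hY.ne').const_mul a
    simp only [div_eq_mul_inv]
    refine h0.congr_deriv ?_
    ring
  have h2 := h1.arctan
  convert h2 using 1
  have h3 : 0 < a ^ 2 + Y ^ 2 := by positivity
  have h4 : 0 < 1 + (a / Y) ^ 2 := by positivity
  field_simp
  ring

theorem hasDeriv (X : ℝ) {Y : ℝ} (hY : 0 < Y) :
    HasDerivAt (fun Y : ℝ => hh r X Y) ((r : ℝ) * (r + 1) * num r X Y /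
      ((X ^ 2 + Y ^ 2) * ((X - r) ^ 2 + Y ^ 2) * ((X + 1) ^ 2 + Y ^ 2))) Y := by
  have h1 := (((deriv_arctan X hY).const_mul ((r : ℝ) + 1)).sub (deriv_arctan (X - r) hY)).sub
    ((deriv_arctan (X + 1) hY).const_mul (r : ℝ))
  refine HasDerivAt.congr_deriv (f := fun Y : ℝ => hh r X Y) h1 ?_
  have h2 : 0 < X ^ 2 + Y ^ 2 := by positivity
  have h3 : 0 < (X - r) ^ 2 + Y ^ 2 := by positivity
  have h4 : 0 < (X + 1) ^ 2 + Y ^ 2 := by positivity
  unfold num
  field_simp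
  ring

theorem cont (X : ℝ) : ContinuousOn (fun Y : ℝ => hh r X Y) (Ioi 0) := fun _ hY =>
  (hasDeriv X hY).continuousAt.continuousWithinAt

theorem deriv_pos (hr : 1 ≤ r) {X Y : ℝ} (hY : 0 < Y) (h : 0 < num r X Y) :
    0 < deriv (fun Y : ℝ => hh r X Y) Y := by
  rw [(hasDeriv X hY).deriv]
  have hr' : (0 : ℝ) < r := by exact_mod_cast hr
  positivity

theorem deriv_neg (hr : 1 ≤ r) {X Y : ℝ} (hY : 0 < Y) (h : num r X Y < 0) :
    deriv (fun Y : ℝ => hh r X Y) Y < 0 := by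
  rw [(hasDeriv X hY).deriv]
  have hr' : (0 : ℝ) < r := by exact_mod_cast hr
  refine div_neg_of_neg_of_pos ?_ (by positivity)
  exact mul_neg_of_pos_of_neg (by positivity) h

/-- the limit at infinity -/
theorem lim_inf (X : ℝ) : Tendsto (fun Y : ℝ => hh r X Y) atTop (𝓝 0) := by
  have h1 : ∀ a : ℝ, Tendsto (fun Y : ℝ => Real.arctan (a / Y)) atTop (𝓝 0) := by
    intro a
    have h2 : Tendsto (fun Y : ℝ => a / Y) atTop (𝓝 0) := tendsto_const_nhds.div_atTop tendsto_id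
    have h3 := (Real.continuous_arctan.tendsto 0).comp h2
    rw [Real.arctan_zero] at h3
    exact h3
  have h4 := (((h1 X).const_mul ((r : ℝ) + 1)).sub (h1 (X - r))).sub ((h1 (X + 1)).const_mul (r : ℝ))
  simpa [hh] using h4

theorem lim_pos {a : ℝ} (ha : 0 < a) :
    Tendsto (fun Y : ℝ => Real.arctan (a / Y)) (𝓝[>] 0) (𝓝 (Real.pi / 2)) := by
  have h2 : Tendsto (fun Y : ℝ => a / Y) (𝓝[>] 0) atTop := by
    simp only [div_eq_mul_inv]
    exact tendsto_inv_nhdsGT_zero.const_mul_atTop ha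
  exact (Real.tendsto_arctan_atTop.mono_right nhdsWithin_le_nhds).comp h2

theorem lim_neg {a : ℝ} (ha : a < 0) :
    Tendsto (fun Y : ℝ => Real.arctan (a / Y)) (𝓝[>] 0) (𝓝 (-(Real.pi / 2))) := by
  have h1 := (lim_pos (a := -a) (by linarith)).neg
  refine h1.congr fun Y => ?_
  rw [neg_div, Real.arctan_neg, neg_neg]

/-- the limit at `0` for large `X` -/
theorem lim_zero_right {X : ℝ} (hX : (r : ℝ) < X) :
    Tendsto (fun Y : ℝ => hh r X Y) (𝓝[>] 0) (𝓝 0) := by
  have hr : (0 : ℝ) ≤ r := Nat.cast_nonneg r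
  have h4 := (((lim_pos (a := X) (by linarith)).const_mul ((r : ℝ) + 1)).sub
    (lim_pos (a := X - r) (by linarith))).sub
      ((lim_pos (a := X + 1) (by linarith)).const_mul (r : ℝ))
  have h5 : ((r : ℝ) + 1) * (Real.pi / 2) - Real.pi / 2 - r * (Real.pi / 2) = 0 := by ring
  rw [h5] at h4
  exact h4

/-- the limit at `0` for `X < - 1` -/
theorem lim_zero_left {X : ℝ} (hX : X < -1) :
    Tendsto (fun Y : ℝ => hh r X Y) (𝓝[>] 0) (𝓝 0) := by
  have hr : (0 : ℝ) ≤ r := Nat.cast_nonneg r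
  have h4 := (((lim_neg (a := X) (by linarith)).const_mul ((r : ℝ) + 1)).sub
    (lim_neg (a := X - r) (by linarith))).sub
      ((lim_neg (a := X + 1) (by linarith)).const_mul (r : ℝ))
  have h5 : ((r : ℝ) + 1) * (-(Real.pi / 2)) - -(Real.pi / 2) - r * (-(Real.pi / 2)) = 0 := by ring
  rw [h5] at h4
  exact h4

/-- increasing to the limit at infinity -/
theorem neg_of_incr (hr : 1 ≤ r) {X Y₀ : ℝ} (hY : 0 < Y₀) (h : ∀ Y, Y₀ < Y → 0 < num r X Y) :
    hh r X Y₀ < 0 := by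
  have hm : StrictMonoOn (fun Y : ℝ => hh r X Y) (Ici Y₀) := by
    refine strictMonoOn_of_deriv_pos (convex_Ici _)
      ((cont X).mono fun Y hYY => lt_of_lt_of_le hY hYY) fun Y hYY => ?_
    rw [interior_Ici] at hYY
    exact deriv_pos hr (hY.trans hYY) (h Y hYY)
  have h1 : hh r X Y₀ < hh r X (Y₀ + 1) := hm (mem_Ici.2 le_rfl) (mem_Ici.2 (by linarith))
    (by linarith)
  have h2 : hh r X (Y₀ + 1) ≤ 0 := by
    refine ge_of_tendsto (lim_inf (r := r) X) ?_
    filter_upwards [eventually_ge_atTop (Y₀ + 1)] with Y hYY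
    exact hm.monotoneOn (mem_Ici.2 (by linarith)) (mem_Ici.2 (by linarith)) hYY
  linarith

/-- decreasing to the limit at infinity -/
theorem pos_of_decr (hr : 1 ≤ r) {X Y₀ : ℝ} (hY : 0 < Y₀) (h : ∀ Y, Y₀ < Y → num r X Y < 0) :
    0 < hh r X Y₀ := by
  have hm : StrictAntiOn (fun Y : ℝ => hh r X Y) (Ici Y₀) := by
    refine strictAntiOn_of_deriv_neg (convex_Ici _)
      ((cont X).mono fun Y hYY => lt_of_lt_of_le hY hYY) fun Y hYY => ?_
    rw [interior_Ici] at hYY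
    exact deriv_neg hr (hY.trans hYY) (h Y hYY)
  have h1 : hh r X (Y₀ + 1) < hh r X Y₀ := hm (mem_Ici.2 le_rfl) (mem_Ici.2 (by linarith))
    (by linarith)
  have h2 : 0 ≤ hh r X (Y₀ + 1) := by
    refine le_of_tendsto (lim_inf (r := r) X) ?_
    filter_upwards [eventually_ge_atTop (Y₀ + 1)] with Y hYY
    exact hm.antitoneOn (mem_Ici.2 (by linarith)) (mem_Ici.2 (by linarith)) hYY
  linarith

/-- increasing from the limit at `0` -/
theorem pos_of_incr (hr : 1 ≤ r) {X Y₀ : ℝ} (hY : 0 < Y₀)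
    (h0 : Tendsto (fun Y : ℝ => hh r X Y) (𝓝[>] 0) (𝓝 0))
    (h : ∀ Y, 0 < Y → Y < Y₀ → 0 < num r X Y) : 0 < hh r X Y₀ := by
  have hm : StrictMonoOn (fun Y : ℝ => hh r X Y) (Ioc 0 Y₀) := by
    refine strictMonoOn_of_deriv_pos (convex_Ioc _ _)
      ((cont X).mono fun Y hYY => hYY.1) fun Y hYY => ?_
    rw [interior_Ioc] at hYY
    exact deriv_pos hr hYY.1 (h Y hYY.1 hYY.2)
  have h1 : hh r X (Y₀ / 2) < hh r X Y₀ := hm (by constructor <;> linarith)
    (by constructor <;> linarith) (by linarith)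
  have h2 : 0 ≤ hh r X (Y₀ / 2) := by
    refine le_of_tendsto h0 ?_
    filter_upwards [Ioo_mem_nhdsGT (show (0 : ℝ) < Y₀ / 2 by linarith)] with Y hYY
    exact hm.monotoneOn ⟨hYY.1, by linarith [hYY.2]⟩ (by constructor <;> linarith) hYY.2.le
  linarith

/-- decreasing from the limit at `0` -/
theorem neg_of_decr (hr : 1 ≤ r) {X Y₀ : ℝ} (hY : 0 < Y₀)
    (h0 : Tendsto (fun Y : ℝ => hh r X Y) (𝓝[>] 0) (𝓝 0))
    (h : ∀ Y, 0 < Y → Y < Y₀ → num r X Y < 0) : hh r X Y₀ < 0 := by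
  have hm : StrictAntiOn (fun Y : ℝ => hh r X Y) (Ioc 0 Y₀) := by
    refine strictAntiOn_of_deriv_neg (convex_Ioc _ _)
      ((cont X).mono fun Y hYY => hYY.1) fun Y hYY => ?_
    rw [interior_Ioc] at hYY
    exact deriv_neg hr hYY.1 (h Y hYY.1 hYY.2)
  have h1 : hh r X Y₀ < hh r X (Y₀ / 2) := hm (by constructor <;> linarith)
    (by constructor <;> linarith) (by linarith)
  have h2 : hh r X (Y₀ / 2) ≤ 0 := by
    refine ge_of_tendsto h0 ?_
    filter_upwards [Ioo_mem_nhdsGT (show (0 : ℝ) < Y₀ / 2 by linarith)] with Y hYY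
    exact hm.antitoneOn ⟨hYY.1, by linarith [hYY.2]⟩ (by constructor <;> linarith) hYY.2.le
  linarith

theorem sq_lt {a b : ℝ} (ha : 0 < a) (h : a < b) : a ^ 2 < b ^ 2 :=
  pow_lt_pow_left₀ h ha.le two_ne_zero

theorem arctan_le_self {x : ℝ} (hx : 0 ≤ x) : Real.arctan x ≤ x := by
  have h1 : 0 ≤ Real.arctan x := Real.arctan_nonneg.2 hx
  have h2 := Real.le_tan h1 (Real.arctan_lt_pi_div_two x)
  rwa [Real.tan_arctan] at h2

theorem le_arctan {x : ℝ} (hx : 0 ≤ x) : x / (1 + x ^ 2) ≤ Real.arctan x := by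
  have h1 : 0 ≤ Real.arctan x := Real.arctan_nonneg.2 hx
  have h2 := Real.sin_le (x := 2 * Real.arctan x) (by linarith)
  have hs : 0 < Real.sqrt (1 + x ^ 2) := Real.sqrt_pos.2 (by positivity)
  rw [Real.sin_two_mul, Real.sin_arctan, Real.cos_arctan] at h2
  have h3 : x / (1 + x ^ 2) = x / Real.sqrt (1 + x ^ 2) * (1 / Real.sqrt (1 + x ^ 2)) := by
    rw [div_mul_div_comm, mul_one, Real.mul_self_sqrt (by positivity)]
  rw [h3]
  linarith

end Harg

open Harg

theorem Rr_polar {X Y : ℝ} (hY : 0 < Y) :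
    Rr r (X + Y * Complex.I) = ‖Rr r (X + Y * Complex.I)‖ * Complex.exp (hh r X Y * Complex.I) := by
  obtain ⟨V, hV⟩ : ∃ V : ℂ, V = X + Y * Complex.I := ⟨_, rfl⟩
  have h1 : V - r = ‖V - r‖ *
      Complex.exp ((Real.pi / 2 - Real.arctan ((X - r) / Y) : ℝ) * Complex.I) := by
    have h := pol (X - r) hY
    have h' : V - r = ((X - r : ℝ) : ℂ) + Y * Complex.I := by rw [hV]; push_cast; ring
    rw [h']
    exact h
  have h2 : V + 1 = ‖V + 1‖ *
      Complex.exp ((Real.pi / 2 - Real.arctan ((X + 1) / Y) : ℝ) * Complex.I) := by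
    have h := pol (X + 1) hY
    have h' : V + 1 = ((X + 1 : ℝ) : ℂ) + Y * Complex.I := by rw [hV]; push_cast; ring
    rw [h']
    exact h
  have h3 : V = ‖V‖ *
      Complex.exp ((Real.pi / 2 - Real.arctan (X / Y) : ℝ) * Complex.I) := by
    have h := pol X hY
    rw [hV]
    exact h
  rw [← hV]
  have hn : ‖Rr r V‖ = ‖V - r‖ * ‖V + 1‖ ^ r / ‖V‖ ^ (r + 1) := by
    unfold Rr
    rw [norm_div, norm_mul, norm_pow, norm_pow]
  rw [hn]
  have hRr : Rr r V = (‖V - r‖ *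
      Complex.exp ((Real.pi / 2 - Real.arctan ((X - r) / Y) : ℝ) * Complex.I)) * (‖V + 1‖ *
      Complex.exp ((Real.pi / 2 - Real.arctan ((X + 1) / Y) : ℝ) * Complex.I)) ^ r / (‖V‖ *
      Complex.exp ((Real.pi / 2 - Real.arctan (X / Y) : ℝ) * Complex.I)) ^ (r + 1) := by
    rw [← h1, ← h2, ← h3]
    rfl
  rw [hRr, mul_pow, ← Complex.exp_nat_mul, mul_pow, ← Complex.exp_nat_mul]
  have h4 : Complex.exp (hh r X Y * Complex.I) =
      Complex.exp ((Real.pi / 2 - Real.arctan ((X - r) / Y) : ℝ) * Complex.I) *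
      Complex.exp ((r : ℕ) * ((Real.pi / 2 - Real.arctan ((X + 1) / Y) : ℝ) * Complex.I)) /
      Complex.exp (((r + 1 : ℕ) : ℂ) * ((Real.pi / 2 - Real.arctan (X / Y) : ℝ) * Complex.I)) := by
    rw [← Complex.exp_add, ← Complex.exp_sub]
    congr 1
    unfold hh
    push_cast
    ring
  rw [h4, Complex.ofReal_div, Complex.ofReal_mul, Complex.ofReal_pow, Complex.ofReal_pow]
  generalize Complex.exp ((Real.pi / 2 - Real.arctan ((X - r) / Y) : ℝ) * Complex.I) = A
  generalize Complex.exp ((r : ℕ) * ((Real.pi / 2 - Real.arctan ((X + 1) / Y) : ℝ) *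
    Complex.I)) = B
  generalize Complex.exp (((r + 1 : ℕ) : ℂ) * ((Real.pi / 2 - Real.arctan (X / Y) : ℝ) *
    Complex.I)) = G
  ring

theorem hh_cont : ContinuousOn (fun p : ℝ × ℝ => hh r p.1 p.2) {p | 0 < p.2} := by
  have h : ∀ a : ℝ, ContinuousOn (fun p : ℝ × ℝ => Real.arctan ((p.1 + a) / p.2)) {p | 0 < p.2} :=
    fun a => Real.continuous_arctan.comp_continuousOn
      ((continuous_fst.add continuous_const).continuousOn.div continuous_snd.continuousOn
        fun p hp => ne_of_gt hp)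
  have h1 := (((h 0).const_smul ((r : ℝ) + 1)).sub (h (-r))).sub ((h 1).const_smul (r : ℝ))
  refine h1.congr fun p _ => ?_
  simp only [hh, smul_eq_mul, add_zero, Pi.sub_apply, Pi.smul_apply]
  rw [sub_eq_add_neg p.1 (r : ℝ)]

/-- the left half plane -/
theorem hh_left_neg (hr : 2 ≤ r) {X Y : ℝ} (hX : X ≤ 0) (hY : 0 < Y) : hh r X Y < 0 := by
  have hr' : (2 : ℝ) ≤ r := by exact_mod_cast hr
  have hB : 0 < ((r : ℝ) - 1) - 3 * X := by linarith
  rcases le_or_gt (-1) X with h | h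
  · refine neg_of_incr (by omega) hY fun Y' hY' => ?_
    have hA : 0 ≤ X * (X + 1) * (X - r) := by
      have h1 : X * (X + 1) ≤ 0 := mul_nonpos_of_nonpos_of_nonneg hX (by linarith)
      exact mul_nonneg_of_nonpos_of_nonpos h1 (by linarith)
    have h2 : 0 < Y' ^ 2 := by have := hY.trans hY'; positivity
    have h3 := mul_pos h2 hB
    unfold num
    linarith
  · rcases le_or_gt 0 (num r X Y) with h1 | h1
    · refine neg_of_incr (by omega) hY fun Y' hY' => ?_
      have h2 := mul_lt_mul_of_pos_right (sq_lt hY hY') hB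
      unfold num at h1 ⊢
      linarith
    · refine neg_of_decr (by omega) hY (lim_zero_left h) fun Y' hY0 hY' => ?_
      have h2 := mul_lt_mul_of_pos_right (sq_lt hY0 hY') hB
      unfold num at h1 ⊢
      linarith

theorem hh_zero_neg (hr : 2 ≤ r) {Y : ℝ} (hY : 0 < Y) : hh r 0 Y < 0 :=
  hh_left_neg hr le_rfl hY

theorem hh_pos_of_ge (hr : 2 ≤ r) {X Y : ℝ} (hX : ((r:ℝ) - 1) / 3 ≤ X) (hY : 0 < Y) :
    0 < hh r X Y := by
  have hr' : (2 : ℝ) ≤ r := by exact_mod_cast hr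
  have hX0 : 0 < X := by linarith
  have hB : ((r : ℝ) - 1) - 3 * X ≤ 0 := by linarith
  rcases le_or_gt X r with h | h
  · refine pos_of_decr (by omega) hY fun Y' hY' => ?_
    have h2 : 0 < Y' ^ 2 := by have := hY.trans hY'; positivity
    rcases eq_or_lt_of_le h with h1 | h1
    · have hB' : ((r : ℝ) - 1) - 3 * X < 0 := by linarith
      have h3 := mul_neg_of_pos_of_neg h2 hB'
      unfold num
      rw [h1, sub_self, mul_zero]
      rw [h1] at h3
      linarith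
    · have hA : X * (X + 1) * (X - r) < 0 :=
        mul_neg_of_pos_of_neg (by positivity) (by linarith)
      have h3 := mul_nonpos_of_nonneg_of_nonpos h2.le hB
      unfold num
      linarith
  · have hB' : ((r : ℝ) - 1) - 3 * X < 0 := by linarith
    rcases le_or_gt (num r X Y) 0 with h1 | h1
    · refine pos_of_decr (by omega) hY fun Y' hY' => ?_
      have h2 := mul_lt_mul_of_neg_right (sq_lt hY hY') hB'
      unfold num at h1 ⊢
      linarith
    · refine pos_of_incr (by omega) hY (lim_zero_right h) fun Y' hY0 hY' => ?_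
      have h2 := mul_lt_mul_of_neg_right (sq_lt hY0 hY') hB'
      unfold num at h1 ⊢
      linarith

theorem hh_lt_pi (hr : 1 ≤ r) {X Y : ℝ} (hY : 0 < Y) : hh r X Y < Real.pi := by
  have hr' : (1 : ℝ) ≤ r := by exact_mod_cast hr
  have h1 := Real.arctan_lt_pi_div_two (X / Y)
  have h2 := Real.neg_pi_div_two_lt_arctan ((X - r) / Y)
  have h3 : Real.arctan (X / Y) < Real.arctan ((X + 1) / Y) :=
    Real.arctan_strictMono (div_lt_div_of_pos_right (by linarith) hY)
  have h4 : (r : ℝ) * Real.arctan (X / Y) < r * Real.arctan ((X + 1) / Y) :=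
    mul_lt_mul_of_pos_left h3 (by linarith)
  unfold hh
  linarith

theorem hh_neg_of_zero (hr : 2 ≤ r) {X Y₁ Y₂ : ℝ} (hX : 0 < X) (hY : 0 < Y₁)
    (h0 : hh r X Y₁ ≤ 0) (h : Y₁ < Y₂) : hh r X Y₂ < 0 := by
  have hr' : (2 : ℝ) ≤ r := by exact_mod_cast hr
  have hX1 : X < ((r : ℝ) - 1) / 3 := by
    by_contra h1
    exact absurd (hh_pos_of_ge hr (not_lt.1 h1) hY) (not_lt.2 h0)
  have hB : 0 < ((r : ℝ) - 1) - 3 * X := by linarith
  have hY2 : 0 < Y₂ := hY.trans h
  rcases le_or_gt 0 (num r X Y₂) with h1 | h1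
  · refine neg_of_incr (by omega) hY2 fun Y' hY' => ?_
    have h2 := mul_lt_mul_of_pos_right (sq_lt hY2 hY') hB
    unfold num at h1 ⊢
    linarith
  · have hm : StrictAntiOn (fun Y : ℝ => hh r X Y) (Ioc 0 Y₂) := by
      refine strictAntiOn_of_deriv_neg (convex_Ioc _ _)
        ((cont X).mono fun Y hYY => hYY.1) fun Y hYY => ?_
      rw [interior_Ioc] at hYY
      refine deriv_neg (by omega) hYY.1 ?_
      have h2 := mul_lt_mul_of_pos_right (sq_lt hYY.1 hYY.2) hB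
      unfold num at h1 ⊢
      linarith
    have h2 : hh r X Y₂ < hh r X Y₁ := hm ⟨hY, h.le⟩ ⟨hY2, le_rfl⟩ h
    linarith

/-- near the positive real axis -/
theorem hh_near (hr : 2 ≤ r) {X₀ : ℝ} (hX : 0 < X₀) :
    ∃ δ > 0, ∀ X Y : ℝ, |X - X₀| < δ → 0 < Y → Y < δ → 0 < hh r X Y := by
  have hr' : (2 : ℝ) ≤ r := by exact_mod_cast hr
  rcases lt_or_ge (((r : ℝ) - 1) / 3) X₀ with h | h
  · refine ⟨X₀ - ((r : ℝ) - 1) / 3, by linarith, fun X Y h1 hY _ => ?_⟩
    have h2 := (abs_lt.1 h1).1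
    exact hh_pos_of_ge hr (by linarith) hY
  · have hr0 : 0 < (r : ℝ) - X₀ := by linarith
    obtain ⟨δ, hδ⟩ : ∃ δ : ℝ, δ = min (X₀ / (2 * ((r : ℝ) + 1))) (((r : ℝ) - X₀) / 2) := ⟨_, rfl⟩
    have hδ1 : δ ≤ X₀ / (2 * ((r : ℝ) + 1)) := by rw [hδ]; exact min_le_left _ _
    have hδ2 : δ ≤ ((r : ℝ) - X₀) / 2 := by rw [hδ]; exact min_le_right _ _
    have hδ0 : 0 < δ := by rw [hδ]; exact lt_min (by positivity) (by linarith)
    rw [le_div_iff₀ (by positivity)] at hδ1
    have hδ3 : δ ≤ X₀ / 2 := by nlinarith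
    refine ⟨δ, hδ0, fun X Y h1 hY h2 => ?_⟩
    obtain ⟨h3, h4⟩ := abs_lt.1 h1
    have hX1 : X₀ / 2 < X := by linarith
    have hX2 : ((r : ℝ) - X₀) / 2 < r - X := by linarith
    have hXp : 0 < X := by linarith
    have hrX : 0 < (r : ℝ) - X := by linarith
    have e1 : Real.arctan (X / Y) = Real.pi / 2 - Real.arctan (Y / X) := by
      rw [← Real.arctan_inv_of_pos (div_pos hY hXp), inv_div]
    have e2 : Real.arctan ((X - r) / Y) = -(Real.pi / 2 - Real.arctan (Y / ((r : ℝ) - X))) := by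
      rw [← Real.arctan_inv_of_pos (div_pos hY hrX), inv_div, ← Real.arctan_neg, ← neg_div, neg_sub]
    have e3 := Real.arctan_lt_pi_div_two ((X + 1) / Y)
    have e4 := arctan_le_self (div_pos hY hXp).le
    have e5 := arctan_le_self (div_pos hY hrX).le
    have e6 : Y / X ≤ 1 / ((r : ℝ) + 1) := by
      rw [div_le_div_iff₀ hXp (by linarith)]
      nlinarith
    have e7 : Y / ((r : ℝ) - X) ≤ 1 := by
      rw [div_le_one hrX]
      linarith
    have e8 : ((r : ℝ) + 1) * Real.arctan (Y / X) ≤ 1 := by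
      have h5 : ((r : ℝ) + 1) * Real.arctan (Y / X) ≤ ((r : ℝ) + 1) * (1 / ((r : ℝ) + 1)) :=
        mul_le_mul_of_nonneg_left (e4.trans e6) (by linarith)
      rwa [mul_one_div_cancel (by linarith)] at h5
    have e9 : (r : ℝ) * Real.arctan ((X + 1) / Y) < r * (Real.pi / 2) :=
      mul_lt_mul_of_pos_left e3 (by linarith)
    have hpi := Real.pi_gt_three
    unfold hh
    rw [e1, e2]
    nlinarith

theorem hh_diag (hr : 10 ≤ r) {X Y : ℝ} (hX : 0 < X) (hXr : X ≤ r / 10) (h : X ≤ Y) :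
    hh r X Y < 0 := by
  have hr' : (10 : ℝ) ≤ r := by exact_mod_cast hr
  have h0 : hh r X X < 0 := by
    have e1 : Real.arctan (X / X) = Real.pi / 4 := by rw [div_self hX.ne', Real.arctan_one]
    have e2 := Real.neg_pi_div_two_lt_arctan ((X - r) / X)
    have e3 : Real.arctan ((X + 1) / X) = Real.pi / 4 + Real.arctan (1 / (2 * X + 1)) := by
      have h1 : (1 : ℝ) * (1 / (2 * X + 1)) < 1 := by
        rw [one_mul, div_lt_one (by linarith)]
        linarith
      rw [← Real.arctan_one, Real.arctan_add h1]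
      congr 1
      have h2 : (2 * X + 1) - 1 ≠ 0 := by
        rw [add_sub_cancel_right]
        positivity
      field_simp
      ring
    obtain ⟨x, hx⟩ : ∃ x : ℝ, x = 5 / ((r : ℝ) + 5) := ⟨_, rfl⟩
    have hx0 : 0 < x := by rw [hx]; positivity
    have hx1 : x ≤ 1 / (2 * X + 1) := by
      rw [hx, div_le_div_iff₀ (by linarith) (by linarith)]
      linarith
    have hx2 : x ≤ 1 / 3 := by
      rw [hx, div_le_div_iff₀ (by linarith) (by norm_num)]
      linarith
    have e4 : Real.arctan x ≤ Real.arctan (1 / (2 * X + 1)) := Real.arctan_mono hx1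
    have e5 := le_arctan hx0.le
    have e6 : 9 / 10 * x ≤ x / (1 + x ^ 2) := by
      rw [le_div_iff₀ (by positivity)]
      nlinarith
    have e7 : 3 ≤ (r : ℝ) * (9 / 10 * x) := by
      rw [hx]
      have h5 : (0 : ℝ) < r + 5 := by linarith
      have h6 : (r : ℝ) * (9 / 10 * (5 / ((r : ℝ) + 5))) = (9 / 2 * r) / (r + 5) := by
        field_simp
        ring
      rw [h6, le_div_iff₀ h5]
      linarith
    have e8 : (r : ℝ) * (9 / 10 * x) ≤ r * Real.arctan (1 / (2 * X + 1)) :=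
      mul_le_mul_of_nonneg_left (e6.trans (e5.trans e4)) (by linarith)
    have hpi := Real.pi_lt_four
    unfold hh
    rw [e1, e3]
    linarith
  rcases eq_or_lt_of_le h with h1 | h1
  · rw [← h1]
    exact h0
  · exact hh_neg_of_zero (by omega) hX hX h0.le h1

end Pool.Agent.MP_ae5b4e_an_HYP
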