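import Mathlib
import Pool.Agent.Lib.MP_ae5b4e_an_HYP.Defs

/-!
# MP_ae5b4e_an, project HYP: elementary facts on `Rr`, `chi`
-/

set_option autoImplicit false

noncomputable section

namespace Pool.Agent.MP_ae5b4e_an_HYP

open Filter Topology Set Metric
open scoped ComplexConjugate

section B1
variable {r : ℕ}

theorem Rr_conj (V : ℂ) : Rr r (conj V) = conj (Rr r V) := by
  simp only [Rr, map_div₀, map_mul, map_pow, map_sub, map_add, map_one, Complex.conj_natCast]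

theorem Rr_ne_zero (hr : 1 ≤ r) {V : ℂ} (h0 : V ≠ 0) (h1 : V ≠ -1) (hr' : V ≠ r) :
    Rr r V ≠ 0 := by
  have h2 : V + 1 ≠ 0 := fun h => h1 (eq_neg_of_add_eq_zero_left h)
  exact div_ne_zero (mul_ne_zero (sub_ne_zero.2 hr') (pow_ne_zero _ h2)) (pow_ne_zero _ h0)

theorem Rr_eq_zero (hr : 1 ≤ r) {V : ℂ} (h0 : V ≠ 0) : Rr r V = 0 ↔ V = r ∨ V = -1 := by
  unfold Rr
  rw [div_eq_zero_iff, mul_eq_zero, pow_eq_zero_iff (by omega), sub_eq_zero]
  constructor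
  · rintro ((h | h) | h)
    · exact Or.inl h
    · exact Or.inr (eq_neg_of_add_eq_zero_left h)
    · exact absurd h (pow_ne_zero _ h0)
  · rintro (h | h)
    · exact Or.inl (Or.inl h)
    · exact Or.inl (Or.inr (by rw [h]; ring))

theorem Rr_analytic {V : ℂ} (h0 : V ≠ 0) : AnalyticAt ℂ (Rr r) V := by
  unfold Rr
  exact ((analyticAt_id.sub analyticAt_const).mul ((analyticAt_id.add analyticAt_const).pow _)).div
    (analyticAt_id.pow _) (pow_ne_zero _ h0)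

theorem Rr_deriv (hr : 1 ≤ r) {V : ℂ} (h0 : V ≠ 0) :
    HasDerivAt (Rr r) (r * (r + 1) * (V + 1) ^ (r - 1) / V ^ (r + 2)) V := by
  obtain ⟨s, rfl⟩ : ∃ s, r = s + 1 := ⟨r - 1, by omega⟩
  have h1 : HasDerivAt (fun V : ℂ => V - ((s + 1 : ℕ) : ℂ)) 1 V := (hasDerivAt_id V).sub_const _
  have h2 : HasDerivAt (fun V : ℂ => (V + 1) ^ (s + 1))
      (((s + 1 : ℕ) : ℂ) * (V + 1) ^ (s + 1 - 1) * 1) V :=
    ((hasDerivAt_id V).add_const 1).fun_pow (s + 1)
  have h3 : HasDerivAt (fun V : ℂ => V ^ (s + 1 + 1))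
      (((s + 1 + 1 : ℕ) : ℂ) * V ^ (s + 1 + 1 - 1)) V := hasDerivAt_pow (s + 1 + 1) V
  have h4 := (h1.fun_mul h2).fun_div h3 (pow_ne_zero _ h0)
  refine h4.congr_deriv ?_
  simp only [Nat.add_sub_cancel]
  push_cast
  rw [div_eq_div_iff (pow_ne_zero _ (pow_ne_zero _ h0)) (pow_ne_zero _ h0)]
  ring

theorem Rr_deriv_ne (hr : 1 ≤ r) {V : ℂ} (h0 : V ≠ 0) (h1 : V ≠ -1) :
    (r * (r + 1) * (V + 1) ^ (r - 1) / V ^ (r + 2) : ℂ) ≠ 0 := by
  have h2 : V + 1 ≠ 0 := fun h => h1 (eq_neg_of_add_eq_zero_left h)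
  have h3 : (r : ℂ) ≠ 0 := Nat.cast_ne_zero.2 (by omega)
  exact div_ne_zero (mul_ne_zero (mul_ne_zero h3 (Nat.cast_add_one_ne_zero r))
    (pow_ne_zero _ h2)) (pow_ne_zero _ h0)

/-- a local inverse of `Rr r` -/
theorem Rr_local (hr : 1 ≤ r) {V₀ : ℂ} (h0 : V₀ ≠ 0) (h1 : V₀ ≠ -1) :
    ∃ p : ℂ → ℂ, AnalyticAt ℂ p (Rr r V₀) ∧ p (Rr r V₀) = V₀ ∧
      (∀ᶠ z in 𝓝 (Rr r V₀), Rr r (p z) = z) ∧ (∀ᶠ V in 𝓝 V₀, p (Rr r V) = V) := by
  have hne := Rr_deriv_ne hr h0 h1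
  have hd := Rr_deriv hr h0
  set c : ℂ := r * (r + 1) * (V₀ + 1) ^ (r - 1) / V₀ ^ (r + 2) with hc
  have hc0 : ContDiffAt ℂ (⊤ : WithTop ℕ∞) (Rr r) V₀ := (Rr_analytic h0).contDiffAt
  have hn : (⊤ : WithTop ℕ∞) ≠ 0 := by simp
  have hfd : HasFDerivAt (Rr r)
      ((ContinuousLinearEquiv.unitsEquivAut ℂ (Units.mk0 c hne) : ℂ ≃L[ℂ] ℂ) : ℂ →L[ℂ] ℂ) V₀ := by
    refine hd.hasFDerivAt_equiv hne
  refine ⟨hc0.localInverse hfd hn, ?_, hc0.localInverse_apply_image hfd hn, ?_, ?_⟩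
  · exact (hc0.to_localInverse hfd hn).analyticAt
  · exact (hc0.hasStrictFDerivAt' hfd hn).eventually_right_inverse
  · exact (hc0.hasStrictFDerivAt' hfd hn).eventually_left_inverse

theorem Rr_eq_inv {V : ℂ} (h0 : V ≠ 0) : Rr r V = (1 - r * V⁻¹) * (1 + V⁻¹) ^ r := by
  unfold Rr
  have h1 : 1 + V⁻¹ = (V + 1) / V := by field_simp
  have h2 : 1 - r * V⁻¹ = (V - r) / V := by field_simp
  rw [h1, h2, div_pow, pow_succ, div_mul_div_comm, mul_comm V]

theorem Rr_inf : Tendsto (Rr r) (Bornology.cobounded ℂ) (𝓝 1) := by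
  have h1 : Tendsto (fun t : ℂ => (1 - r * t) * (1 + t) ^ r) (𝓝 0) (𝓝 1) := by
    have h2 : Continuous (fun t : ℂ => (1 - r * t) * (1 + t) ^ r) := by fun_prop
    have h3 := h2.tendsto 0
    simpa using h3
  have h2 := h1.comp (tendsto_inv₀_cobounded (α := ℂ))
  refine h2.congr' ?_
  filter_upwards [Bornology.eventually_ne_cobounded (0:ℂ)] with V hV
  exact (Rr_eq_inv hV).symm

/-- near `0` -/
theorem Rr_zero (hr : 1 ≤ r) : Tendsto (Rr r) (𝓝[≠] 0) (Bornology.cobounded ℂ) := by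
  have hr0 : (r : ℂ) ≠ 0 := Nat.cast_ne_zero.2 (by omega)
  have h1 : Tendsto (fun V : ℂ => V ^ (r + 1) / ((V - r) * (V + 1) ^ r)) (𝓝 0) (𝓝 0) := by
    have h2 : ContinuousAt (fun V : ℂ => V ^ (r + 1) / ((V - r) * (V + 1) ^ r)) 0 := by
      refine ContinuousAt.div (by fun_prop) (by fun_prop) ?_
      simpa using hr0
    have h3 := h2.tendsto
    simpa using h3
  have h2 : ∀ᶠ V : ℂ in 𝓝[≠] 0, V ^ (r + 1) / ((V - r) * (V + 1) ^ r) ≠ 0 := by
    have e1 : ∀ᶠ V : ℂ in 𝓝 (0:ℂ), V - r ≠ 0 := by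
      have : ContinuousAt (fun V : ℂ => V - (r:ℂ)) 0 := by fun_prop
      exact this.eventually_ne (by simpa using hr0)
    have e2 : ∀ᶠ V : ℂ in 𝓝 (0:ℂ), V + 1 ≠ 0 := by
      have : ContinuousAt (fun V : ℂ => V + (1:ℂ)) 0 := by fun_prop
      exact this.eventually_ne (by simp)
    filter_upwards [e1.filter_mono nhdsWithin_le_nhds, e2.filter_mono nhdsWithin_le_nhds,
      self_mem_nhdsWithin] with V h3 h4 h5
    exact div_ne_zero (pow_ne_zero _ h5) (mul_ne_zero h3 (pow_ne_zero _ h4))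
  have h3 : Tendsto (fun V : ℂ => V ^ (r + 1) / ((V - r) * (V + 1) ^ r)) (𝓝[≠] 0) (𝓝[≠] 0) :=
    tendsto_nhdsWithin_iff.2 ⟨h1.mono_left nhdsWithin_le_nhds, h2⟩
  have h4 := (tendsto_inv₀_nhdsNE_zero (α := ℂ)).comp h3
  refine h4.congr fun V => ?_
  show (V ^ (r + 1) / ((V - r) * (V + 1) ^ r))⁻¹ = Rr r V
  rw [inv_div]
  rfl

theorem Rr_ne_one_of_big (hr : 2 ≤ r) : ∀ᶠ V in Bornology.cobounded ℂ, Rr r V ≠ 1 := by
  have hP : AnalyticOnNhd ℂ (fun t : ℂ => (1 - r * t) * (1 + t) ^ r) univ := by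
    intro t _
    exact (analyticAt_const.sub (analyticAt_const.mul analyticAt_id)).mul
      ((analyticAt_const.add analyticAt_id).pow _)
  have h1 : AnalyticOnNhd ℂ (fun _ : ℂ => (1:ℂ)) univ := fun t _ => analyticAt_const
  have h2 : ∀ᶠ t : ℂ in 𝓝[≠] (0:ℂ), (1 - (r:ℂ) * t) * (1 + t) ^ r ≠ 1 := by
    rcases (hP 0 (mem_univ _)).eventually_eq_or_eventually_ne (h1 0 (mem_univ _)) with h | h
    · exfalso
      have h3 := hP.eqOn_of_preconnected_of_eventuallyEq h1 isPreconnected_univ (mem_univ 0) h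
      have h4 : (1 - r * (-1)) * (1 + (-1)) ^ r = (1:ℂ) := h3 (mem_univ (-1))
      rw [add_neg_cancel, zero_pow (by omega), mul_zero] at h4
      exact zero_ne_one h4
    · exact h
  have h3 : Tendsto (fun V : ℂ => V⁻¹) (Bornology.cobounded ℂ) (𝓝[≠] 0) := by
    refine tendsto_nhdsWithin_iff.2 ⟨tendsto_inv₀_cobounded, ?_⟩
    filter_upwards [Bornology.eventually_ne_cobounded (0:ℂ)] with V hV
    exact inv_ne_zero hV
  filter_upwards [h3.eventually h2, Bornology.eventually_ne_cobounded (0:ℂ)] with V h4 h5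
  rw [Rr_eq_inv h5]
  exact h4

theorem chi_ne (d V : ℂ) : chi d V ≠ 0 := Complex.exp_ne_zero _

theorem Rat_slit {V : ℂ} (h : 0 < V.re ∨ V.re < -1) : V / (V + 1) ∈ Complex.slitPlane := by
  have h1 : V + 1 ≠ 0 := by
    intro h1
    have h2 := congrArg Complex.re h1
    simp only [Complex.add_re, Complex.one_re, Complex.zero_re] at h2
    rcases h with h | h <;> linarith
  by_contra hq
  rw [Complex.mem_slitPlane_iff, not_or, not_lt, not_not] at hq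
  obtain ⟨h2, h3⟩ := hq
  set q := V / (V + 1) with hqdef
  have h4 : V = q * (V + 1) := by
    rw [hqdef, div_mul_cancel₀ _ h1]
  have h5 := congrArg Complex.re h4
  rw [Complex.mul_re, h3, zero_mul, sub_zero, Complex.add_re, Complex.one_re] at h5
  rcases h with h | h <;> nlinarith

theorem chi_analytic {d V : ℂ} (h : 0 < V.re ∨ V.re < -1) : AnalyticAt ℂ (chi d) V := by
  have h1 : V + 1 ≠ 0 := by
    intro h1
    have h2 := congrArg Complex.re h1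
    simp only [Complex.add_re, Complex.one_re, Complex.zero_re] at h2
    rcases h with h | h <;> linarith
  have h2 : AnalyticAt ℂ (fun V : ℂ => V / (V + 1)) V :=
    analyticAt_id.div (analyticAt_id.add analyticAt_const) h1
  have h3 : AnalyticAt ℂ (fun V : ℂ => 2 * d * Complex.log (V / (V + 1))) V :=
    analyticAt_const.mul (h2.clog (Rat_slit h))
  exact h3.cexp'

theorem chi_norm (d V : ℂ) : ‖chi d V‖ =
    Real.exp (2 * (d.re * Real.log ‖V / (V + 1)‖ - d.im * (V / (V + 1)).arg)) := by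
  unfold chi
  rw [Complex.norm_exp]
  congr 1
  have h1 : (2 * d * Complex.log (V / (V + 1))).re =
      2 * (d * Complex.log (V / (V + 1))).re := by
    rw [mul_assoc, Complex.mul_re]
    simp
  rw [h1, Complex.mul_re, Complex.log_re, Complex.log_im]

/-- lower bound for `chi` near `0` -/
theorem chi_lower (d : ℂ) : ∃ K > 0, ∀ V : ℂ, 0 < V.re → ‖V‖ ≤ 1 →
    ‖V‖ ^ (2 * d.re) ≤ K * ‖chi d V‖ := by
  refine ⟨Real.exp (2 * |d.re| * Real.log 2 + 2 * Real.pi * |d.im|), Real.exp_pos _,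
    fun V hV hV1 => ?_⟩
  have hV0 : 0 < ‖V‖ := by
    rw [norm_pos_iff]
    rintro rfl
    simp at hV
  have h1 : 1 ≤ ‖V + 1‖ := by
    have := Complex.re_le_norm (V + 1)
    rw [Complex.add_re, Complex.one_re] at this
    linarith
  have h2 : ‖V + 1‖ ≤ 2 := by
    have := norm_add_le V 1
    rw [norm_one] at this
    linarith
  rw [Real.rpow_def_of_pos hV0, chi_norm, ← Real.exp_add, Real.exp_le_exp, norm_div,
    Real.log_div hV0.ne' (by linarith)]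
  have h3 : 0 ≤ Real.log ‖V + 1‖ := Real.log_nonneg h1
  have h4 : Real.log ‖V + 1‖ ≤ Real.log 2 := Real.log_le_log (by linarith) h2
  have h5 : d.re * Real.log ‖V + 1‖ ≤ |d.re| * Real.log 2 :=
    mul_le_mul (le_abs_self _) h4 h3 (abs_nonneg _)
  have h6 : d.im * (V / (V + 1)).arg ≤ |d.im| * Real.pi := by
    refine le_trans (le_abs_self _) ?_
    rw [abs_mul]
    exact mul_le_mul_of_nonneg_left (Complex.abs_arg_le_pi _) (abs_nonneg _)
  nlinarith

/-- `chi` near `-1`, on the left -/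
theorem chi_left (d : ℂ) : ∀ ε : ℝ, 0 < ε → ‖chi d (-1 - ε)‖ = ((1 + ε) / ε) ^ (2 * d.re) := by
  intro ε hε
  have hε' : (ε:ℂ) ≠ 0 := Complex.ofReal_ne_zero.2 hε.ne'
  have h1 : (-1 - (ε:ℂ)) / (-1 - ε + 1) = (((1 + ε) / ε : ℝ) : ℂ) := by
    push_cast
    rw [show (-1 - (ε:ℂ) + 1) = -ε by ring, div_neg, ← neg_div]
    congr 1
    ring
  have h2 : 0 < (1 + ε) / ε := by positivity
  rw [chi_norm, h1, Complex.arg_ofReal_of_nonneg h2.le, Complex.norm_real, Real.norm_of_nonneg h2.le,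
    mul_zero, sub_zero, Real.rpow_def_of_pos h2]
  congr 1
  ring

end B1

end Pool.Agent.MP_ae5b4e_an_HYP
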