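import Mathlib
import Pool.Agent.Lib.MP_ae5b4e_an_HYP.Defs
import Pool.Agent.Lib.MP_ae5b4e_an_HYP.Rat
import Pool.Agent.Lib.MP_ae5b4e_an_HYP.Harg

/-!
# MP_ae5b4e_an, project HYP, module H2: the fundamental domain
-/

set_option autoImplicit false

noncomputable section

namespace Pool.Agent.MP_ae5b4e_an_HYP

open Filter Topology Set Metric
open scoped ComplexConjugate

variable {r : ℕ}

namespace Dom

theorem polar {V : ℂ} (hV : 0 < V.im) :
    Rr r V = ‖Rr r V‖ * Complex.exp (hh r V.re V.im * Complex.I) := by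
  have h := Rr_polar (r := r) (X := V.re) hV
  rw [Complex.re_add_im] at h
  exact h

theorem polar_im {V : ℂ} (hV : 0 < V.im) :
    (Rr r V).im = ‖Rr r V‖ * Real.sin (hh r V.re V.im) := by
  conv_lhs => rw [polar hV]
  rw [Complex.im_ofReal_mul, Complex.exp_ofReal_mul_I_im]

theorem norm_pos (hr : 2 ≤ r) {V : ℂ} (hV : V.im ≠ 0) : 0 < ‖Rr r V‖ := by
  rw [norm_pos_iff]
  apply Rr_ne_zero (by omega)
  · rintro rfl
    simp at hV
  · rintro rfl
    simp at hV
  · rintro rfl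
    simp at hV

theorem hh_contAt {X Y : ℝ} (hY : 0 < Y) :
    ContinuousAt (fun p : ℝ × ℝ => hh r p.1 p.2) (X, Y) := by
  apply hh_cont.continuousAt
  apply IsOpen.mem_nhds
  · exact isOpen_lt continuous_const continuous_snd
  · exact hY

theorem hh_tendsto {ι : Type*} {l : Filter ι} {V : ι → ℂ} {W : ℂ} (h : Tendsto V l (𝓝 W))
    (hW : W.im ≠ 0) :
    Tendsto (fun i => hh r (V i).re |(V i).im|) l (𝓝 (hh r W.re |W.im|)) := by
  have hc : ContinuousAt (fun U : ℂ => ((U.re, |U.im|) : ℝ × ℝ)) W := by fun_prop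
  have h2 : ContinuousAt (fun p : ℝ × ℝ => hh r p.1 p.2)
      ((fun U : ℂ => ((U.re, |U.im|) : ℝ × ℝ)) W) :=
    hh_contAt (r := r) (X := W.re) (abs_pos.mpr hW)
  have h3 := ContinuousAt.comp (f := (fun U : ℂ => ((U.re, |U.im|) : ℝ × ℝ)))
    (g := fun p : ℝ × ℝ => hh r p.1 p.2) h2 hc
  exact h3.tendsto.comp h

theorem hh_nhds (W : ℂ) (hW : W.im ≠ 0) :
    Tendsto (fun V : ℂ => hh r V.re |V.im|) (𝓝 W) (𝓝 (hh r W.re |W.im|)) :=
  hh_tendsto tendsto_id hW

end Dom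

open Dom

theorem EE_open (hr : 2 ≤ r) : IsOpen (EE r) := by
  rw [isOpen_iff_mem_nhds]
  rintro V ⟨hre, him⟩
  have hre' : ∀ᶠ W : ℂ in 𝓝 V, 0 < W.re :=
    (Complex.continuous_re.tendsto V).eventually (lt_mem_nhds hre)
  by_cases h0 : V.im = 0
  · obtain ⟨δ, hδ, hn⟩ := hh_near hr hre
    have h1 : ∀ᶠ W : ℂ in 𝓝 V, |W.re - V.re| < δ := by
      have : Tendsto (fun W : ℂ => |W.re - V.re|) (𝓝 V) (𝓝 |V.re - V.re|) :=
        ((Complex.continuous_re.sub continuous_const).abs.tendsto V)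
      rw [sub_self, abs_zero] at this
      exact this.eventually (gt_mem_nhds hδ)
    have h2 : ∀ᶠ W : ℂ in 𝓝 V, |W.im| < δ := by
      have : Tendsto (fun W : ℂ => |W.im|) (𝓝 V) (𝓝 |V.im|) :=
        (Complex.continuous_im.abs.tendsto V)
      rw [h0, abs_zero] at this
      exact this.eventually (gt_mem_nhds hδ)
    filter_upwards [hre', h1, h2] with W hW0 hW1 hW2
    refine ⟨hW0, ?_⟩
    by_cases hW : W.im = 0
    · exact Or.inl hW
    · exact Or.inr (hn _ _ hW1 (abs_pos.mpr hW) hW2)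
  · have h1 : 0 < hh r V.re |V.im| := him.resolve_left h0
    filter_upwards [hre', (hh_nhds (r := r) V h0).eventually (lt_mem_nhds h1)] with W hW0 hW1
    exact ⟨hW0, Or.inr hW1⟩

theorem EE_conj {V : ℂ} (h : V ∈ EE r) : conj V ∈ EE r := by
  obtain ⟨h1, h2⟩ := h
  refine ⟨by simpa using h1, ?_⟩
  rw [Complex.conj_re, Complex.conj_im, abs_neg, neg_eq_zero]
  exact h2

theorem EC_iff {V : ℂ} : EC r V ↔ 0 < V.re ∧ (V.im = 0 ∨ 0 ≤ hh r V.re |V.im|) := by
  constructor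
  · rintro (⟨h1, h2⟩ | ⟨h1, h2, h3⟩ | ⟨h1, h2, h3⟩)
    · exact ⟨h1, h2.imp id le_of_lt⟩
    · refine ⟨h1, Or.inr ?_⟩
      rw [abs_of_pos h2, h3]
    · rw [Complex.conj_re] at h1 h3
      rw [Complex.conj_im] at h2 h3
      refine ⟨h1, Or.inr ?_⟩
      rw [abs_of_neg (by linarith), h3]
  · rintro ⟨h1, h2⟩
    by_cases h0 : V.im = 0
    · exact Or.inl ⟨h1, Or.inl h0⟩
    · have h3 := h2.resolve_left h0
      rcases h3.lt_or_eq with h4 | h4
      · exact Or.inl ⟨h1, Or.inr h4⟩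
      · rcases lt_or_gt_of_ne h0 with h5 | h5
        · refine Or.inr (Or.inr ⟨by simpa using h1, by simpa using h5, ?_⟩)
          rw [Complex.conj_re, Complex.conj_im, h4, abs_of_neg h5]
        · refine Or.inr (Or.inl ⟨h1, h5, ?_⟩)
          rw [h4, abs_of_pos h5]

theorem EC_re {V : ℂ} (h : EC r V) : 0 < V.re := (EC_iff.mp h).1

theorem EC_conj {V : ℂ} (h : EC r V) : EC r (conj V) := by
  rw [EC_iff] at h ⊢
  rw [Complex.conj_re, Complex.conj_im, abs_neg, neg_eq_zero]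
  exact h

theorem EC_lim (hr : 2 ≤ r) {ι : Type*} {l : Filter ι} [l.NeBot] {V : ι → ℂ} {W : ℂ}
    (hV : ∀ᶠ i in l, EC r (V i)) (h : Tendsto V l (𝓝 W)) (h0 : W ≠ 0) : EC r W := by
  have hre : Tendsto (fun i => (V i).re) l (𝓝 W.re) := (Complex.continuous_re.tendsto W).comp h
  have him : Tendsto (fun i => (V i).im) l (𝓝 W.im) := (Complex.continuous_im.tendsto W).comp h
  have hge : 0 ≤ W.re := ge_of_tendsto hre (hV.mono fun i hi => (EC_re hi).le)
  rw [EC_iff]
  by_cases hW : W.im = 0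
  · refine ⟨lt_of_le_of_ne hge ?_, Or.inl hW⟩
    intro h1
    exact h0 (Complex.ext h1.symm hW)
  · have h1 : 0 ≤ hh r W.re |W.im| := by
      apply ge_of_tendsto (hh_tendsto h hW)
      filter_upwards [hV, him.eventually_ne hW] with i hi hi2
      exact (EC_iff.mp hi).2.resolve_left hi2
    refine ⟨lt_of_le_of_ne hge ?_, Or.inr h1⟩
    intro h2
    rw [← h2] at h1
    exact absurd h1 (not_le.mpr (hh_zero_neg hr (abs_pos.mpr hW)))

theorem CC_re_lt (hr : 2 ≤ r) {V : ℂ} (h : V ∈ CC r) : V.re < ((r:ℝ) - 1) / 3 := by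
  obtain ⟨_, h2, h3⟩ := h
  by_contra hh
  push Not at hh
  have := hh_pos_of_ge hr hh h2
  linarith

theorem CC_val (hr : 2 ≤ r) {V : ℂ} (h : V ∈ CC r) : ∃ x : ℝ, 1 < x ∧ Rr r V = x := by
  have hlt := CC_re_lt hr h
  obtain ⟨h1, h2, h3⟩ := h
  refine ⟨‖Rr r V‖, ?_, ?_⟩
  swap
  · conv_lhs => rw [polar h2, h3]
    simp
  have hr' : (2 : ℝ) ≤ r := by exact_mod_cast hr
  have hV : 0 < ‖V‖ := by
    rw [_root_.norm_pos_iff]
    rintro rfl
    simp at h1
  have e1 : ‖V‖ < ‖V - r‖ := by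
    apply lt_of_pow_lt_pow_left₀ 2 (norm_nonneg _)
    rw [Complex.sq_norm, Complex.sq_norm, Complex.normSq_apply, Complex.normSq_apply]
    simp only [Complex.sub_re, Complex.sub_im, Complex.natCast_re, Complex.natCast_im, sub_zero]
    nlinarith
  have e2 : ‖V‖ < ‖V + 1‖ := by
    apply lt_of_pow_lt_pow_left₀ 2 (norm_nonneg _)
    rw [Complex.sq_norm, Complex.sq_norm, Complex.normSq_apply, Complex.normSq_apply]
    simp only [Complex.add_re, Complex.add_im, Complex.one_re, Complex.one_im, add_zero]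
    nlinarith
  unfold Rr
  rw [norm_div, norm_mul, norm_pow, norm_pow, lt_div_iff₀ (by positivity), one_mul, pow_succ']
  calc ‖V‖ * ‖V‖ ^ r < ‖V - r‖ * ‖V‖ ^ r := by
        apply mul_lt_mul_of_pos_right e1 (by positivity)
    _ ≤ ‖V - r‖ * ‖V + 1‖ ^ r := by
        apply mul_le_mul_of_nonneg_left _ (norm_nonneg _)
        exact pow_le_pow_left₀ (norm_nonneg _) e2.le r

theorem EE_im_pos (hr : 2 ≤ r) {V : ℂ} (h : V ∈ EE r) (hi : 0 < V.im) : 0 < (Rr r V).im := by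
  rw [polar_im hi]
  apply mul_pos (Dom.norm_pos hr hi.ne')
  apply Real.sin_pos_of_pos_of_lt_pi
  · have := h.2.resolve_left hi.ne'
    rwa [abs_of_pos hi] at this
  · exact hh_lt_pi (by omega) hi

theorem EE_im_neg (hr : 2 ≤ r) {V : ℂ} (h : V ∈ EE r) (hi : V.im < 0) : (Rr r V).im < 0 := by
  have h1 := EE_im_pos hr (EE_conj h) (by simpa using hi)
  rw [Rr_conj, Complex.conj_im] at h1
  linarith

theorem EE_real (hr : 2 ≤ r) {V : ℂ} (h : V ∈ EE r) (hi : V.im = 0) :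
    (Rr r V).im = 0 ∧ (Rr r V).re < 1 := by
  obtain ⟨h1, _⟩ := h
  set x := V.re with hx
  have hV : V = (x : ℂ) := Complex.ext rfl (by simpa using hi)
  have e : Rr r V = (((x - r) * (x + 1) ^ r / x ^ (r + 1) : ℝ) : ℂ) := by
    rw [hV]
    unfold Rr
    push_cast
    rfl
  rw [e]
  refine ⟨Complex.ofReal_im _, ?_⟩
  rw [Complex.ofReal_re, div_lt_one (by positivity)]
  have hr' : (2 : ℝ) ≤ r := by exact_mod_cast hr
  by_cases hc : x ≤ r
  · calc (x - r) * (x + 1) ^ r ≤ 0 := by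
          apply mul_nonpos_of_nonpos_of_nonneg (by linarith) (by positivity)
      _ < x ^ (r + 1) := by positivity
  · push Not at hc
    have h2 : (1 + 1 / x) ^ r ≤ Real.exp (r / x) := by
      have h3 : 1 + 1 / x ≤ Real.exp (1 / x) := by
        have := Real.add_one_le_exp (1 / x)
        linarith
      calc (1 + 1 / x) ^ r ≤ (Real.exp (1 / x)) ^ r := pow_le_pow_left₀ (by positivity) h3 r
        _ = Real.exp (r / x) := by
            rw [← Real.exp_nat_mul]
            congr 1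
            ring
    have h4 : 1 - r / x < Real.exp (-(r / x)) := by
      have := Real.add_one_lt_exp (x := -(r / x)) (by
        have : 0 < (r : ℝ) / x := by positivity
        linarith)
      linarith
    have h5 : (1 - r / x) * (1 + 1 / x) ^ r < 1 := by
      have h6 : 0 ≤ 1 - r / x := by
        rw [sub_nonneg, div_le_one h1]
        exact hc.le
      calc (1 - r / x) * (1 + 1 / x) ^ r ≤ (1 - r / x) * Real.exp (r / x) :=
            mul_le_mul_of_nonneg_left h2 h6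
        _ < Real.exp (-(r / x)) * Real.exp (r / x) :=
            mul_lt_mul_of_pos_right h4 (Real.exp_pos _)
        _ = 1 := by rw [← Real.exp_add]; simp
    have h7 : (x - r) * (x + 1) ^ r = ((1 - r / x) * (1 + 1 / x) ^ r) * x ^ (r + 1) := by
      have e1 : x - r = (1 - r / x) * x := by field_simp
      have e2 : x + 1 = (1 + 1 / x) * x := by field_simp
      rw [e1]
      conv_lhs => rw [e2]
      rw [mul_pow]
      ring
    rw [h7]
    have : 0 < x ^ (r + 1) := by positivity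
    nlinarith

theorem EE_not_slit (hr : 2 ≤ r) {V : ℂ} (h : V ∈ EE r) : ¬ Sl (Rr r V) := by
  rintro ⟨h1, h2⟩
  rcases lt_trichotomy V.im 0 with h3 | h3 | h3
  · have := EE_im_neg hr h h3
    linarith
  · have := (EE_real hr h h3).2
    linarith
  · have := EE_im_pos hr h h3
    linarith

namespace Dom

/-- near a point of `CC` -/
theorem near {V₀ : ℂ} (h : V₀ ∈ CC r) : ∀ᶠ V in 𝓝 V₀, 0 < V.re ∧ 0 < V.im ∧
    -Real.pi < hh r V.re V.im ∧ hh r V.re V.im < Real.pi := by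
  obtain ⟨h1, h2, h3⟩ := h
  have a1 : ∀ᶠ W : ℂ in 𝓝 V₀, 0 < W.re :=
    (Complex.continuous_re.tendsto V₀).eventually (lt_mem_nhds h1)
  have a2 : ∀ᶠ W : ℂ in 𝓝 V₀, 0 < W.im :=
    (Complex.continuous_im.tendsto V₀).eventually (lt_mem_nhds h2)
  have a3 := hh_nhds (r := r) V₀ h2.ne'
  rw [abs_of_pos h2, h3] at a3
  filter_upwards [a1, a2, a3.eventually (lt_mem_nhds (neg_lt_zero.mpr Real.pi_pos)),
    a3.eventually (gt_mem_nhds Real.pi_pos)] with V b1 b2 b3 b4
  rw [abs_of_pos b2] at b3 b4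
  exact ⟨b1, b2, b3, b4⟩

end Dom

/-- near the upper boundary -/
theorem CC_near (hr : 2 ≤ r) {V₀ : ℂ} (h : V₀ ∈ CC r) :
    ∀ᶠ V in 𝓝 V₀, 0 < (Rr r V).im → V ∈ EE r := by
  filter_upwards [Dom.near h] with V ⟨b1, b2, b3, b4⟩ hpos
  rw [polar_im b2] at hpos
  refine ⟨b1, Or.inr ?_⟩
  rw [abs_of_pos b2]
  by_contra hc
  push Not at hc
  have h1 := Real.sin_nonpos_of_nonpos_of_neg_pi_le hc b3.le
  have h2 := Dom.norm_pos (r := r) hr b2.ne'
  nlinarith

theorem CC_near' (hr : 2 ≤ r) {V₀ : ℂ} (h : V₀ ∈ CC r) :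
    ∀ᶠ V in 𝓝 V₀, (Rr r V).im = 0 → V ∈ CC r := by
  filter_upwards [Dom.near h] with V ⟨b1, b2, b3, b4⟩ hz
  rw [polar_im b2] at hz
  refine ⟨b1, b2, ?_⟩
  have h2 := Dom.norm_pos (r := r) hr b2.ne'
  have h3 : Real.sin (hh r V.re V.im) = 0 := by
    rcases mul_eq_zero.mp hz with h4 | h4
    · exact absurd h4 h2.ne'
    · exact h4
  exact (Real.sin_eq_zero_iff_of_lt_of_lt b3 b4).mp h3

theorem CC_inj_re (hr : 2 ≤ r) {V V' : ℂ} (h : V ∈ CC r) (h' : V' ∈ CC r) (he : V.re = V'.re) :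
    V = V' := by
  obtain ⟨a1, a2, a3⟩ := h
  obtain ⟨b1, b2, b3⟩ := h'
  apply Complex.ext he
  rcases lt_trichotomy V.im V'.im with h1 | h1 | h1
  · have := hh_neg_of_zero hr a1 a2 a3.le h1
    rw [he] at this
    linarith
  · exact h1
  · have := hh_neg_of_zero hr b1 b2 b3.le h1
    rw [← he] at this
    linarith

end Pool.Agent.MP_ae5b4e_an_HYP
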