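import Mathlib
import Pool.Agent.Lib.MP_ae5b4e_an_HYP.Defs
import Pool.Agent.Lib.MP_ae5b4e_an_HYP.Rat
import Pool.Agent.Lib.MP_ae5b4e_an_HYP.Dom

/-!
# MP_ae5b4e_an, project HYP, module H3: `Rr r` is a bijection of the fundamental domain
-/

set_option autoImplicit false

noncomputable section

namespace Pool.Agent.MP_ae5b4e_an_HYP

open Filter Topology Set Metric
open scoped ComplexConjugate

variable {r : ℕ}

/-- compactness -/
theorem EC_compact (hr : 2 ≤ r) {z : ℂ} (hz : z ≠ 1) {V : ℕ → ℂ} (hV : ∀ n, EC r (V n))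
    (h : Tendsto (fun n => Rr r (V n)) atTop (𝓝 z)) :
    ∃ (W : ℂ) (φ : ℕ → ℕ), StrictMono φ ∧ Tendsto (V ∘ φ) atTop (𝓝 W) ∧ EC r W ∧ Rr r W = z := by
  have hb : ∃ R : ℝ, ∃ᶠ n in atTop, V n ∈ Metric.closedBall (0 : ℂ) R := by
    by_contra hcon
    push Not at hcon
    have h1 : Tendsto V atTop (Bornology.cobounded ℂ) := by
      rw [← tendsto_norm_atTop_iff_cobounded, Filter.tendsto_atTop]
      intro R
      filter_upwards [hcon R] with n hn
      rw [mem_closedBall_zero_iff, not_le] at hn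
      exact hn.le
    exact hz (tendsto_nhds_unique h (Rr_inf.comp h1))
  obtain ⟨R, hR⟩ := hb
  obtain ⟨W, -, φ, hφ, hW⟩ := tendsto_subseq_of_frequently_bounded isBounded_closedBall hR
  have h2 : Tendsto (fun n => Rr r ((V ∘ φ) n)) atTop (𝓝 z) := h.comp hφ.tendsto_atTop
  have hW0 : W ≠ 0 := by
    rintro rfl
    have h3 : Tendsto (V ∘ φ) atTop (𝓝[≠] 0) := by
      refine tendsto_nhdsWithin_iff.mpr ⟨hW, Eventually.of_forall fun n => ?_⟩
      intro h0
      have h4 := EC_re (hV (φ n))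
      rw [show V (φ n) = 0 from h0] at h4
      simp at h4
    have h4 : Tendsto (fun n => Rr r ((V ∘ φ) n)) atTop (Bornology.cobounded ℂ) :=
      (Rr_zero (r := r) (by omega)).comp h3
    exact h2.not_tendsto (disjoint_nhds_cobounded z) h4
  refine ⟨W, φ, hφ, hW, EC_lim hr (Eventually.of_forall fun n => hV (φ n)) hW hW0, ?_⟩
  exact tendsto_nhds_unique ((Rr_analytic (r := r) hW0).continuousAt.tendsto.comp hW) h2

namespace Bij

theorem EE_re {V : ℂ} (h : V ∈ EE r) : 0 < V.re := EC_re (Or.inl h)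

theorem ne_zero {V : ℂ} (h : 0 < V.re) : V ≠ 0 := by
  rintro rfl
  simp at h

theorem ne_neg_one {V : ℂ} (h : 0 < V.re) : V ≠ -1 := by
  rintro rfl
  simp at h
  linarith

/-- the complement of the slit -/
def S : Set ℂ := {z | ¬ Sl z}

theorem isPreconnected_S : IsPreconnected S := by
  have h1 : S = (fun z : ℂ => 1 - z) '' Complex.slitPlane := by
    ext z
    constructor
    · intro hz
      refine ⟨1 - z, ?_, by ring⟩
      rw [Complex.mem_slitPlane_iff]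
      have hz2 : ¬ (z.im = 0 ∧ 1 ≤ z.re) := hz
      simp only [Complex.sub_re, Complex.one_re, Complex.sub_im, Complex.one_im]
      by_contra hcon
      push Not at hcon
      exact hz2 ⟨by linarith [hcon.2], by linarith [hcon.1]⟩
    · rintro ⟨w, hw, rfl⟩
      rw [Complex.mem_slitPlane_iff] at hw
      intro hcon
      have h2 : (1 - w).im = 0 ∧ 1 ≤ (1 - w).re := hcon
      simp only [Complex.sub_re, Complex.one_re, Complex.sub_im, Complex.one_im] at h2
      rcases hw with hw | hw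
      · linarith [h2.2]
      · exact hw (by linarith [h2.1])
  rw [h1]
  have h2 : IsPreconnected Complex.slitPlane :=
    (Complex.starConvex_one_slitPlane.isPathConnected Complex.one_mem_slitPlane).isConnected.2
  exact h2.image _ (by fun_prop)

theorem zero_mem_S : (0 : ℂ) ∈ S := by
  intro h
  have h2 : (0 : ℂ).im = 0 ∧ 1 ≤ (0 : ℂ).re := h
  simp at h2
  linarith

/-- a point of the closed domain over a point outside the slit is in the open domain -/
theorem mem_EE (hr : 2 ≤ r) {W : ℂ} (h : EC r W) (hz : ¬ Sl (Rr r W)) : W ∈ EE r := by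
  rcases h with h | h | h
  · exact h
  · exfalso
    obtain ⟨x, hx, he⟩ := CC_val hr h
    apply hz
    rw [he]
    exact ⟨Complex.ofReal_im x, by rw [Complex.ofReal_re]; exact hx.le⟩
  · exfalso
    obtain ⟨x, hx, he⟩ := CC_val hr h
    rw [Rr_conj] at he
    apply hz
    have h2 := congrArg (starRingEnd ℂ) he
    rw [Complex.conj_conj, Complex.conj_ofReal] at h2
    rw [h2]
    exact ⟨Complex.ofReal_im x, by rw [Complex.ofReal_re]; exact hx.le⟩

theorem ne_one {z : ℂ} (hz : z ∈ S) : z ≠ 1 := by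
  rintro rfl
  exact hz ⟨Complex.one_im, by rw [Complex.one_re]⟩

/-- local inverses with values in the domain -/
theorem exists_loc (hr : 2 ≤ r) {V : ℂ} (hV : V ∈ EE r) :
    ∃ p : ℂ → ℂ, ContinuousAt p (Rr r V) ∧ p (Rr r V) = V ∧
      (∀ᶠ z in 𝓝 (Rr r V), Rr r (p z) = z ∧ p z ∈ EE r) ∧ (∀ᶠ U in 𝓝 V, p (Rr r U) = U) := by
  obtain ⟨p, hp, hp1, hp2, hp3⟩ := Rr_local (r := r) (by omega) (ne_zero (EE_re hV))
    (ne_neg_one (EE_re hV))
  refine ⟨p, hp.continuousAt, hp1, hp2.and ?_, hp3⟩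
  have h1 : Tendsto p (𝓝 (Rr r V)) (𝓝 V) := by
    have := hp.continuousAt.tendsto
    rwa [hp1] at this
  exact h1.eventually ((EE_open hr).mem_nhds hV)

end Bij

theorem EE_surj (hr : 2 ≤ r) {z : ℂ} (hz : ¬ Sl z) : ∃ V ∈ EE r, Rr r V = z := by
  have hop : IsOpen {z : ℂ | ∃ V ∈ EE r, Rr r V = z} := by
    rw [isOpen_iff_mem_nhds]
    rintro _ ⟨V, hV, rfl⟩
    obtain ⟨p, -, -, hp, -⟩ := Bij.exists_loc hr hV
    filter_upwards [hp] with z hz
    exact ⟨p z, hz.2, hz.1⟩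
  have hne : (Bij.S ∩ {z : ℂ | ∃ V ∈ EE r, Rr r V = z}).Nonempty := by
    refine ⟨0, Bij.zero_mem_S, (r : ℂ), ?_, ?_⟩
    · refine ⟨?_, Or.inl ?_⟩
      · rw [Complex.natCast_re]
        exact_mod_cast (by omega : 0 < r)
      · exact Complex.natCast_im r
    · have h0 : (r : ℂ) ≠ 0 := Nat.cast_ne_zero.mpr (by omega)
      exact (Rr_eq_zero (by omega) h0).2 (Or.inl rfl)
  have hcl : closure {z : ℂ | ∃ V ∈ EE r, Rr r V = z} ∩ Bij.S ⊆
      {z : ℂ | ∃ V ∈ EE r, Rr r V = z} := by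
    rintro z ⟨hz1, hz2⟩
    obtain ⟨x, hx, hxz⟩ := mem_closure_iff_seq_limit.1 hz1
    choose V hV hVx using hx
    obtain ⟨W, φ, -, -, hW1, hW2⟩ := EC_compact hr (Bij.ne_one hz2) (V := V)
      (fun n => Or.inl (hV n)) (by simpa only [hVx] using hxz)
    exact ⟨W, Bij.mem_EE hr hW1 (by rw [hW2]; exact hz2), hW2⟩
  exact (Bij.isPreconnected_S.subset_of_closure_inter_subset hop hne hcl) hz

theorem EE_inj (hr : 2 ≤ r) : Set.InjOn (Rr r) (EE r) := by
  set B : Set ℂ := {z : ℂ | ∃ V ∈ EE r, ∃ V' ∈ EE r, V ≠ V' ∧ Rr r V = z ∧ Rr r V' = z} with hB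
  have hop : IsOpen B := by
    rw [isOpen_iff_mem_nhds]
    rintro z ⟨V, hV, V', hV', hne, hz, hz'⟩
    obtain ⟨p, hpc, hp1, hp, -⟩ := Bij.exists_loc hr hV
    obtain ⟨p', hpc', hp1', hp', -⟩ := Bij.exists_loc hr hV'
    rw [hz] at hpc hp1 hp
    rw [hz'] at hpc' hp1' hp'
    have h3 : ∀ᶠ w in 𝓝 z, p w ≠ p' w := by
      have h4 : Tendsto (fun w => (p w, p' w)) (𝓝 z) (𝓝 (V, V')) := by
        have h5 := hpc.tendsto.prodMk_nhds hpc'.tendsto
        rwa [hp1, hp1'] at h5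
      have h6 : {q : ℂ × ℂ | q.1 ≠ q.2} ∈ 𝓝 (V, V') :=
        (isOpen_ne_fun continuous_fst continuous_snd).mem_nhds hne
      exact h4.eventually h6
    filter_upwards [hp, hp', h3] with w h1 h2 h3
    exact ⟨p w, h1.2, p' w, h2.2, h3, h1.1, h2.1⟩
  have hcl : closure B ∩ Bij.S ⊆ B := by
    rintro z ⟨hz1, hz2⟩
    obtain ⟨x, hx, hxz⟩ := mem_closure_iff_seq_limit.1 hz1
    choose V hV V' hV' hne hVx hVx' using hx
    obtain ⟨W, φ, hφ, hφW, hW1, hW2⟩ := EC_compact hr (Bij.ne_one hz2) (V := V)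
      (fun n => Or.inl (hV n)) (by simpa only [hVx] using hxz)
    obtain ⟨W', ψ, hψ, hψW, hW1', hW2'⟩ := EC_compact hr (Bij.ne_one hz2) (V := V' ∘ φ)
      (fun n => Or.inl (hV' _)) (by
        have h1 := hxz.comp hφ.tendsto_atTop
        refine h1.congr fun n => ?_
        simp only [Function.comp_apply, hVx'])
    have hWE := Bij.mem_EE hr hW1 (by rw [hW2]; exact hz2)
    have hWE' := Bij.mem_EE hr hW1' (by rw [hW2']; exact hz2)
    refine ⟨W, hWE, W', hWE', ?_, hW2, hW2'⟩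
    intro he
    obtain ⟨p, -, -, -, hp⟩ := Bij.exists_loc hr hWE
    have h1 : ∀ᶠ n in atTop, p (Rr r (V (φ (ψ n)))) = V (φ (ψ n)) :=
      (hφW.comp hψ.tendsto_atTop).eventually hp
    have h2 : ∀ᶠ n in atTop, p (Rr r (V' (φ (ψ n)))) = V' (φ (ψ n)) := by
      rw [← he] at hψW
      exact hψW.eventually hp
    obtain ⟨n, hn1, hn2⟩ := (h1.and h2).exists
    refine hne (φ (ψ n)) ?_
    rw [← hn1, ← hn2, hVx, hVx']
  have h0 : (0 : ℂ) ∉ B := by
    rintro ⟨V, hV, V', hV', hne, hz, hz'⟩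
    have key : ∀ U ∈ EE r, Rr r U = 0 → U = r := by
      intro U hU h0
      rcases (Rr_eq_zero (by omega) (Bij.ne_zero (Bij.EE_re hU))).1 h0 with h | h
      · exact h
      · exact absurd h (Bij.ne_neg_one (Bij.EE_re hU))
    exact hne ((key V hV hz).trans (key V' hV' hz').symm)
  intro V hV V' hV' he
  by_contra hne
  have hmem : Rr r V ∈ B := ⟨V, hV, V', hV', hne, rfl, he.symm⟩
  exact h0 (Bij.isPreconnected_S.subset_of_closure_inter_subset hop
    ⟨Rr r V, EE_not_slit hr hV, hmem⟩ hcl Bij.zero_mem_S)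

namespace Bij

/-- the sequence `x + i / (n + 1)` -/
theorem tendsto_seq (x : ℝ) :
    Tendsto (fun n : ℕ => (x : ℂ) + ((1 / ((n : ℝ) + 1) : ℝ) : ℂ) * Complex.I) atTop
      (𝓝 (x : ℂ)) := by
  have h1 : Tendsto (fun n : ℕ => ((1 / ((n : ℝ) + 1) : ℝ) : ℂ)) atTop (𝓝 ((0 : ℝ) : ℂ)) :=
    (Complex.continuous_ofReal.tendsto 0).comp tendsto_one_div_add_atTop_nhds_zero_nat
  have h2 := (h1.mul_const Complex.I).const_add (x : ℂ)
  simpa using h2

theorem seq_im (x : ℝ) (n : ℕ) :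
    0 < ((x : ℂ) + ((1 / ((n : ℝ) + 1) : ℝ) : ℂ) * Complex.I).im := by
  have h1 : ((x : ℂ) + ((1 / ((n : ℝ) + 1) : ℝ) : ℂ) * Complex.I).im = 1 / ((n : ℝ) + 1) := by
    simp only [Complex.add_im, Complex.ofReal_im, Complex.mul_im, Complex.ofReal_re, Complex.I_im,
      Complex.I_re, mul_one, mul_zero, zero_add, add_zero]
  rw [h1]
  positivity

end Bij

theorem CC_surj (hr : 2 ≤ r) {x : ℝ} (hx : 1 < x) : ∃ V ∈ CC r, Rr r V = x := by
  have hS : ∀ n : ℕ, ¬ Sl ((x : ℂ) + ((1 / ((n : ℝ) + 1) : ℝ) : ℂ) * Complex.I) := fun n h =>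
    (Bij.seq_im x n).ne' h.1
  choose V hV hVx using fun n => EE_surj hr (hS n)
  have hx1 : (x : ℂ) ≠ 1 := by
    intro h
    have : x = 1 := by exact_mod_cast h
    linarith
  obtain ⟨W, φ, -, -, hW1, hW2⟩ := EC_compact hr hx1 (V := V) (fun n => Or.inl (hV n))
    (by simpa only [hVx] using Bij.tendsto_seq x)
  have hsl : Sl (x : ℂ) := ⟨Complex.ofReal_im x, by rw [Complex.ofReal_re]; exact hx.le⟩
  rcases hW1 with h | h | h
  · exact absurd hsl (hW2 ▸ EE_not_slit hr h)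
  · exact ⟨W, h, hW2⟩
  · refine ⟨_, h, ?_⟩
    rw [Rr_conj, hW2, Complex.conj_ofReal]

theorem CC_inj (hr : 2 ≤ r) : Set.InjOn (Rr r) (CC r) := by
  intro V hV V' hV' he
  by_contra hne
  obtain ⟨x, hx, hVx⟩ := CC_val hr hV
  have hre : 0 < V.re := hV.1
  have hre' : 0 < V'.re := hV'.1
  obtain ⟨p, hp, hp1, hp2, -⟩ := Rr_local (r := r) (by omega) (Bij.ne_zero hre)
    (Bij.ne_neg_one hre)
  obtain ⟨p', hp', hp1', hp2', -⟩ := Rr_local (r := r) (by omega) (Bij.ne_zero hre')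
    (Bij.ne_neg_one hre')
  have he' : Rr r V' = x := by
    have : Rr r V = Rr r V' := he
    rw [← this, hVx]
  rw [hVx] at hp hp1 hp2
  rw [he'] at hp' hp1' hp2'
  have hc : Tendsto p (𝓝 (x : ℂ)) (𝓝 V) := by
    have := hp.continuousAt.tendsto
    rwa [hp1] at this
  have hc' : Tendsto p' (𝓝 (x : ℂ)) (𝓝 V') := by
    have := hp'.continuousAt.tendsto
    rwa [hp1'] at this
  have h3 : ∀ᶠ w in 𝓝 (x : ℂ), p w ≠ p' w := by
    have h6 : {q : ℂ × ℂ | q.1 ≠ q.2} ∈ 𝓝 (V, V') :=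
      (isOpen_ne_fun continuous_fst continuous_snd).mem_nhds hne
    exact (hc.prodMk_nhds hc').eventually h6
  have h4 : ∀ᶠ w in 𝓝 (x : ℂ), 0 < w.im → p w ∈ EE r := by
    filter_upwards [hc.eventually (CC_near hr hV), hp2] with w h1 h2 h5
    rw [h2] at h1
    exact h1 h5
  have h4' : ∀ᶠ w in 𝓝 (x : ℂ), 0 < w.im → p' w ∈ EE r := by
    filter_upwards [hc'.eventually (CC_near hr hV'), hp2'] with w h1 h2 h5
    rw [h2] at h1
    exact h1 h5
  obtain ⟨n, hn1, hn2, hn3, hn4, hn5⟩ := ((Bij.tendsto_seq x).eventually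
    (h3.and (h4.and (h4'.and (hp2.and hp2'))))).exists
  refine hn1 (EE_inj hr (hn2 (Bij.seq_im x n)) (hn3 (Bij.seq_im x n)) ?_)
  rw [hn4, hn5]

end Pool.Agent.MP_ae5b4e_an_HYP
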