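import Mathlib
import Pool.Agent.Lib.MP_ae5b4e_an_HYP.Defs
import Pool.Agent.Lib.MP_ae5b4e_an_HYP.Rat
import Pool.Agent.Lib.MP_ae5b4e_an_HYP.Dom
import Pool.Agent.Lib.MP_ae5b4e_an_HYP.Bij

/-!
# MP_ae5b4e_an, project HYP, module H4: the inverse function
-/

set_option autoImplicit false

noncomputable section

namespace Pool.Agent.MP_ae5b4e_an_HYP

open Filter Topology Set Metric
open scoped ComplexConjugate

variable {r : ℕ}

namespace InvAux

lemma slit_eq {z : ℂ} (h : Sl z) : z = ((z.re : ℝ) : ℂ) := by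
  apply Complex.ext
  · simp
  · simp [h.1]

lemma slit_gt {z : ℂ} (h : Sl z) (h1 : z ≠ 1) : 1 < z.re := by
  rcases lt_or_eq_of_le h.2 with h2 | h2
  · exact h2
  · exfalso
    apply h1
    rw [slit_eq h, ← h2]
    simp

/-- the inverse -/
def gf (hr : 2 ≤ r) (z : ℂ) : ℂ := by
  classical
  exact if h : ¬ Sl z then (EE_surj hr h).choose
    else if h' : 1 < z.re then (CC_surj hr h').choose else 0

lemma gf_mem (hr : 2 ≤ r) {z : ℂ} (h : ¬ Sl z) : gf hr z ∈ EE r ∧ Rr r (gf hr z) = z := by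
  unfold gf
  rw [dif_pos h]
  exact (EE_surj hr h).choose_spec

lemma gf_slit (hr : 2 ≤ r) {x : ℝ} (hx : 1 < x) : gf hr x ∈ CC r ∧ Rr r (gf hr x) = x := by
  have h1 : ¬ ¬ Sl (x : ℂ) := by
    rw [not_not]
    exact ⟨by simp, by simpa using hx.le⟩
  have h2 : 1 < ((x : ℂ)).re := by simpa using hx
  unfold gf
  rw [dif_neg h1, dif_pos h2]
  exact (CC_surj hr h2).choose_spec

lemma gf_uniq (hr : 2 ≤ r) {V : ℂ} (hV : V ∈ EE r) : gf hr (Rr r V) = V := by
  have h1 := gf_mem hr (EE_not_slit hr hV)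
  exact EE_inj hr h1.1 hV h1.2

lemma EE_re {V : ℂ} (h : V ∈ EE r) : 0 < V.re := h.1

lemma ne_zero_of_re {V : ℂ} (h : 0 < V.re) : V ≠ 0 := by
  rintro rfl
  simp at h

lemma ne_neg_of_re {V : ℂ} (h : 0 < V.re) : V ≠ -1 := by
  rintro rfl
  simp at h
  linarith

lemma gf_an (hr : 2 ≤ r) {z : ℂ} (h : ¬ Sl z) : AnalyticAt ℂ (gf hr) z := by
  obtain ⟨hm, hz⟩ := gf_mem hr h
  have hre := EE_re hm
  obtain ⟨p, hp, hp0, hp1, hp2⟩ := Rr_local (r := r) (by omega) (ne_zero_of_re hre)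
    (ne_neg_of_re hre)
  rw [hz] at hp hp0 hp1
  apply hp.congr
  have h1 : ∀ᶠ z' in 𝓝 z, p z' ∈ EE r := by
    apply hp.continuousAt.eventually
    rw [hp0]
    exact (EE_open hr).mem_nhds hm
  filter_upwards [h1, hp1] with z' h2 h3
  have h4 := gf_uniq hr h2
  rw [h3] at h4
  exact h4.symm

lemma gf_loc (hr : 2 ≤ r) {x : ℝ} (hx : 1 < x) : ∃ p q : ℂ → ℂ, AnalyticAt ℂ p x ∧
    AnalyticAt ℂ q x ∧ p x = gf hr x ∧ q x = (starRingEnd ℂ) (gf hr x) ∧
    (∀ᶠ z in 𝓝 (x:ℂ), (0 ≤ z.im → gf hr z = p z) ∧ (z.im < 0 → gf hr z = q z)) ∧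
    ∀ᶠ t : ℝ in 𝓝 x, q t = (starRingEnd ℂ) (p t) := by
  obtain ⟨hm, hz⟩ := gf_slit hr hx
  have hre : 0 < (gf hr x).re := hm.1
  have hre' : 0 < (conj (gf hr x)).re := by simpa using hre
  obtain ⟨p, hp, hp0, hp1, hp2⟩ := Rr_local (r := r) (by omega) (ne_zero_of_re hre)
    (ne_neg_of_re hre)
  obtain ⟨q, hq, hq0, hq1, hq2⟩ := Rr_local (r := r) (by omega) (ne_zero_of_re hre')
    (ne_neg_of_re hre')
  rw [hz] at hp hp0 hp1
  have hcx : conj (x : ℂ) = x := Complex.conj_ofReal x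
  rw [Rr_conj, hz, hcx] at hq hq0 hq1
  -- continuity of conj p conj
  have hconj : Tendsto (fun z : ℂ => conj z) (𝓝 (x : ℂ)) (𝓝 (x : ℂ)) := by
    have := Complex.continuous_conj.tendsto (x : ℂ)
    rw [hcx] at this
    exact this
  have hpc : Tendsto p (𝓝 (x : ℂ)) (𝓝 (gf hr x)) := by
    have := hp.continuousAt.tendsto
    rw [hp0] at this
    exact this
  have hcpc : Tendsto (fun z : ℂ => conj (p (conj z))) (𝓝 (x : ℂ)) (𝓝 (conj (gf hr x))) :=
    (Complex.continuous_conj.tendsto (gf hr x)).comp (hpc.comp hconj)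
  have hRc : ∀ᶠ z in 𝓝 (x : ℂ), Rr r (conj (p (conj z))) = z := by
    filter_upwards [hconj.eventually hp1] with z h1
    rw [Rr_conj, h1, Complex.conj_conj]
  have hqc : ∀ᶠ z in 𝓝 (x : ℂ), q z = conj (p (conj z)) := by
    filter_upwards [hRc, hcpc.eventually hq2] with z h1 h2
    rw [h1] at h2
    exact h2
  refine ⟨p, q, hp, hq, hp0, hq0, ?_, ?_⟩
  · have e1 : ∀ᶠ z in 𝓝 (x : ℂ), 0 < (Rr r (p z)).im → p z ∈ EE r :=
      hpc.eventually (CC_near hr hm)
    have e2 : ∀ᶠ z in 𝓝 (x : ℂ), (Rr r (p z)).im = 0 → p z ∈ CC r :=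
      hpc.eventually (CC_near' hr hm)
    have e3 : ∀ᶠ z in 𝓝 (x : ℂ), 1 < z.re := by
      apply Complex.continuous_re.continuousAt.eventually
      simpa using lt_mem_nhds hx
    filter_upwards [e1, e2, e3, hp1, hqc, hRc, hconj.eventually e1, hconj.eventually hp1] with
      z f1 f2 f3 f4 f5 f6 f7 f8
    rw [f4] at f1 f2
    rw [f8] at f7
    constructor
    · intro hi
      rcases lt_or_eq_of_le hi with h | h
      · have h1 := gf_uniq hr (f1 h)
        rw [f4] at h1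
        exact h1
      · have hzr : z = ((z.re : ℝ) : ℂ) := by
          apply Complex.ext
          · simp
          · simp [← h]
        have h1 := f2 h.symm
        have h2 := gf_slit hr f3
        rw [← hzr] at h2
        apply CC_inj hr h2.1 h1
        rw [h2.2, f4]
    · intro hi
      have h1 : 0 < (conj z).im := by
        rw [Complex.conj_im]
        linarith
      have h2 := gf_uniq hr (EE_conj (f7 h1))
      rw [f6] at h2
      rw [h2, f5]
  · have h1 : Tendsto (fun t : ℝ => (t : ℂ)) (𝓝 x) (𝓝 (x : ℂ)) :=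
      Complex.continuous_ofReal.tendsto x
    filter_upwards [h1.eventually hqc] with t ht
    rw [ht, Complex.conj_ofReal]

lemma cluster {g : ℂ → ℂ} {l : Filter ℂ} {R : ℝ} (h : ∃ᶠ z in l, ‖g z‖ ≤ R) :
    ∃ (W : ℂ) (U : Ultrafilter ℂ), (U : Filter ℂ) ≤ l ∧ Tendsto g U (𝓝 W) ∧
      ∀ᶠ z in (U : Filter ℂ), ‖g z‖ ≤ R := by
  have hne : (l ⊓ 𝓟 {z | ‖g z‖ ≤ R}).NeBot := by
    rw [← Filter.frequently_mem_iff_neBot]
    exact h
  have h1 : ∀ᶠ z in l ⊓ 𝓟 {z | ‖g z‖ ≤ R}, ‖g z‖ ≤ R := by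
    filter_upwards [mem_inf_of_right (mem_principal_self _)] with z hz
    exact hz
  have h2 : map g (l ⊓ 𝓟 {z | ‖g z‖ ≤ R}) ≤ 𝓟 (closedBall (0 : ℂ) R) := by
    rw [le_principal_iff, mem_map]
    filter_upwards [h1] with z hz
    simpa using hz
  obtain ⟨W, -, hW⟩ := (isCompact_closedBall (0 : ℂ) R) h2
  have hW' : MapClusterPt W (l ⊓ 𝓟 {z | ‖g z‖ ≤ R}) g := hW
  rw [mapClusterPt_iff_ultrafilter] at hW'
  obtain ⟨U, hU, hU2⟩ := hW'
  exact ⟨W, U, hU.trans inf_le_left, hU2, hU h1⟩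

lemma gf_EC (hr : 2 ≤ r) {z : ℂ} (hz : z ≠ 1) : EC r (gf hr z) ∧ Rr r (gf hr z) = z := by
  by_cases h : Sl z
  · have h1 := gf_slit hr (slit_gt h hz)
    rw [← slit_eq h] at h1
    exact ⟨Or.inr (Or.inl h1.1), h1.2⟩
  · have h1 := gf_mem hr h
    exact ⟨Or.inl h1.1, h1.2⟩

lemma EC_ne_one (hr : 2 ≤ r) {W : ℂ} (h : EC r W) : Rr r W ≠ 1 := by
  intro h1
  rcases h with h | h | h
  · apply EE_not_slit hr h
    rw [h1]
    exact ⟨by simp, by simp⟩
  · obtain ⟨x, hx, hx2⟩ := CC_val hr h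
    rw [h1] at hx2
    have : (1 : ℝ) = x := by exact_mod_cast hx2
    linarith
  · obtain ⟨x, hx, hx2⟩ := CC_val hr h
    rw [Rr_conj, h1, map_one] at hx2
    have : (1 : ℝ) = x := by exact_mod_cast hx2
    linarith

lemma gf_inf (hr : 2 ≤ r) : Tendsto (gf hr) (𝓝[≠] 1) (Bornology.cobounded ℂ) := by
  rw [← tendsto_norm_atTop_iff_cobounded, Filter.tendsto_atTop]
  intro R
  by_contra hcon
  have h1 : ∃ᶠ z in 𝓝[≠] (1:ℂ), ‖gf hr z‖ ≤ R := by
    intro h2
    apply hcon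
    filter_upwards [h2] with z hz
    exact (not_le.mp hz).le
  obtain ⟨W, U, hU, hW, -⟩ := cluster h1
  have hUne : (U : Filter ℂ).NeBot := U.neBot
  have h2 : ∀ᶠ z in (U : Filter ℂ), z ≠ 1 := hU self_mem_nhdsWithin
  have h3 : ∀ᶠ z in (U : Filter ℂ), EC r (gf hr z) := by
    filter_upwards [h2] with z hz
    exact (gf_EC hr hz).1
  have h4 : Tendsto (fun z => Rr r (gf hr z)) U (𝓝 1) := by
    have h5 : Tendsto (fun z : ℂ => z) U (𝓝 1) := (hU.trans nhdsWithin_le_nhds)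
    refine h5.congr' ?_
    filter_upwards [h2] with z hz
    exact (gf_EC hr hz).2.symm
  by_cases hW0 : W = 0
  · subst hW0
    have h5 : Tendsto (gf hr) U (𝓝[≠] 0) := by
      rw [tendsto_nhdsWithin_iff]
      refine ⟨hW, ?_⟩
      filter_upwards [h3] with z hz
      exact ne_zero_of_re (EC_re hz)
    have h6 := (Rr_zero (r := r) (by omega)).comp h5
    exact h4.not_tendsto (disjoint_nhds_cobounded 1) h6
  · have h5 := EC_lim hr h3 hW hW0
    have h6 : Tendsto (fun z => Rr r (gf hr z)) U (𝓝 (Rr r W)) :=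
      (Rr_analytic (r := r) hW0).continuousAt.tendsto.comp hW
    exact EC_ne_one hr h5 (tendsto_nhds_unique h6 h4)

lemma gf_zero (hr : 2 ≤ r) : Tendsto (gf hr) (Bornology.cobounded ℂ) (𝓝 0) := by
  rw [tendsto_zero_iff_norm_tendsto_zero]
  rw [Metric.tendsto_nhds]
  intro ε hε
  by_contra hcon
  have h1 : ∃ᶠ z in Bornology.cobounded ℂ, ε ≤ ‖gf hr z‖ := by
    intro h2
    apply hcon
    filter_upwards [h2] with z hz
    rw [Real.dist_eq, sub_zero, abs_norm]
    exact not_le.mp hz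
  have h1ne : (Bornology.cobounded ℂ ⊓ 𝓟 {z | ε ≤ ‖gf hr z‖}).NeBot := by
    rw [← Filter.frequently_mem_iff_neBot]
    exact h1
  set l := Bornology.cobounded ℂ ⊓ 𝓟 {z | ε ≤ ‖gf hr z‖} with hl
  have hlε : ∀ᶠ z in l, ε ≤ ‖gf hr z‖ := by
    filter_upwards [mem_inf_of_right (mem_principal_self _)] with z hz
    exact hz
  have hl1 : l ≤ Bornology.cobounded ℂ := inf_le_left
  have hne1 : ∀ᶠ z in l, z ≠ 1 := by
    apply hl1
    have : ∀ᶠ z : ℂ in Bornology.cobounded ℂ, 1 < ‖z‖ :=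
      (tendsto_norm_cobounded_atTop (E := ℂ)).eventually_gt_atTop 1
    filter_upwards [this] with z hz h
    rw [h, norm_one] at hz
    exact lt_irrefl _ hz
  by_cases hb : ∃ R : ℝ, ∃ᶠ z in l, ‖gf hr z‖ ≤ R
  · obtain ⟨R, hR⟩ := hb
    obtain ⟨W, U, hU, hW, -⟩ := cluster hR
    have hUne : (U : Filter ℂ).NeBot := U.neBot
    have hWn : ε ≤ ‖W‖ := ge_of_tendsto hW.norm (hU hlε)
    have hW0 : W ≠ 0 := by
      rintro rfl
      rw [norm_zero] at hWn
      linarith
    have h6 : Tendsto (fun z => Rr r (gf hr z)) U (𝓝 (Rr r W)) :=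
      (Rr_analytic (r := r) hW0).continuousAt.tendsto.comp hW
    have h7 : Tendsto (fun z => Rr r (gf hr z)) U (Bornology.cobounded ℂ) := by
      have h5 : Tendsto (fun z : ℂ => z) U (Bornology.cobounded ℂ) := hU.trans hl1
      refine h5.congr' ?_
      filter_upwards [hU hne1] with z hz
      exact (gf_EC hr hz).2.symm
    exact h6.not_tendsto (disjoint_nhds_cobounded _) h7
  · push Not at hb
    have h5 : Tendsto (gf hr) l (Bornology.cobounded ℂ) := by
      rw [← tendsto_norm_atTop_iff_cobounded, Filter.tendsto_atTop]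
      intro R
      filter_upwards [hb R] with z hz
      exact hz.le
    have h6 : Tendsto (fun z => Rr r (gf hr z)) l (𝓝 1) := (Rr_inf (r := r)).comp h5
    have h7 : Tendsto (fun z => Rr r (gf hr z)) l (Bornology.cobounded ℂ) := by
      have h5 : Tendsto (fun z : ℂ => z) l (Bornology.cobounded ℂ) := hl1
      refine h5.congr' ?_
      filter_upwards [hne1] with z hz
      exact (gf_EC hr hz).2.symm
    exact h6.not_tendsto (disjoint_nhds_cobounded _) h7

lemma real_cont (hr : 2 ≤ r) {x : ℝ} (hx : 1 < x) :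
    ContinuousAt (fun t : ℝ => (gf hr t).re) x := by
  obtain ⟨p, q, hp, hq, hp0, hq0, hpq, -⟩ := gf_loc hr hx
  have h1 : Tendsto (fun t : ℝ => (t : ℂ)) (𝓝 x) (𝓝 (x : ℂ)) :=
    Complex.continuous_ofReal.tendsto x
  have h2 : ContinuousAt (fun t : ℝ => (p t).re) x := by
    have h3 : ContinuousAt (fun t : ℝ => p t) x :=
      ContinuousAt.comp (g := p) hp.continuousAt h1
    exact Complex.continuous_re.continuousAt.comp h3
  refine h2.congr ?_
  filter_upwards [h1.eventually hpq] with t ht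
  rw [ht.1 (by simp)]

lemma gf_mono (hr : 2 ≤ r) (x t₁ t₂ : ℝ) (h1 : 1 < t₁) (h12 : t₁ ≤ t₂)
    (hx : x < (gf hr t₂).re) : x < (gf hr t₁).re := by
  by_contra hcon
  push Not at hcon
  have hlt : (gf hr t₁).re < (gf hr t₂).re := lt_of_le_of_lt hcon hx
  have hne : t₁ ≠ t₂ := by
    rintro rfl
    exact lt_irrefl _ hlt
  have ht : t₁ < t₂ := lt_of_le_of_ne h12 hne
  have hpos : 0 < (gf hr t₁).re := (gf_slit hr h1).1.1
  -- the values tend to zero
  have hz : Tendsto (fun t : ℝ => (gf hr t).re) atTop (𝓝 0) := by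
    have h2 : Tendsto (fun t : ℝ => (t : ℂ)) atTop (Bornology.cobounded ℂ) := by
      rw [← tendsto_norm_atTop_iff_cobounded]
      simp only [Complex.norm_real, Real.norm_eq_abs]
      exact tendsto_abs_atTop_atTop
    have h3 := (gf_zero hr).comp h2
    have h4 : Tendsto (fun t : ℝ => (gf hr t).re) atTop (𝓝 (0 : ℂ).re) :=
      (Complex.continuous_re.tendsto (0 : ℂ)).comp h3
    rw [Complex.zero_re] at h4
    exact h4
  obtain ⟨t₃, ht3, ht3'⟩ := ((hz.eventually (gt_mem_nhds hpos)).and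
    (eventually_gt_atTop t₂)).exists
  have hc : ContinuousOn (fun t : ℝ => (gf hr t).re) (Set.Icc t₂ t₃) := by
    intro t htt
    exact (real_cont hr (by linarith [htt.1])).continuousWithinAt
  obtain ⟨t, htm, hte⟩ := intermediate_value_Icc' ht3'.le hc ⟨ht3.le, hlt.le⟩
  have h1t : 1 < t := by linarith [htm.1]
  have h5 : gf hr t = gf hr t₁ :=
    CC_inj_re hr (gf_slit hr h1t).1 (gf_slit hr h1).1 hte
  have h6 : (t : ℂ) = (t₁ : ℂ) := by
    rw [← (gf_slit hr h1t).2, ← (gf_slit hr h1).2, h5]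
  have h7 : t = t₁ := by exact_mod_cast h6
  linarith [htm.1]

end InvAux

open InvAux

theorem exists_inv (hr : 2 ≤ r) : ∃ g, Inv r g := by
  refine ⟨gf hr, ?_⟩
  exact
    { mem := fun z hz => gf_mem hr hz
      slit := fun x hx => gf_slit hr hx
      uniq := fun V hV => gf_uniq hr hV
      an := fun z hz => gf_an hr hz
      loc := fun x hx => gf_loc hr hx
      inf := gf_inf hr
      zero := gf_zero hr
      mono := gf_mono hr }

theorem inv_cont (hr : 2 ≤ r) {g : ℂ → ℂ} (hg : Inv r g) {z : ℂ} (hz : z ≠ 1) :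
    ContinuousAt (fun z => (g z).re) z := by
  by_cases h : Sl z
  · obtain ⟨p, q, hp, hq, hp0, hq0, hpq, -⟩ := hg.loc z.re (slit_gt h hz)
    rw [← slit_eq h] at hp hq hp0 hq0 hpq
    have h1 : Tendsto (fun z => (p z).re) (𝓝 z) (𝓝 (g z).re) := by
      have := (Complex.continuous_re.tendsto (p z)).comp hp.continuousAt.tendsto
      rw [hp0] at this
      exact this
    have h2 : Tendsto (fun z => (q z).re) (𝓝 z) (𝓝 (g z).re) := by
      have := (Complex.continuous_re.tendsto (q z)).comp hq.continuousAt.tendsto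
      rw [hq0, Complex.conj_re] at this
      exact this
    intro U hU
    rw [mem_map]
    filter_upwards [h1 hU, h2 hU, hpq] with w f1 f2 f3
    rcases le_or_gt 0 w.im with h3 | h3
    · have := f3.1 h3
      rw [mem_preimage, this]
      exact f1
    · have := f3.2 h3
      rw [mem_preimage, this]
      exact f2
  · exact Complex.continuous_re.continuousAt.comp (hg.an z h).continuousAt

theorem inv_EC {g : ℂ → ℂ} (hg : Inv r g) {z : ℂ} (hz : z ≠ 1) : EC r (g z) ∧ Rr r (g z) = z := by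
  by_cases h : Sl z
  · have h1 := hg.slit z.re (slit_gt h hz)
    rw [← slit_eq h] at h1
    exact ⟨Or.inr (Or.inl h1.1), h1.2⟩
  · have h1 := hg.mem z h
    exact ⟨Or.inl h1.1, h1.2⟩

/-- the real part depends only on the value -/
theorem inv_re (hr : 2 ≤ r) {g : ℂ → ℂ} (hg : Inv r g) {V : ℂ} (hV : EC r V) :
    (g (Rr r V)).re = V.re := by
  rcases hV with h | h | h
  · rw [hg.uniq V h]
  · obtain ⟨x, hx, hx2⟩ := CC_val hr h
    have h1 := hg.slit x hx
    have h2 : g x = V := CC_inj hr h1.1 h (by rw [h1.2, hx2])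
    rw [hx2, h2]
  · obtain ⟨x, hx, hx2⟩ := CC_val hr h
    have h1 := hg.slit x hx
    have h2 : g x = conj V := CC_inj hr h1.1 h (by rw [h1.2, hx2])
    have h3 : Rr r V = x := by
      have h4 : conj (Rr r (conj V)) = conj (x : ℂ) := by rw [hx2]
      rw [← Rr_conj, Complex.conj_conj, Complex.conj_ofReal] at h4
      exact h4
    rw [h3, h2, Complex.conj_re]

end Pool.Agent.MP_ae5b4e_an_HYP
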