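import Mathlib
import Pool.Agent.Lib.MP_ae5b4e_an_HYP.Defs
import Pool.Agent.Lib.MP_ae5b4e_an_HYP.Rat
import Pool.Agent.Lib.MP_ae5b4e_an_HYP.Harg
import Pool.Agent.Lib.MP_ae5b4e_an_HYP.Dom
import Pool.Agent.Lib.MP_ae5b4e_an_HYP.Inv

/-! # MP_ae5b4e_an, project HYP, module H5: the inequality -/

set_option autoImplicit false

noncomputable section

namespace Pool.Agent.MP_ae5b4e_an_HYP

open Filter Topology Set Metric
open scoped ComplexConjugate

namespace Ineq

/-! ### real estimates -/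

theorem arctan_le_id {x : ℝ} (hx : 0 ≤ x) : Real.arctan x ≤ x := by
  rcases hx.eq_or_lt with h | h
  · rw [← h, Real.arctan_zero]
  · have h1 : 0 < Real.arctan x := Real.arctan_pos.2 h
    have h2 := Real.lt_tan h1 (Real.arctan_lt_pi_div_two x)
    rw [Real.tan_arctan] at h2
    exact h2.le

theorem arctan_le_near_one {y : ℝ} (hy0 : 0 ≤ y) (hy : y ≤ 1) :
    Real.arctan y ≤ Real.pi / 4 - (1 - y) / 2 := by
  have h := (convex_Icc y 1).mul_sub_le_image_sub_of_le_deriv (f := Real.arctan) (C := 1 / 2)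
    Real.continuous_arctan.continuousOn (Real.differentiable_arctan.differentiableOn) (by
      intro x hx
      rw [interior_Icc] at hx
      rw [Real.deriv_arctan]
      have h1 : x ^ 2 ≤ 1 := by nlinarith [hx.1, hx.2]
      show 1 / 2 ≤ 1 / (1 + x ^ 2)
      exact one_div_le_one_div_of_le (by positivity) (by linarith))
    y ⟨le_refl _, hy⟩ 1 ⟨hy, le_refl _⟩ hy
  rw [Real.arctan_one] at h
  linarith

/-- the difference of the two angles -/
theorem beta_eq {w Y : ℝ} (hw : 1 < w) (hY : 0 < Y) :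
    Real.arctan (w / Y) - Real.arctan ((w - 1) / Y) =
      Real.arctan (Y / (Y ^ 2 + w * (w - 1))) := by
  have h1 : (w / Y) * (-((w - 1) / Y)) < 1 := by
    have : 0 ≤ (w / Y) * ((w - 1) / Y) := by
      have : 0 ≤ w - 1 := by linarith
      positivity
    linarith [mul_neg (w / Y) ((w - 1) / Y)]
  have h2 := Real.arctan_add h1
  rw [Real.arctan_neg] at h2
  rw [sub_eq_add_neg, h2]
  congr 1
  have hc : 0 < w * (w - 1) := mul_pos (by linarith) (by linarith)
  have h3 : 1 - w / Y * -((w - 1) / Y) = (Y ^ 2 + w * (w - 1)) / Y ^ 2 := by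
    field_simp
    ring
  rw [h3]
  have h4 : w / Y + -((w - 1) / Y) = 1 / Y := by
    field_simp
    ring
  rw [h4]
  have h5 : Y ^ 2 + w * (w - 1) ≠ 0 := by positivity
  field_simp

/-- the sum of the angles at the vertex is less than a full turn -/
theorem beta_lt {r : ℕ} {w Y : ℝ} (hw : 13 / 10 ≤ w) (hY : 0 < Y) (hr : 3 ≤ r)
    (h : r ≤ 9 ∨ (r:ℝ) ^ 2 / 157 ≤ w * (w - 1)) :
    r * (Real.arctan (w / Y) - Real.arctan ((w - 1) / Y)) < 2 * Real.pi := by
  have hrr : (3:ℝ) ≤ r := by exact_mod_cast hr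
  rw [beta_eq (by linarith) hY]
  set c := w * (w - 1) with hc
  have hc1 : 39 / 100 ≤ c := by rw [hc]; nlinarith
  have hpi := Real.pi_gt_d2
  rcases h with h | h
  · have h9 : (r:ℝ) ≤ 9 := by exact_mod_cast h
    have hy : Y / (Y ^ 2 + c) ≤ 8007 / 10000 := by
      rw [div_le_iff₀ (by positivity)]
      nlinarith [sq_nonneg (Y - 6244 / 10000), hc1]
    have hy0 : 0 ≤ Y / (Y ^ 2 + c) := by positivity
    have h1 : Real.arctan (Y / (Y ^ 2 + c)) ≤ Real.arctan (8007 / 10000) :=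
      Real.arctan_mono hy
    have h2 := arctan_le_near_one (y := 8007 / 10000) (by norm_num) (by norm_num)
    have h3 : 0 ≤ Real.arctan (Y / (Y ^ 2 + c)) := Real.arctan_nonneg.2 hy0
    have hpi2 := Real.pi_lt_d2
    calc (r:ℝ) * Real.arctan (Y / (Y ^ 2 + c))
        ≤ 9 * Real.arctan (Y / (Y ^ 2 + c)) := mul_le_mul_of_nonneg_right h9 h3
      _ ≤ 9 * (Real.pi / 4 - (1 - 8007 / 10000) / 2) := by
          apply mul_le_mul_of_nonneg_left (h1.trans h2) (by norm_num)
      _ < 2 * Real.pi := by nlinarith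
  · have hy0 : 0 ≤ Y / (Y ^ 2 + c) := by positivity
    have h1 := arctan_le_id hy0
    calc (r:ℝ) * Real.arctan (Y / (Y ^ 2 + c)) ≤ r * (Y / (Y ^ 2 + c)) :=
          mul_le_mul_of_nonneg_left h1 (by positivity)
      _ = (r * Y) / (Y ^ 2 + c) := by ring
      _ < 2 * Real.pi := by
          rw [div_lt_iff₀ (by positivity)]
          have h2 : (r:ℝ) * Y < 628 / 100 * (Y ^ 2 + c) := by
            have h3 : (r:ℝ) ^ 2 / 157 * (628 / 100) = 4 / 100 * (r:ℝ) ^ 2 := by ring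
            have h4 : 0 < (r:ℝ) ^ 2 := by positivity
            have h5 : (0:ℝ) ≤ (Y - (r:ℝ) / (1256 / 100)) ^ 2 := sq_nonneg _
            nlinarith
          have h6 : 0 < Y ^ 2 + c := by positivity
          nlinarith

/-! ### the map on the real axis -/

theorem Rr_eq {r : ℕ} {V : ℂ} (h : V ≠ 0) : Rr r V = (1 - r / V) * (1 + 1 / V) ^ r := by
  unfold Rr
  have h1 : 1 - (r:ℂ) / V = (V - r) / V := by field_simp
  have h2 : 1 + 1 / V = (V + 1) / V := by field_simp
  rw [h1, h2, div_pow, pow_succ]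
  field_simp

/-- the value at `1 / t` -/
def BB (r : ℕ) (t : ℝ) : ℝ := (1 - r * t) * (1 + t) ^ r

theorem Rr_real {r : ℕ} {u : ℝ} (h : u ≠ 0) : Rr r (u : ℂ) = (BB r (1 / u) : ℂ) := by
  have h' : (u:ℂ) ≠ 0 := by exact_mod_cast h
  rw [Rr_eq h']
  unfold BB
  push_cast
  congr 1
  ring

theorem BB_succ (r : ℕ) (t : ℝ) : BB (r + 1) t = BB r t - (r + 1) * (t ^ 2 * (1 + t) ^ r) := by
  unfold BB
  push_cast
  ring

theorem BB_anti (r : ℕ) {s t : ℝ} (ht : 0 < t) (hst : t < s) :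
    BB (r + 1) s < BB (r + 1) t := by
  induction r with
  | zero =>
    rw [BB_succ, BB_succ]
    have h1 : t ^ 2 < s ^ 2 := by nlinarith
    simp only [BB, pow_zero, Nat.cast_zero]
    nlinarith
  | succ r ih =>
    rw [BB_succ, BB_succ (r + 1) t]
    have h1 : t ^ 2 * (1 + t) ^ (r + 1) ≤ s ^ 2 * (1 + s) ^ (r + 1) := by
      apply mul_le_mul
      · nlinarith
      · exact pow_le_pow_left₀ (by linarith) (by linarith) _
      · positivity
      · positivity
    have h2 : (0:ℝ) ≤ ((r + 1 : ℕ) : ℝ) + 1 := by positivity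
    have h3 := mul_le_mul_of_nonneg_left h1 h2
    linarith

theorem BB_neg (r : ℕ) {t : ℝ} (ht0 : 0 ≤ t) (ht : t ≤ 1) : BB r t ≤ BB r (-t) := by
  induction r with
  | zero => simp [BB]
  | succ r ih =>
    rw [BB_succ, BB_succ]
    have h1 : (1 + -t) ^ r ≤ (1 + t) ^ r := pow_le_pow_left₀ (by linarith) (by linarith) _
    have h2 : (-t) ^ 2 * (1 + -t) ^ r ≤ t ^ 2 * (1 + t) ^ r := by
      rw [neg_sq]
      exact mul_le_mul_of_nonneg_left h1 (sq_nonneg t)
    have h3 : (0:ℝ) ≤ (r:ℝ) + 1 := by positivity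
    have h4 := mul_le_mul_of_nonneg_left h2 h3
    linarith

theorem BB_left_lt {r : ℕ} (hr : 1 ≤ r) {t : ℝ} (ht0 : 0 < t) (ht : t ≤ 1) :
    BB r (-t) < 1 := by
  unfold BB
  have hrr : (1:ℝ) ≤ r := by exact_mod_cast hr
  have h1 : 1 - r * -t < Real.exp (r * t) := by
    have := Real.add_one_lt_exp (x := r * t) (by positivity)
    linarith [mul_neg (r:ℝ) t]
  have h2 : (1 + -t) ^ r ≤ Real.exp (-(r * t)) := by
    have h3 : (1 + -t) ≤ Real.exp (-t) := by
      have := Real.one_sub_le_exp_neg t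
      linarith
    calc (1 + -t) ^ r ≤ (Real.exp (-t)) ^ r := pow_le_pow_left₀ (by linarith) h3 _
      _ = Real.exp (-(r * t)) := by rw [← Real.exp_nat_mul]; congr 1; ring
  have h4 : 0 ≤ (1 + -t) ^ r := pow_nonneg (by linarith) _
  calc (1 - r * -t) * (1 + -t) ^ r ≤ (1 - r * -t) * Real.exp (-(r * t)) := by
        apply mul_le_mul_of_nonneg_left h2
        nlinarith
    _ < Real.exp (r * t) * Real.exp (-(r * t)) :=
        mul_lt_mul_of_pos_right h1 (Real.exp_pos _)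
    _ = 1 := by rw [← Real.exp_add]; simp

theorem BB_left_pos {r : ℕ} {t : ℝ} (ht0 : 0 < t) (ht : t < 1) : 0 < BB r (-t) := by
  unfold BB
  have h1 : 0 < (1 + -t) ^ r := pow_pos (by linarith) _
  have h2 : 0 < 1 - r * -t := by
    have : 0 ≤ (r:ℝ) * t := by positivity
    linarith [mul_neg (r:ℝ) t]
  positivity

end Ineq

section H5
variable {r : ℕ}

open Ineq

theorem Ineq.no_cut_pos (hr : 3 ≤ r) {W : ℂ} (hW : W.re ≤ -13 / 10)
    (h : r ≤ 9 ∨ (r:ℝ) ^ 2 / 157 ≤ -W.re * (-W.re - 1)) (hi : 0 < W.im) : ¬ Sl (Rr r W) := by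
  rintro ⟨him, hre⟩
  have hWe : W = (W.re : ℂ) + (W.im : ℂ) * Complex.I := (Complex.re_add_im W).symm
  have hp := Rr_polar (r := r) (X := W.re) (Y := W.im) hi
  rw [← hWe] at hp
  set z := Rr r W with hz
  have hzr : z = (z.re : ℂ) := by
    apply Complex.ext
    · simp
    · simp [him]
  have hnorm : ‖z‖ = z.re := by
    rw [hzr, Complex.norm_real, Real.norm_eq_abs, Complex.ofReal_re, abs_of_pos (by linarith)]
  have hne : (z.re : ℂ) ≠ 0 := by
    have : z.re ≠ 0 := by linarith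
    exact_mod_cast this
  have hexp : Complex.exp (hh r W.re W.im * Complex.I) = 1 := by
    rw [hnorm] at hp
    have h1 : (z.re : ℂ) * Complex.exp (hh r W.re W.im * Complex.I) = (z.re : ℂ) * 1 := by
      rw [← hp, mul_one]
      exact hzr
    exact mul_left_cancel₀ hne h1
  rw [Complex.exp_eq_one_iff] at hexp
  obtain ⟨n, hn⟩ := hexp
  have hn2 : hh r W.re W.im = n * (2 * Real.pi) := by
    have h1 : ((hh r W.re W.im : ℝ) : ℂ) = ((n * (2 * Real.pi) : ℝ) : ℂ) := by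
      have h2 : (hh r W.re W.im : ℂ) * Complex.I = (n * (2 * Real.pi)) * Complex.I := by
        rw [hn]; ring
      have h3 := mul_right_cancel₀ Complex.I_ne_zero h2
      rw [h3]
      push_cast
      ring
    exact_mod_cast h1
  have hneg := hh_left_neg (r := r) (by omega) (X := W.re) (Y := W.im) (by linarith) hi
  have hpi := Real.pi_pos
  have hn3 : (n:ℝ) ≤ -1 := by
    have h1 : (n:ℝ) < 0 := by
      by_contra hcon
      push Not at hcon
      have : 0 ≤ (n:ℝ) * (2 * Real.pi) := by positivity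
      linarith
    have h2 : n < 0 := by exact_mod_cast h1
    have h3 : n ≤ -1 := by omega
    exact_mod_cast h3
  have hle : hh r W.re W.im ≤ -(2 * Real.pi) := by
    rw [hn2]
    nlinarith
  set w := -W.re with hw
  have hwr : W.re = -w := by rw [hw]; ring
  have hb := beta_lt (r := r) (w := w) (Y := W.im) (by linarith) hi hr h
  have halpha : 0 < Real.arctan (W.re / W.im) - Real.arctan ((W.re - r) / W.im) := by
    have h1 : (W.re - r) / W.im < W.re / W.im := by
      apply div_lt_div_of_pos_right _ hi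
      have : (3:ℝ) ≤ r := by exact_mod_cast hr
      linarith
    have := Real.arctan_strictMono h1
    linarith
  have hdec : hh r W.re W.im =
      (Real.arctan (W.re / W.im) - Real.arctan ((W.re - r) / W.im)) -
        r * (Real.arctan (w / W.im) - Real.arctan ((w - 1) / W.im)) := by
    unfold hh
    have h1 : Real.arctan (w / W.im) = -Real.arctan (W.re / W.im) := by
      rw [hwr, neg_div, Real.arctan_neg, neg_neg]
    have h2 : Real.arctan ((w - 1) / W.im) = -Real.arctan ((W.re + 1) / W.im) := by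
      rw [← Real.arctan_neg, hwr]
      congr 1
      ring
    rw [h1, h2]
    ring
  linarith

/-- no point of the slit -/
theorem no_cut (hr : 3 ≤ r) {W : ℂ} (hW : W.re ≤ -13 / 10)
    (h : r ≤ 9 ∨ (r:ℝ) ^ 2 / 157 ≤ -W.re * (-W.re - 1)) : ¬ Sl (Rr r W) := by
  rcases lt_trichotomy W.im 0 with hi | hi | hi
  · have h1 := Ineq.no_cut_pos (W := conj W) hr (by simpa using hW) (by simpa using h)
      (by simpa using hi)
    rw [Rr_conj] at h1
    intro h2
    apply h1
    refine ⟨?_, ?_⟩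
    · rw [Complex.conj_im, h2.1, neg_zero]
    · rw [Complex.conj_re]; exact h2.2
  · have hWr : W = ((W.re : ℝ) : ℂ) := by
      apply Complex.ext
      · simp
      · simp [hi]
    rintro ⟨_, h2⟩
    rw [hWr, Rr_real (by linarith), Complex.ofReal_re] at h2
    have h3 : 1 / W.re = -(1 / (-W.re)) := by
      rw [div_neg, neg_neg]
    rw [h3] at h2
    have hw : 13 / 10 ≤ -W.re := by linarith
    have h4 := BB_left_lt (r := r) (by omega) (t := 1 / (-W.re)) (by positivity) (by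
      rw [div_le_one (by linarith)]; linarith)
    linarith
  · exact Ineq.no_cut_pos hr hW h hi

theorem Ineq.normSq_Rr {V : ℂ} (hV : V ≠ 0) : Complex.normSq (Rr r V) =
    (1 + ((r:ℝ) ^ 2 - 2 * r * V.re) / Complex.normSq V) *
      (1 + (2 * V.re + 1) / Complex.normSq V) ^ r := by
  have h0 : Complex.normSq V ≠ 0 := by simpa [Complex.normSq_eq_zero] using hV
  rw [Rr_eq hV, map_mul, map_pow]
  have h1 : (1 - (r:ℂ) / V) = (V - r) / V := by field_simp
  have h2 : (1 + 1 / V) = (V + 1) / V := by field_simp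
  rw [h1, h2, map_div₀, map_div₀]
  have h3 : Complex.normSq (V - r) = Complex.normSq V + ((r:ℝ) ^ 2 - 2 * r * V.re) := by
    simp only [Complex.normSq_apply, Complex.sub_re, Complex.sub_im, Complex.natCast_re,
      Complex.natCast_im]
    ring
  have h4 : Complex.normSq (V + 1) = Complex.normSq V + (2 * V.re + 1) := by
    simp only [Complex.normSq_apply, Complex.add_re, Complex.add_im, Complex.one_re,
      Complex.one_im]
    ring
  rw [h3, h4, add_div, add_div, div_self h0]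

theorem Ineq.exp_big {v : ℝ} (hv : 10 ≤ v) : (1 + v) ^ 2 < Real.exp (5 * v / 9) := by
  have h1 : 1 + v < Real.exp (5 * v / 18) := by
    have h2 := Real.sum_le_exp_of_nonneg (x := 5 * v / 18) (by linarith) 4
    simp only [Finset.sum_range_succ, Finset.sum_range_zero, Nat.factorial] at h2
    norm_num at h2
    nlinarith [mul_nonneg (sub_nonneg.2 hv) (sub_nonneg.2 hv),
      mul_nonneg (mul_nonneg (sub_nonneg.2 hv) (sub_nonneg.2 hv)) (sub_nonneg.2 hv)]
  have h3 : Real.exp (5 * v / 9) = (Real.exp (5 * v / 18)) ^ 2 := by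
    rw [← Real.exp_nat_mul]
    congr 1
    push_cast
    ring
  rw [h3]
  exact pow_lt_pow_left₀ h1 (by linarith) two_ne_zero

theorem near (hr : 10 ≤ r) {W U : ℂ} (hW : W.re ≤ -13 / 10)
    (h : -W.re * (-W.re - 1) ≤ (r:ℝ) ^ 2 / 157) (hU : EC r U) (he : Rr r U = Rr r W) :
    -W.re - 13 / 10 ≤ U.re := by
  by_contra hcon
  push Not at hcon
  set w := -W.re with hw
  set X := U.re with hX
  have hWre : W.re = -w := by rw [hw]; ring
  have hw1 : 13 / 10 ≤ w := by linarith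
  have hrr : (10:ℝ) ≤ r := by exact_mod_cast hr
  have hX0 : 0 < X := EC_re hU
  -- (a)
  have ha : 10 * w - 78 / 10 ≤ r := by
    by_contra hc
    push Not at hc
    have h1 : (r:ℝ) ^ 2 < (10 * w - 78 / 10) ^ 2 := by
      apply pow_lt_pow_left₀ hc (by linarith) two_ne_zero
    nlinarith
  have hXr : X ≤ r / 10 := by linarith
  have hUim : |U.im| < X := by
    by_contra hc
    push Not at hc
    have h1 := hh_diag hr hX0 hXr hc
    rcases (EC_iff.1 hU).2 with h2 | h2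
    · rw [h2, abs_zero] at hc
      linarith
    · linarith
  have hU0 : U ≠ 0 := by
    intro h0
    rw [h0, Complex.zero_re] at hX
    linarith
  have hW0 : W ≠ 0 := by
    intro h0
    rw [h0, Complex.zero_re] at hWre
    linarith
  set N := Complex.normSq U with hN
  set M := Complex.normSq W with hM
  have hN1 : N ≤ 2 * X ^ 2 := by
    rw [hN, Complex.normSq_apply, ← hX]
    have h1 : U.im * U.im = |U.im| * |U.im| := (abs_mul_abs_self _).symm
    have h2 : |U.im| * |U.im| ≤ X * X :=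
      mul_le_mul hUim.le hUim.le (abs_nonneg _) hX0.le
    nlinarith
  have hNpos : 0 < N := Complex.normSq_pos.2 hU0
  have hMpos : 0 < M := Complex.normSq_pos.2 hW0
  have hMw : w ^ 2 ≤ M := by
    rw [hM, Complex.normSq_apply, hWre]
    nlinarith [mul_self_nonneg W.im]
  have hnU := Ineq.normSq_Rr (r := r) hU0
  have hnW := Ineq.normSq_Rr (r := r) hW0
  rw [← hN, ← hX] at hnU
  rw [← hM, hWre] at hnW
  rw [he, hnW] at hnU
  -- the second factors
  have hr0 : (0:ℝ) < r := by linarith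
  have hfU : 1 ≤ (1 + (2 * X + 1) / N) ^ r := by
    apply one_le_pow₀
    have : 0 ≤ (2 * X + 1) / N := by positivity
    linarith
  have hq0 : 0 ≤ 1 + (2 * -w + 1) / M := by
    have h1 : (2 * w - 1) ≤ M := by nlinarith
    have h2 : (2 * w - 1) / M ≤ 1 := by rw [div_le_one hMpos]; exact h1
    have h3 : (2 * -w + 1) / M = -((2 * w - 1) / M) := by rw [← neg_div]; congr 1; ring
    rw [h3]; linarith
  have hfW : (1 + (2 * -w + 1) / M) ^ r ≤ 1 := by
    apply pow_le_one₀ hq0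
    have h3 : (2 * -w + 1) / M ≤ 0 := div_nonpos_of_nonpos_of_nonneg (by linarith) hMpos.le
    linarith
  have hUX : 0 < 1 + ((r:ℝ) ^ 2 - 2 * r * X) / N := by
    have : 0 ≤ ((r:ℝ) ^ 2 - 2 * r * X) / N := by
      apply div_nonneg _ hNpos.le
      nlinarith
    linarith
  have hWX : 0 < 1 + ((r:ℝ) ^ 2 - 2 * r * -w) / M := by
    have : 0 ≤ ((r:ℝ) ^ 2 - 2 * r * -w) / M := by
      apply div_nonneg _ hMpos.le
      nlinarith
    linarith
  have hcmp : 1 + ((r:ℝ) ^ 2 - 2 * r * X) / N ≤ 1 + ((r:ℝ) ^ 2 - 2 * r * -w) / M := by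
    calc 1 + ((r:ℝ) ^ 2 - 2 * r * X) / N
        ≤ (1 + ((r:ℝ) ^ 2 - 2 * r * X) / N) * (1 + (2 * X + 1) / N) ^ r :=
          le_mul_of_one_le_right hUX.le hfU
      _ = (1 + ((r:ℝ) ^ 2 - 2 * r * -w) / M) * (1 + (2 * -w + 1) / M) ^ r := hnU.symm
      _ ≤ 1 + ((r:ℝ) ^ 2 - 2 * r * -w) / M := mul_le_of_le_one_right hWX.le hfW
  have hM3 : M ≤ 3 * X ^ 2 := by
    have h1 : ((r:ℝ) ^ 2 - 2 * r * X) / N ≤ ((r:ℝ) ^ 2 - 2 * r * -w) / M := by linarith
    rw [div_le_div_iff₀ hNpos hMpos] at h1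
    have h2 : ((r:ℝ) - 2 * X) * M ≤ (r + 2 * w) * N := by
      have h3 : (r:ℝ) * (((r:ℝ) - 2 * X) * M) ≤ r * ((r + 2 * w) * N) := by nlinarith
      exact le_of_mul_le_mul_left h3 hr0
    have h4 : ((r:ℝ) + 2 * w) * N ≤ (r + 2 * w) * (2 * X ^ 2) :=
      mul_le_mul_of_nonneg_left hN1 (by linarith)
    have h5 : 2 * ((r:ℝ) + 2 * w) ≤ 3 * (r - 2 * X) := by linarith
    have h6 : (2 * ((r:ℝ) + 2 * w)) * X ^ 2 ≤ (3 * (r - 2 * X)) * X ^ 2 :=
      mul_le_mul_of_nonneg_right h5 (sq_nonneg X)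
    have h7 : ((r:ℝ) - 2 * X) * M ≤ (r - 2 * X) * (3 * X ^ 2) := by nlinarith
    exact le_of_mul_le_mul_left h7 (by linarith)
  have hX2 : X ^ 2 < (w - 13 / 10) ^ 2 := pow_lt_pow_left₀ hcon hX0.le two_ne_zero
  have hw3 : 3 ≤ w := by
    by_contra hc
    push Not at hc
    nlinarith
  have hM3w : M ≤ 3 * w ^ 2 := by nlinarith
  -- (c)
  have hbig : 1 < (1 + ((r:ℝ) ^ 2 - 2 * r * -w) / M) * (1 + (2 * -w + 1) / M) ^ r := by
    rw [hnU]
    have h1 : 1 < 1 + ((r:ℝ) ^ 2 - 2 * r * X) / N := by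
      have : 0 < ((r:ℝ) ^ 2 - 2 * r * X) / N := by
        apply div_pos _ hNpos
        nlinarith
      linarith
    calc (1:ℝ) < 1 + ((r:ℝ) ^ 2 - 2 * r * X) / N := h1
      _ ≤ (1 + ((r:ℝ) ^ 2 - 2 * r * X) / N) * (1 + (2 * X + 1) / N) ^ r :=
          le_mul_of_one_le_right hUX.le hfU
  set v := (r:ℝ) / w with hv
  have hw0 : 0 < w := by linarith
  have hrv : (r:ℝ) = v * w := by rw [hv]; field_simp
  have hv10 : 10 ≤ v := by
    by_contra hc
    push Not at hc
    have hv0 : 0 < v := by positivity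
    have h1 : v ^ 2 < 10 ^ 2 := pow_lt_pow_left₀ hc hv0.le two_ne_zero
    have h2 : 157 * (w * (w - 1)) ≤ v ^ 2 * w ^ 2 := by
      have h3 : (r:ℝ) ^ 2 = v ^ 2 * w ^ 2 := by rw [hrv]; ring
      rw [← h3]
      linarith
    nlinarith
  have h1 : 1 + ((r:ℝ) ^ 2 - 2 * r * -w) / M ≤ (1 + v) ^ 2 := by
    have h2 : ((r:ℝ) ^ 2 - 2 * r * -w) / M ≤ ((r:ℝ) ^ 2 - 2 * r * -w) / w ^ 2 := by
      apply div_le_div_of_nonneg_left _ (by positivity) hMw
      nlinarith
    have h3 : ((r:ℝ) ^ 2 - 2 * r * -w) / w ^ 2 = v ^ 2 + 2 * v := by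
      rw [hrv]
      field_simp
      ring
    rw [h3] at h2
    nlinarith
  have h2 : (1 + (2 * -w + 1) / M) ^ r ≤ Real.exp (-(5 * v / 9)) := by
    have h3 : 1 + (2 * -w + 1) / M ≤ Real.exp (-((2 * w - 1) / M)) := by
      have h4 := Real.one_sub_le_exp_neg ((2 * w - 1) / M)
      have h5 : (2 * -w + 1) / M = -((2 * w - 1) / M) := by rw [← neg_div]; congr 1; ring
      rw [h5]; linarith
    have h6 : (1 + (2 * -w + 1) / M) ^ r ≤ (Real.exp (-((2 * w - 1) / M))) ^ r :=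
      pow_le_pow_left₀ hq0 h3 _
    rw [← Real.exp_nat_mul] at h6
    refine h6.trans (Real.exp_le_exp.2 ?_)
    have h7 : 5 * v / 9 ≤ r * ((2 * w - 1) / M) := by
      have h8 : (2 * w - 1) / (3 * w ^ 2) ≤ (2 * w - 1) / M :=
        div_le_div_of_nonneg_left (by linarith) hMpos hM3w
      have h9 : 5 * v / 9 ≤ r * ((2 * w - 1) / (3 * w ^ 2)) := by
        have h10 : (r:ℝ) * ((2 * w - 1) / (3 * w ^ 2)) = v * ((2 * w - 1) / (3 * w)) := by
          rw [hrv]; field_simp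
        rw [h10]
        have h11 : 5 / 9 ≤ (2 * w - 1) / (3 * w) := by
          rw [le_div_iff₀ (by positivity)]
          linarith
        nlinarith
      exact h9.trans (mul_le_mul_of_nonneg_left h8 hr0.le)
    linarith
  have h3 := Ineq.exp_big hv10
  have h4 : (1 + ((r:ℝ) ^ 2 - 2 * r * -w) / M) * (1 + (2 * -w + 1) / M) ^ r ≤
      (1 + v) ^ 2 * Real.exp (-(5 * v / 9)) :=
    mul_le_mul h1 h2 (pow_nonneg hq0 _) (sq_nonneg _)
  have h5 : (1 + v) ^ 2 * Real.exp (-(5 * v / 9)) < 1 := by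
    calc (1 + v) ^ 2 * Real.exp (-(5 * v / 9))
        < Real.exp (5 * v / 9) * Real.exp (-(5 * v / 9)) :=
          mul_lt_mul_of_pos_right h3 (Real.exp_pos _)
      _ = 1 := by rw [← Real.exp_add]; simp
  linarith

/-- the real axis -/
theorem Ineq.real_axis (hr : 3 ≤ r) {g : ℂ → ℂ} (hg : Inv r g) {w : ℝ} (hw : 13 / 10 ≤ w) :
    w ≤ (g (Rr r ((-w : ℝ) : ℂ))).re := by
  have hw0 : 0 < w := by linarith
  have h1w : 1 / (-w) = -(1 / w) := by rw [div_neg]
  have hRr : Rr r ((-w : ℝ) : ℂ) = ((BB r (-(1 / w)) : ℝ) : ℂ) := by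
    rw [Rr_real (by linarith), h1w]
  have ht1 : 1 / w < 1 := by rw [div_lt_one hw0]; linarith
  have hlt := BB_left_lt (r := r) (by omega) (t := 1 / w) (by positivity) ht1.le
  have hns : ¬ Sl (Rr r ((-w : ℝ) : ℂ)) := by
    rintro ⟨_, h2⟩
    rw [hRr, Complex.ofReal_re] at h2
    linarith
  obtain ⟨hE, hRg⟩ := hg.mem _ hns
  set U := g (Rr r ((-w : ℝ) : ℂ)) with hU
  have hUre : 0 < U.re := hE.1
  have hUim : U.im = 0 := by
    rcases lt_trichotomy U.im 0 with hi | hi | hi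
    · have h2 := EE_im_neg (by omega) hE hi
      rw [hRg, hRr, Complex.ofReal_im] at h2
      exact absurd h2 (lt_irrefl _)
    · exact hi
    · have h2 := EE_im_pos (by omega) hE hi
      rw [hRg, hRr, Complex.ofReal_im] at h2
      exact absurd h2 (lt_irrefl _)
  have hUr : U = ((U.re : ℝ) : ℂ) := by
    apply Complex.ext
    · simp
    · simp [hUim]
  have hval : BB r (1 / U.re) = BB r (-(1 / w)) := by
    have h2 : ((BB r (1 / U.re) : ℝ) : ℂ) = ((BB r (-(1 / w)) : ℝ) : ℂ) := by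
      rw [← Rr_real (r := r) hUre.ne', ← hUr, hRg, hRr]
    exact_mod_cast h2
  by_contra hcon
  push Not at hcon
  have hinv : 1 / w < 1 / U.re := one_div_lt_one_div_of_lt hUre hcon
  obtain ⟨m, rfl⟩ : ∃ m, r = m + 1 := ⟨r - 1, by omega⟩
  have h3 := BB_anti m (s := 1 / U.re) (t := 1 / w) (by positivity) hinv
  have h4 := BB_neg (m + 1) (t := 1 / w) (by positivity) ht1.le
  linarith

theorem Ineq.main (hr : 3 ≤ r) {g : ℂ → ℂ} (hg : Inv r g) {w0 : ℝ} (hw0 : 13 / 10 ≤ w0)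
    (hcase : (r ≤ 9 ∧ w0 = 13 / 10) ∨ (10 ≤ r ∧ w0 * (w0 - 1) = (r:ℝ) ^ 2 / 157)) {W : ℂ}
    (hW : W.re ≤ -w0) : -W.re - 13 / 10 ≤ (g (Rr r W)).re := by
  have hcut : ∀ V : ℂ, V.re ≤ -w0 → ¬ Sl (Rr r V) := by
    intro V hV
    apply no_cut hr (by linarith)
    rcases hcase with ⟨h1, _⟩ | ⟨_, h2⟩
    · exact Or.inl h1
    · right
      rw [← h2]
      nlinarith
  let f : ℂ → ℂ := fun ζ => Complex.exp (-((-(w0:ℂ) - ζ) + g (Rr r (-(w0:ℂ) - ζ))))
  have hre : ∀ ζ : ℂ, (-(w0:ℂ) - ζ).re = -w0 - ζ.re := by intro ζ; simp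
  have hnf : ∀ ζ : ℂ, ‖f ζ‖ = Real.exp (w0 + ζ.re - (g (Rr r (-(w0:ℂ) - ζ))).re) := by
    intro ζ
    show ‖Complex.exp (-((-(w0:ℂ) - ζ) + g (Rr r (-(w0:ℂ) - ζ))))‖ = _
    rw [Complex.norm_exp, Complex.neg_re, Complex.add_re, hre]
    congr 1
    ring
  have hgpos : ∀ ζ : ℂ, 0 ≤ ζ.re → 0 < (g (Rr r (-(w0:ℂ) - ζ))).re := by
    intro ζ hζ
    exact (hg.mem _ (hcut _ (by rw [hre]; linarith))).1.1
  have hdiff : ∀ ζ : ℂ, 0 ≤ ζ.re → DifferentiableAt ℂ f ζ := by
    intro ζ hζ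
    have h1 : DifferentiableAt ℂ (fun ζ : ℂ => -(w0:ℂ) - ζ) ζ := by fun_prop
    have hne : -(w0:ℂ) - ζ ≠ 0 := by
      intro h0
      have h2 := congrArg Complex.re h0
      rw [hre, Complex.zero_re] at h2
      linarith
    have h2 : DifferentiableAt ℂ (Rr r) (-(w0:ℂ) - ζ) := (Rr_analytic hne).differentiableAt
    have h3 : DifferentiableAt ℂ g (Rr r (-(w0:ℂ) - ζ)) :=
      (hg.an _ (hcut _ (by rw [hre]; linarith))).differentiableAt
    have h4 : DifferentiableAt ℂ (fun ζ : ℂ => Rr r (-(w0:ℂ) - ζ)) ζ :=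
      DifferentiableAt.comp ζ h2 h1
    have h5 : DifferentiableAt ℂ (fun ζ : ℂ => g (Rr r (-(w0:ℂ) - ζ))) ζ :=
      DifferentiableAt.comp ζ h3 h4
    exact ((h1.add h5).neg).cexp
  have hd : DiffContOnCl ℂ f {z | 0 < z.re} := by
    apply DifferentiableOn.diffContOnCl
    rw [Complex.closure_setOfPred_lt_re]
    intro ζ hζ
    exact (hdiff ζ hζ).differentiableWithinAt
  have hexp : ∃ c < (2 : ℝ), ∃ B, f =O[Bornology.cobounded ℂ ⊓ 𝓟 {z | 0 < z.re}]
      fun z => Real.exp (B * ‖z‖ ^ c) := by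
    refine ⟨1, by norm_num, 1, ?_⟩
    apply Asymptotics.IsBigO.of_bound (Real.exp w0)
    rw [Filter.eventually_inf_principal]
    refine Filter.Eventually.of_forall ?_
    intro ζ hζ
    have hζ' : 0 < ζ.re := hζ
    rw [hnf, Real.norm_eq_abs, abs_of_pos (Real.exp_pos _), ← Real.exp_add]
    apply Real.exp_le_exp.2
    rw [Real.rpow_one, one_mul]
    have h1 := hgpos ζ hζ'.le
    have h2 := Complex.re_le_norm ζ
    linarith
  have hbr : IsBoundedUnder (· ≤ ·) atTop fun x : ℝ => ‖f x‖ := by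
    refine ⟨1, Filter.eventually_map.2 ((eventually_ge_atTop 0).mono ?_)⟩
    intro x hx
    rw [hnf, Complex.ofReal_re]
    have h1 := Ineq.real_axis hr hg (w := w0 + x) (by linarith)
    have h2 : ((-(w0 + x) : ℝ) : ℂ) = -(w0:ℂ) - x := by push_cast; ring
    rw [h2] at h1
    exact Real.exp_le_one_iff.2 (by linarith)
  have him : ∀ x : ℝ, ‖f (x * Complex.I)‖ ≤ Real.exp (13 / 10) := by
    intro x
    have hx : ((x:ℂ) * Complex.I).re = 0 := by simp
    rw [hnf, hx]
    apply Real.exp_le_exp.2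
    rcases hcase with ⟨_, h2⟩ | ⟨h1, h2⟩
    · have h3 := hgpos (x * Complex.I) (by rw [hx])
      linarith
    · have hVre : (-(w0:ℂ) - x * Complex.I).re = -w0 := by rw [hre, hx, sub_zero]
      have h3 := hg.mem _ (hcut (-(w0:ℂ) - x * Complex.I) hVre.le)
      have h4 := near h1 (W := -(w0:ℂ) - x * Complex.I) (by rw [hVre]; linarith)
        (by rw [hVre, neg_neg, h2]) (Or.inl h3.1) h3.2
      rw [hVre, neg_neg] at h4
      linarith
  have hfin := PhragmenLindelof.right_half_plane_of_bounded_on_real hd hexp hbr him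
    (z := -(w0:ℂ) - W) (by rw [hre]; linarith)
  rw [hnf] at hfin
  have h1 := Real.exp_le_exp.1 hfin
  have h2 : -(w0:ℂ) - (-(w0:ℂ) - W) = W := by ring
  rw [h2, hre] at h1
  linarith

theorem ineq (hr : 3 ≤ r) {W U : ℂ} (hW : W.re ≤ -13 / 10) (hU : EC r U)
    (he : Rr r U = Rr r W) : -W.re - 13 / 10 ≤ U.re := by
  obtain ⟨g, hg⟩ := exists_inv (r := r) (by omega)
  have hUg : (g (Rr r W)).re = U.re := by
    rw [← he]
    exact inv_re (by omega) hg hU
  by_cases h9 : r ≤ 9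
  · rw [← hUg]
    exact Ineq.main hr hg (w0 := 13 / 10) le_rfl (Or.inl ⟨h9, rfl⟩) (by linarith)
  · push Not at h9
    have hr10 : 10 ≤ r := h9
    have hrr : (10:ℝ) ≤ r := by exact_mod_cast hr10
    set s := Real.sqrt (1 / 4 + (r:ℝ) ^ 2 / 157) with hs
    have hs2 : s ^ 2 = 1 / 4 + (r:ℝ) ^ 2 / 157 := Real.sq_sqrt (by positivity)
    have hs0 : 0 ≤ s := Real.sqrt_nonneg _
    have hs8 : 8 / 10 ≤ s := by
      by_contra hc
      push Not at hc
      nlinarith
    by_cases hc : -W.re ≤ 1 / 2 + s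
    · apply near hr10 hW _ hU he
      nlinarith
    · push Not at hc
      rw [← hUg]
      refine Ineq.main hr hg (w0 := 1 / 2 + s) (by linarith) (Or.inr ⟨hr10, ?_⟩) (by linarith)
      nlinarith

end H5

end Pool.Agent.MP_ae5b4e_an_HYP
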