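import Mathlib
import Pool.Agent.Lib.MP_ae5b4e_an_HYP.Defs
import Pool.Agent.Lib.MP_ae5b4e_an_HYP.Rat
import Pool.Agent.Lib.MP_ae5b4e_an_HYP.Dom
import Pool.Agent.Lib.MP_ae5b4e_an_HYP.Inv
import Pool.Agent.Lib.MP_ae5b4e_an_HYP.Ineq

/-!
# MP_ae5b4e_an, project HYP, module H6: the solution extends to an entire function
-/

set_option autoImplicit false

noncomputable section

namespace Pool.Agent.MP_ae5b4e_an_HYP

open Filter Topology Set Metric
open scoped ComplexConjugate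

variable {r : ℕ}

namespace Cont

/-- there is an extension of `F` to the points `z` with `x < re (g z)` -/
def Good (F g : ℂ → ℂ) (x : ℝ) : Prop :=
  ∃ G : ℂ → ℂ, (∀ z, (z = 1 ∨ x < (g z).re) → AnalyticAt ℂ G z) ∧ ∀ᶠ z in 𝓝 (1:ℂ), G z = F z

theorem base {F g : ℂ → ℂ} (hg : Inv r g) (hF : AnalyticAt ℂ F 1) : ∃ x, Good F g x := by
  have h1 : ∀ᶠ z in 𝓝 (1:ℂ), AnalyticAt ℂ F z := hF.eventually_analyticAt
  have h2 := (Rr_inf (r := r)).eventually h1
  rw [← comap_norm_atTop, eventually_comap] at h2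
  obtain ⟨x, hx⟩ := eventually_atTop.1 h2
  refine ⟨x, F, ?_, Eventually.of_forall fun _ => rfl⟩
  intro z hz
  by_cases h : z = 1
  · rw [h]; exact hF
  · have h3 := hz.resolve_left h
    have h4 := hx ‖g z‖ (h3.le.trans ((le_abs_self _).trans (Complex.abs_re_le_norm _))) (g z) rfl
    rwa [(inv_EC hg h).2] at h4

/-- the new function on the tangent lines -/
def PP (r : ℕ) (d : ℂ) (G : ℂ → ℂ) (V : ℂ) : ℂ :=
  chi d (-2 * cen r d - V) * G (Rr r (-2 * cen r d - V)) / chi d V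

theorem PP_analytic (hr : 3 ≤ r) {d : ℂ} (hc : 65 / 100 < (cen r d).re) {G g : ℂ → ℂ} {x : ℝ}
    (hg : Inv r g) (hG : ∀ z, (z = 1 ∨ x < (g z).re) → AnalyticAt ℂ G z) {V : ℂ} (hV : EC r V)
    (hx : x - (2 * (cen r d).re - 13 / 10) < V.re) : AnalyticAt ℂ (PP r d G) V := by
  have hV0 := EC_re hV
  set W : ℂ := -2 * cen r d - V with hW
  have hWre : W.re = -2 * (cen r d).re - V.re := by
    rw [hW]; simp
  have hW1 : W.re ≤ -13 / 10 := by rw [hWre]; linarith
  have hW0 : W ≠ 0 := by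
    intro h
    rw [h] at hW1
    simp at hW1
    norm_num at hW1
  have hsub : AnalyticAt ℂ (fun V : ℂ => -2 * cen r d - V) V := by fun_prop
  have h1 : AnalyticAt ℂ (chi d) V := chi_analytic (Or.inl hV0)
  have h2 : AnalyticAt ℂ (chi d) W := chi_analytic (Or.inr (by linarith))
  have h3 : AnalyticAt ℂ (Rr r) W := Rr_analytic hW0
  have h4 : AnalyticAt ℂ G (Rr r W) := by
    by_cases h : Rr r W = 1
    · exact hG _ (Or.inl h)
    · obtain ⟨h5, h6⟩ := inv_EC hg h
      have h7 := ineq hr hW1 h5 h6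
      refine hG _ (Or.inr ?_)
      rw [hWre] at h7
      linarith
  have h5 : AnalyticAt ℂ (fun V : ℂ => chi d (-2 * cen r d - V)) V :=
    AnalyticAt.fun_comp (f := fun V : ℂ => -2 * cen r d - V) (g := chi d) h2 hsub
  have h6 : AnalyticAt ℂ (fun V : ℂ => Rr r (-2 * cen r d - V)) V :=
    AnalyticAt.fun_comp (f := fun V : ℂ => -2 * cen r d - V) (g := Rr r) h3 hsub
  have h7 : AnalyticAt ℂ (fun V : ℂ => G (Rr r (-2 * cen r d - V))) V :=
    AnalyticAt.fun_comp (f := fun V : ℂ => Rr r (-2 * cen r d - V)) (g := G) h4 h6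
  exact (h5.mul h7).div h1 (chi_ne d V)

theorem PP_big {d : ℂ} {F G : ℂ → ℂ} (h : HypSol r d F) (hGF : ∀ᶠ z in 𝓝 (1:ℂ), G z = F z) :
    ∀ᶠ V in Bornology.cobounded ℂ, PP r d G V = F (Rr r V) := by
  have h1 : Tendsto (fun V : ℂ => -2 * cen r d - V) (Bornology.cobounded ℂ)
      (Bornology.cobounded ℂ) := by
    have h2 : Tendsto (fun V : ℂ => -V) (Bornology.cobounded ℂ) (Bornology.cobounded ℂ) :=
      tendsto_neg_cobounded
    have h3 := tendsto_const_add_cobounded (-2 * cen r d : ℂ)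
    have h4 := h3.comp h2
    refine h4.congr fun V => ?_
    simp [sub_eq_add_neg]
  have h2 := (Rr_inf (r := r)).comp h1
  have h3 := h2.eventually hGF
  filter_upwards [h3, h.flip] with V h4 h5
  have h4' : G (Rr r (-2 * cen r d - V)) = F (Rr r (-2 * cen r d - V)) := h4
  unfold PP
  rw [h4', ← h5, mul_comm, mul_div_assoc, div_self (chi_ne d V), mul_one]

theorem slit_re {g : ℂ → ℂ} (hg : Inv r g) {t : ℝ} (ht : 1 < t) :
    EC r (g t) ∧ EC r (conj (g t)) ∧ (conj (g t)).re = (g t).re := by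
  have h := (hg.slit t ht).1
  refine ⟨Or.inr (Or.inl h), Or.inr (Or.inr ?_), Complex.conj_re _⟩
  rw [Complex.conj_conj]
  exact h

theorem fun_real {P p : ℂ → ℂ} {t : ℝ} {y : ℂ} (hP : AnalyticAt ℂ P y) (hp : AnalyticAt ℂ p t)
    (h : p t = y) : AnalyticAt ℝ (fun s : ℝ => P (p s)) t := by
  have h1 : AnalyticAt ℂ (fun z => P (p z)) (t : ℂ) := by
    rw [← h] at hP
    exact AnalyticAt.fun_comp hP hp
  have h2 : AnalyticAt ℝ (fun z => P (p z)) (t : ℂ) := h1.restrictScalars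
  have h3 : AnalyticAt ℝ (fun s : ℝ => (s : ℂ)) t := Complex.ofRealCLM.analyticAt t
  exact AnalyticAt.fun_comp (f := fun s : ℝ => (s : ℂ)) (g := fun z => P (p z)) h2 h3

theorem conj_cobounded : Tendsto (fun z : ℂ => conj z) (Bornology.cobounded ℂ)
    (Bornology.cobounded ℂ) := by
  rw [← tendsto_norm_atTop_iff_cobounded]
  have h : (fun z : ℂ => ‖conj z‖) = fun z : ℂ => ‖z‖ := by
    funext z
    exact RCLike.norm_conj z
  rw [h]
  exact tendsto_norm_cobounded_atTop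

theorem slit_eq (hr : 3 ≤ r) {d : ℂ} (hc : 65 / 100 < (cen r d).re) {F G g : ℂ → ℂ} {x : ℝ}
    (h : HypSol r d F) (hg : Inv r g) (hG : ∀ z, (z = 1 ∨ x < (g z).re) → AnalyticAt ℂ G z)
    (hGF : ∀ᶠ z in 𝓝 (1:ℂ), G z = F z) {t₀ : ℝ} (ht₀ : 1 < t₀)
    (hx : x - (2 * (cen r d).re - 13 / 10) < (g t₀).re) {t : ℝ} (ht : 1 < t) (htt : t ≤ t₀) :
    PP r d G (g t) = PP r d G (conj (g t)) := by
  set D : Set ℝ := {t | 1 < t ∧ x - (2 * (cen r d).re - 13 / 10) < (g t).re} with hD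
  have hmem : ∀ t, 1 < t → t ≤ t₀ → t ∈ D := fun t h1 h2 => ⟨h1, hg.mono _ _ _ h1 h2 hx⟩
  have hconn : IsPreconnected D := by
    apply Set.OrdConnected.isPreconnected
    refine ⟨fun a ha b hb t ht => ?_⟩
    have h1 : 1 < t := lt_of_lt_of_le ha.1 ht.1
    exact ⟨h1, hg.mono _ _ _ h1 ht.2 hb.2⟩
  have hA : ∀ t ∈ D, AnalyticAt ℝ (fun s : ℝ => PP r d G (g s)) t ∧
      AnalyticAt ℝ (fun s : ℝ => PP r d G (conj (g s))) t := by
    intro t ht
    obtain ⟨p, q, hp, hq, hp0, hq0, hpq, hcj⟩ := hg.loc t ht.1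
    obtain ⟨e1, e2, e3⟩ := slit_re hg ht.1
    have hP1 := PP_analytic hr hc hg hG e1 ht.2
    have hP2 := PP_analytic hr hc hg hG e2 (by rw [e3]; exact ht.2)
    have hre : ∀ᶠ s : ℝ in 𝓝 t, g s = p s := by
      have h1 : Tendsto (fun s : ℝ => (s : ℂ)) (𝓝 t) (𝓝 (t : ℂ)) :=
        Complex.continuous_ofReal.continuousAt
      filter_upwards [h1.eventually hpq] with s hs
      exact hs.1 (by rw [Complex.ofReal_im])
    refine ⟨(fun_real hP1 hp hp0).congr ?_, (fun_real hP2 hq hq0).congr ?_⟩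
    · filter_upwards [hre] with s hs
      rw [hs]
    · filter_upwards [hre, hcj] with s hs hs'
      rw [hs, hs']
  have hlim : Tendsto (fun s : ℝ => (s : ℂ)) (𝓝[>] (1:ℝ)) (𝓝[≠] (1:ℂ)) := by
    rw [tendsto_nhdsWithin_iff]
    constructor
    · have h1 : Tendsto (fun s : ℝ => (s : ℂ)) (𝓝 (1:ℝ)) (𝓝 ((1:ℝ) : ℂ)) :=
        Complex.continuous_ofReal.continuousAt
      rw [Complex.ofReal_one] at h1
      exact h1.mono_left nhdsWithin_le_nhds
    · filter_upwards [self_mem_nhdsWithin] with s hs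
      have hs' : 1 < s := hs
      intro hcon
      have : s = 1 := by exact_mod_cast (Set.mem_singleton_iff.1 hcon)
      linarith
  have hbig := PP_big h hGF
  have hgt := hg.inf.comp hlim
  have h1 := hgt.eventually hbig
  have h2 := (conj_cobounded.comp hgt).eventually hbig
  have h3 : ∀ᶠ s : ℝ in 𝓝[>] (1:ℝ), PP r d G (g s) = PP r d G (conj (g s)) := by
    filter_upwards [h1, h2, self_mem_nhdsWithin] with s hs1 hs2 hs
    have hs' : 1 < s := hs
    have e1 : PP r d G (g s) = F (Rr r (g s)) := hs1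
    have e2 : PP r d G (conj (g s)) = F (Rr r (conj (g s))) := hs2
    rw [e1, e2, Rr_conj, (hg.slit s hs').2, Complex.conj_ofReal]
  rw [eventually_nhdsWithin_iff] at h3
  obtain ⟨δ, hδ, hδ2⟩ := Metric.eventually_nhds_iff.1 h3
  set t₁ : ℝ := min (1 + δ / 2) t₀ with ht₁
  have ht1 : 1 < t₁ := lt_min (by linarith) ht₀
  have ht1' : t₁ < 1 + δ := lt_of_le_of_lt (min_le_left _ _) (by linarith)
  have hev : (fun s : ℝ => PP r d G (g s)) =ᶠ[𝓝 t₁] fun s : ℝ => PP r d G (conj (g s)) := by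
    filter_upwards [Ioo_mem_nhds ht1 ht1'] with s hs
    refine hδ2 ?_ hs.1
    rw [Real.dist_eq, abs_of_pos (by linarith [hs.1])]
    linarith [hs.2]
  exact AnalyticOnNhd.eqOn_of_preconnected_of_eventuallyEq (fun t ht => (hA t ht).1)
    (fun t ht => (hA t ht).2) hconn (hmem t₁ ht1 (min_le_right _ _)) hev (hmem t ht htt)

open Classical in
theorem step (hr : 3 ≤ r) {d : ℂ} (hc : 65 / 100 < (cen r d).re) {F g : ℂ → ℂ} {x : ℝ}
    (h : HypSol r d F) (hg : Inv r g) (hx : Good F g x) :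
    Good F g (x - (2 * (cen r d).re - 13 / 10)) := by
  obtain ⟨G, hG, hGF⟩ := hx
  set G' : ℂ → ℂ := fun z => if z = 1 then 0 else PP r d G (g z) with hG'
  have hne : ∀ z, z ≠ 1 → G' z = PP r d G (g z) := fun z hz => if_neg hz
  have h0 : ∀ᶠ z in 𝓝 (1:ℂ), G' z = F z := by
    have h1 := hg.inf.eventually (PP_big h hGF)
    rw [eventually_nhdsWithin_iff] at h1
    filter_upwards [h1] with z hz
    by_cases hz1 : z = 1
    · rw [hz1, h.zero]
      exact if_pos rfl
    · rw [hne z hz1, hz hz1, (inv_EC hg hz1).2]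
  refine ⟨G', ?_, h0⟩
  intro z hz
  by_cases hz1 : z = 1
  · rw [hz1]
    exact h.ana.congr (h0.mono fun z hz => hz.symm)
  have hzx := hz.resolve_left hz1
  have hev : ∀ᶠ w in 𝓝 z, w ≠ 1 := isOpen_ne.mem_nhds hz1
  by_cases hs : Sl z
  · obtain ⟨t₀, rfl⟩ : ∃ t : ℝ, (t : ℂ) = z := ⟨z.re, by
      apply Complex.ext
      · rw [Complex.ofReal_re]
      · rw [Complex.ofReal_im, hs.1]⟩
    have ht : 1 < t₀ := by
      have h1 := hs.2
      rw [Complex.ofReal_re] at h1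
      refine lt_of_le_of_ne h1 fun h2 => hz1 ?_
      rw [← h2, Complex.ofReal_one]
    obtain ⟨p, q, hp, hq, hp0, hq0, hpq, hcj⟩ := hg.loc t₀ ht
    obtain ⟨e1, e2, e3⟩ := slit_re hg ht
    have hP1 := PP_analytic hr hc hg hG e1 hzx
    have hP2 := PP_analytic hr hc hg hG e2 (by rw [e3]; exact hzx)
    have hPp : AnalyticAt ℂ (fun z => PP r d G (p z)) t₀ := by
      rw [← hp0] at hP1
      exact AnalyticAt.fun_comp hP1 hp
    have hPq : AnalyticAt ℂ (fun z => PP r d G (q z)) t₀ := by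
      rw [← hq0] at hP2
      exact AnalyticAt.fun_comp hP2 hq
    have hfr : ∃ᶠ w in 𝓝[≠] (t₀ : ℂ), PP r d G (p w) = PP r d G (q w) := by
      have hlim : Tendsto (fun s : ℝ => (s : ℂ)) (𝓝[<] t₀) (𝓝[≠] (t₀ : ℂ)) := by
        rw [tendsto_nhdsWithin_iff]
        constructor
        · have h1 : Tendsto (fun s : ℝ => (s : ℂ)) (𝓝 t₀) (𝓝 (t₀ : ℂ)) :=
            Complex.continuous_ofReal.continuousAt
          exact h1.mono_left nhdsWithin_le_nhds
        · filter_upwards [self_mem_nhdsWithin] with s hs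
          have hs' : s < t₀ := hs
          intro hcon
          have : s = t₀ := by exact_mod_cast (Set.mem_singleton_iff.1 hcon)
          linarith
      refine hlim.frequently (Eventually.frequently ?_)
      have h1 : Tendsto (fun s : ℝ => (s : ℂ)) (𝓝[<] t₀) (𝓝 (t₀ : ℂ)) :=
        hlim.mono_right nhdsWithin_le_nhds
      filter_upwards [h1.eventually hpq, hcj.filter_mono nhdsWithin_le_nhds,
        Ioo_mem_nhdsLT ht] with s hs1 hs2 hs3
      have hs4 : g s = p s := hs1.1 (by rw [Complex.ofReal_im])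
      have h5 := slit_eq hr hc h hg hG hGF ht hzx hs3.1 hs3.2.le
      rw [hs4, ← hs2] at h5
      exact h5
    have hall := (hPp.frequently_eq_iff_eventually_eq hPq).1 hfr
    refine hPp.congr ?_
    filter_upwards [hpq, hall, hev] with w hw1 hw2 hw3
    rw [hne w hw3]
    by_cases him : 0 ≤ w.im
    · rw [hw1.1 him]
    · rw [hw1.2 (not_le.1 him), hw2]
  · have hP := PP_analytic hr hc hg hG (Or.inl (hg.mem z hs).1) hzx
    have h1 : AnalyticAt ℂ (fun z => PP r d G (g z)) z := AnalyticAt.fun_comp hP (hg.an z hs)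
    refine h1.congr ?_
    filter_upwards [hev] with w hw
    rw [hne w hw]

end Cont

theorem entire (hr : 3 ≤ r) {d : ℂ} (hc : 65 / 100 < (cen r d).re) {F : ℂ → ℂ}
    (h : HypSol r d F) : ∃ G : ℂ → ℂ, Differentiable ℂ G ∧ ∀ᶠ z in 𝓝 (1:ℂ), G z = F z := by
  obtain ⟨g, hg⟩ := exists_inv (r := r) (by omega)
  obtain ⟨x, hx⟩ := Cont.base hg h.ana
  have hε : 0 < 2 * (cen r d).re - 13 / 10 := by linarith
  have hn : ∀ n : ℕ, Cont.Good F g (x - n * (2 * (cen r d).re - 13 / 10)) := by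
    intro n
    induction n with
    | zero => simpa using hx
    | succ n ih =>
      have h1 := Cont.step hr hc h hg ih
      have h2 : x - (n : ℝ) * (2 * (cen r d).re - 13 / 10) - (2 * (cen r d).re - 13 / 10) =
          x - ((n + 1 : ℕ) : ℝ) * (2 * (cen r d).re - 13 / 10) := by
        push_cast; ring
      rwa [h2] at h1
  obtain ⟨n, hn'⟩ := exists_nat_gt (x / (2 * (cen r d).re - 13 / 10))
  obtain ⟨G, hG, hGF⟩ := hn n
  refine ⟨G, fun z => ?_, hGF⟩
  refine (hG z ?_).differentiableAt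
  by_cases hz : z = 1
  · exact Or.inl hz
  · right
    have h1 := EC_re (inv_EC hg hz).1
    rw [div_lt_iff₀ hε] at hn'
    linarith

end Pool.Agent.MP_ae5b4e_an_HYP
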