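import Mathlib

/-! # MP_ae5b4e_an, project HYP, module G2: descent along a quotient by an involution -/

set_option autoImplicit false

noncomputable section

namespace Pool.Agent.MP_ae5b4e_an_HYP

open Filter Topology Set Metric
open scoped ComplexConjugate

namespace Desc

/-- an even analytic germ is an analytic function of the square -/
theorem even_descend {k : ℂ → ℂ} (hk : AnalyticAt ℂ k 0)
    (he : ∀ᶠ s in 𝓝 (0:ℂ), k (-s) = k s) :
    ∃ P : ℂ → ℂ, AnalyticAt ℂ P 0 ∧ ∀ᶠ s in 𝓝 (0:ℂ), k s = P (s ^ 2) := by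
  obtain ⟨r, hr, hball⟩ := Metric.eventually_nhds_iff_ball.mp (he.and hk.eventually_analyticAt)
  set P : ℂ → ℂ := fun w => k (w ^ (1 / 2 : ℂ)) with hP
  have hsqrt : ∀ w : ℂ, (w ^ (1 / 2 : ℂ)) ^ 2 = w := by
    intro w
    rw [← Complex.cpow_nat_mul]
    norm_num
  have hPs : ∀ s ∈ ball (0:ℂ) r, P (s ^ 2) = k s := by
    intro s hs
    have h1 : ((s ^ 2) ^ (1 / 2 : ℂ)) ^ 2 = s ^ 2 := hsqrt (s ^ 2)
    rcases sq_eq_sq_iff_eq_or_eq_neg.mp h1 with h | h
    · rw [hP]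
      simp only
      rw [h]
    · rw [hP]
      simp only
      rw [h]
      exact (hball s hs).1
  have hr2 : 0 < r ^ 2 := by positivity
  refine ⟨P, ?_, ?_⟩
  · apply Complex.analyticAt_of_differentiable_on_punctured_nhds_of_continuousAt
    · rw [eventually_nhdsWithin_iff]
      filter_upwards [Metric.ball_mem_nhds (0:ℂ) hr2] with w hw hw0
      have hw0' : w ≠ 0 := hw0
      set t : ℂ := w ^ (1 / 2 : ℂ) with ht
      have ht2 : t ^ 2 = w := hsqrt w
      have ht0 : t ≠ 0 := by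
        intro h
        rw [h] at ht2
        apply hw0'
        rw [← ht2]
        ring
      have htb : t ∈ ball (0:ℂ) r := by
        rw [mem_ball_zero_iff]
        rw [mem_ball_zero_iff, ← ht2, norm_pow] at hw
        exact lt_of_pow_lt_pow_left₀ 2 hr.le hw
      have hsq : AnalyticAt ℂ (fun s : ℂ => s ^ 2) t := by fun_prop
      have hd : deriv (fun s : ℂ => s ^ 2) t ≠ 0 := by
        simp [ht0]
      have hcomp : AnalyticAt ℂ (P ∘ fun s : ℂ => s ^ 2) t := by
        apply (hball t htb).2.congr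
        filter_upwards [isOpen_ball.mem_nhds htb] with s hs
        exact (hPs s hs).symm
      have h2 : AnalyticAt ℂ P (t ^ 2) := (analyticAt_comp_iff_of_deriv_ne_zero hsq hd).mp hcomp
      rw [ht2] at h2
      exact h2.differentiableAt
    · have h1 : ContinuousAt (fun w : ℂ => w ^ (1 / 2 : ℂ)) 0 :=
        Complex.continuousAt_cpow_const_of_re_pos (Or.inl (le_refl _)) (by norm_num)
      have h2 : (0:ℂ) ^ (1 / 2 : ℂ) = 0 := by
        apply Complex.zero_cpow
        norm_num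
      have h3 : ContinuousAt k ((0:ℂ) ^ (1 / 2 : ℂ)) := by
        rw [h2]
        exact hk.continuousAt
      exact ContinuousAt.comp (f := fun w : ℂ => w ^ (1 / 2 : ℂ)) h3 h1
  · filter_upwards [Metric.ball_mem_nhds (0:ℂ) hr] with s hs
    exact (hPs s hs).symm

/-- a square root of `z - a` at a critical point of order two -/
theorem exists_sqrt {z : ℂ → ℂ} {a : ℂ} (hz : AnalyticAt ℂ z 0)
    (hz1 : deriv z 0 = 0) (hz2 : deriv (deriv z) 0 ≠ 0) (ha : z 0 = a) :
    ∃ σ : ℂ → ℂ, AnalyticAt ℂ σ 0 ∧ σ 0 = 0 ∧ deriv σ 0 ≠ 0 ∧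
      ∀ᶠ η in 𝓝 (0:ℂ), σ η ^ 2 = z η - a := by
  have h1 : analyticOrderAt (deriv z) 0 = 1 :=
    hz.deriv.analyticOrderAt_eq_one_of_zero_deriv_ne_zero hz1 hz2
  have h2 : analyticOrderAt (fun η => z η - z 0) 0 = ((2 : ℕ) : ℕ∞) := by
    rw [← hz.analyticOrderAt_deriv_add_one, h1]
    norm_num
  have hza : AnalyticAt ℂ (fun η => z η - z 0) 0 := by fun_prop
  obtain ⟨g, hg, hg0, hgz⟩ := hza.analyticOrderAt_eq_natCast.mp h2
  obtain ⟨s0, hs0⟩ := IsAlgClosed.exists_pow_nat_eq (g 0) (n := 2) (by norm_num)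
  have hs00 : s0 ≠ 0 := by
    intro h
    rw [h] at hs0
    apply hg0
    rw [← hs0]
    ring
  set u : ℂ → ℂ := fun η => s0 * Complex.exp (Complex.log (g η / g 0) / 2) with hu
  have hgg : g 0 / g 0 ∈ Complex.slitPlane := by
    rw [div_self hg0]
    exact Complex.one_mem_slitPlane
  have hgd : AnalyticAt ℂ (fun η => g η / g 0) 0 := by fun_prop
  have hua : AnalyticAt ℂ u 0 := by
    have h3 : AnalyticAt ℂ (fun η => Complex.log (g η / g 0)) 0 := hgd.clog hgg
    have h4 : AnalyticAt ℂ (fun η => Complex.exp (Complex.log (g η / g 0) / 2)) 0 := by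
      apply AnalyticAt.cexp
      fun_prop
    exact analyticAt_const.mul h4
  have hu0 : u 0 = s0 := by
    rw [hu]
    simp only
    rw [div_self hg0, Complex.log_one, zero_div, Complex.exp_zero, mul_one]
  refine ⟨fun η => η * u η, analyticAt_id.mul hua, by simp, ?_, ?_⟩
  · have h5 : HasDerivAt (fun η => η * u η) (1 * u 0 + 0 * deriv u 0) 0 :=
      (hasDerivAt_id (0:ℂ)).mul hua.differentiableAt.hasDerivAt
    rw [h5.deriv, hu0]
    simpa using hs00
  · have hne : ∀ᶠ η in 𝓝 (0:ℂ), g η ≠ 0 := hg.continuousAt.eventually_ne hg0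
    filter_upwards [hgz, hne] with η hη hgη
    have h6 : g η / g 0 ≠ 0 := div_ne_zero hgη hg0
    have h7 : (Complex.exp (Complex.log (g η / g 0) / 2)) ^ 2 = g η / g 0 := by
      rw [← Complex.exp_nat_mul]
      have : ((2 : ℕ) : ℂ) * (Complex.log (g η / g 0) / 2) = Complex.log (g η / g 0) := by
        push_cast
        ring
      rw [this, Complex.exp_log h6]
    rw [← ha, hη, mul_pow, hu]
    simp only
    rw [mul_pow, h7, hs0, sub_zero, smul_eq_mul]
    field_simp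

end Desc

theorem analytic_descend {z K τ : ℂ → ℂ} {a : ℂ} (hz : AnalyticAt ℂ z 0) (hK : AnalyticAt ℂ K 0)
    (hz1 : deriv z 0 = 0) (hz2 : deriv (deriv z) 0 ≠ 0) (ha : z 0 = a)
    (hτ : AnalyticAt ℂ τ 0) (hτ0 : τ 0 = 0) (hτ1 : deriv τ 0 = -1)
    (hzτ : ∀ᶠ η in 𝓝 (0:ℂ), z (τ η) = z η) (hKτ : ∀ᶠ η in 𝓝 (0:ℂ), K (τ η) = K η) :
    ∃ F : ℂ → ℂ, AnalyticAt ℂ F a ∧ ∀ᶠ η in 𝓝 (0:ℂ), K η = F (z η) := by
  obtain ⟨σ, hσ, hσ0, hσ1, hσz⟩ := Desc.exists_sqrt hz hz1 hz2 ha
  have hτt : Tendsto τ (𝓝 0) (𝓝 0) := by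
    have := hτ.continuousAt.tendsto
    rwa [hτ0] at this
  have hστ : AnalyticAt ℂ (fun η => σ (τ η)) 0 := by
    apply AnalyticAt.fun_comp (f := τ) _ hτ
    rw [hτ0]
    exact hσ
  have hdστ : deriv (fun η => σ (τ η)) 0 = - deriv σ 0 := by
    have h1 : HasDerivAt σ (deriv σ 0) (τ 0) := by
      rw [hτ0]
      exact hσ.differentiableAt.hasDerivAt
    have h2 : HasDerivAt τ (deriv τ 0) 0 := hτ.differentiableAt.hasDerivAt
    have h3 : HasDerivAt (fun η => σ (τ η)) (deriv σ 0 * deriv τ 0) 0 := h1.comp 0 h2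
    rw [h3.deriv, hτ1]
    ring
  -- the two factors
  have hf1 : AnalyticAt ℂ (fun η => σ (τ η) - σ η) 0 := hστ.sub hσ
  have hf1d : deriv (fun η => σ (τ η) - σ η) 0 ≠ 0 := by
    have h1 := (hστ.differentiableAt.hasDerivAt.sub hσ.differentiableAt.hasDerivAt).deriv
    rw [hdστ] at h1
    intro h
    have h2 : deriv (fun η => σ (τ η) - σ η) 0 = -deriv σ 0 - deriv σ 0 := h1
    rw [h2] at h
    apply hσ1
    linear_combination (-1 / 2 : ℂ) * h
  have hprod : ∀ᶠ η in 𝓝 (0:ℂ), (σ (τ η) - σ η) * (σ (τ η) + σ η) = 0 := by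
    filter_upwards [hσz, hτt.eventually hσz, hzτ] with η h1 h2 h3
    have : σ (τ η) ^ 2 = σ η ^ 2 := by rw [h1, h2, h3]
    linear_combination this
  have hanti : ∀ᶠ η in 𝓝 (0:ℂ), σ (τ η) = - σ η := by
    have hne : ∀ᶠ η in 𝓝[≠] (0:ℂ), σ (τ η) - σ η ≠ 0 := by
      rcases hf1.eventually_eq_zero_or_eventually_ne_zero with h | h
      · exfalso
        apply hf1d
        have h4 : (fun η => σ (τ η) - σ η) =ᶠ[𝓝 0] fun _ => (0:ℂ) := h
        rw [h4.deriv_eq]
        simp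
      · exact h
    have h5 : ∀ᶠ η in 𝓝[≠] (0:ℂ), σ (τ η) = - σ η := by
      filter_upwards [hne, hprod.filter_mono nhdsWithin_le_nhds] with η h1 h2
      rcases mul_eq_zero.mp h2 with h | h
      · exact absurd h h1
      · linear_combination h
    rw [eventually_nhdsWithin_iff] at h5
    filter_upwards [h5] with η h6
    by_cases h0 : η = 0
    · rw [h0, hτ0, hσ0]
      simp
    · exact h6 h0
  -- the local inverse
  set ψ : ℂ → ℂ := hσ.hasStrictDerivAt.localInverse _ _ _ hσ1 with hψ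
  have hψa : AnalyticAt ℂ ψ 0 := by
    have := hσ.analyticAt_localInverse hσ1
    rwa [hσ0] at this
  have hψl : ∀ᶠ η in 𝓝 (0:ℂ), ψ (σ η) = η := HasStrictDerivAt.eventually_left_inverse ..
  have hψr : ∀ᶠ s in 𝓝 (0:ℂ), σ (ψ s) = s := by
    have := HasStrictDerivAt.eventually_right_inverse hσ.hasStrictDerivAt hσ1
    rwa [hσ0] at this
  have hψ0 : ψ 0 = 0 := by
    have := hψl.self_of_nhds
    rwa [hσ0] at this
  have hψt : Tendsto ψ (𝓝 0) (𝓝 0) := by
    have := hψa.continuousAt.tendsto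
    rwa [hψ0] at this
  have hσt : Tendsto σ (𝓝 0) (𝓝 0) := by
    have := hσ.continuousAt.tendsto
    rwa [hσ0] at this
  have hψn : ∀ᶠ s in 𝓝 (0:ℂ), ψ (-s) = τ (ψ s) := by
    filter_upwards [hψr, hψt.eventually hanti, (hτt.comp hψt).eventually hψl] with s h1 h2 h3
    have h4 : σ (τ (ψ s)) = -s := by rw [h2, h1]
    have h5 : ψ (σ (τ (ψ s))) = τ (ψ s) := h3
    rw [h4] at h5
    exact h5
  have hk : AnalyticAt ℂ (fun s => K (ψ s)) 0 := by
    apply AnalyticAt.fun_comp (f := ψ) _ hψa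
    rw [hψ0]
    exact hK
  have hke : ∀ᶠ s in 𝓝 (0:ℂ), (fun s => K (ψ s)) (-s) = (fun s => K (ψ s)) s := by
    filter_upwards [hψn, hψt.eventually hKτ] with s h1 h2
    rw [h1, h2]
  obtain ⟨P, hP, hPk⟩ := Desc.even_descend hk hke
  refine ⟨fun w => P (w - a), ?_, ?_⟩
  · apply AnalyticAt.fun_comp (f := fun w => w - a)
    · rw [sub_self]
      exact hP
    · fun_prop
  · filter_upwards [hψl, hσt.eventually hPk, hσz] with η h1 h2 h3
    rw [h1] at h2
    rw [h2, h3]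

end Pool.Agent.MP_ae5b4e_an_HYP
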