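import Mathlib
import Pool.Agent.Lib.MP_ae5b4e_an_HYP.Defs
import Pool.Agent.Lib.MP_ae5b4e_an_HYP.Rat
import Pool.Agent.Lib.MP_ae5b4e_an_HYP.Dom
import Pool.Agent.Lib.MP_ae5b4e_an_HYP.Inv
import Pool.Agent.Lib.MP_ae5b4e_an_HYP.Cont

/-! # MP_ae5b4e_an, project HYP, module H7: growth and contradiction -/

set_option autoImplicit false

noncomputable section

namespace Pool.Agent.MP_ae5b4e_an_HYP

open Filter Topology Set Metric
open scoped ComplexConjugate

variable {r : ℕ}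

/-- an entire function with a zero of order `k` and growth of order less than `k` vanishes -/
theorem liouville_zero {G G₁ : ℂ → ℂ} {a : ℂ} {k : ℕ} {s K : ℝ} (hG₁ : Differentiable ℂ G₁)
    (h : ∀ z, G z = (z - a) ^ k * G₁ z) (hs : s < k)
    (hK : ∀ᶠ z in Bornology.cobounded ℂ, ‖G z‖ ≤ K * ‖z‖ ^ s) : ∀ z, G z = 0 := by
  have hbig : ∀ M : ℝ, ∀ᶠ z : ℂ in Bornology.cobounded ℂ, M ≤ ‖z‖ := fun M =>
    (tendsto_norm_cobounded_atTop (E := ℂ)).eventually_ge_atTop M
  have h1 : ∀ᶠ z in Bornology.cobounded ℂ, ‖G₁ z‖ ≤ |K| * 2 ^ k * ‖z‖ ^ (s - k) := by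
    filter_upwards [hK, hbig (2 * ‖a‖), hbig 1] with z hz hza hz1
    have hzpos : 0 < ‖z‖ := by linarith
    have h2 : ‖z‖ / 2 ≤ ‖z - a‖ := by
      have h3 := norm_sub_norm_le z a
      linarith
    have h4 : (‖z‖ / 2) ^ k ≤ ‖z - a‖ ^ k := pow_le_pow_left₀ (by positivity) h2 k
    have h5 : ‖G z‖ = ‖z - a‖ ^ k * ‖G₁ z‖ := by
      rw [h z, norm_mul, norm_pow]
    have h6 : (‖z‖ / 2) ^ k * ‖G₁ z‖ ≤ |K| * ‖z‖ ^ s := by
      calc (‖z‖ / 2) ^ k * ‖G₁ z‖ ≤ ‖z - a‖ ^ k * ‖G₁ z‖ :=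
            mul_le_mul_of_nonneg_right h4 (norm_nonneg _)
        _ = ‖G z‖ := h5.symm
        _ ≤ K * ‖z‖ ^ s := hz
        _ ≤ |K| * ‖z‖ ^ s := mul_le_mul_of_nonneg_right (le_abs_self K) (by positivity)
    have h7 : ‖z‖ ^ (s - k) = ‖z‖ ^ s / ‖z‖ ^ k := by
      rw [Real.rpow_sub hzpos, Real.rpow_natCast]
    rw [h7]
    have h8 : (0:ℝ) < ‖z‖ ^ k := by positivity
    rw [div_pow] at h6
    have h9 : ‖G₁ z‖ ≤ |K| * ‖z‖ ^ s / (‖z‖ ^ k / 2 ^ k) := by
      rw [le_div_iff₀ (by positivity)]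
      linarith
    refine h9.trans_eq ?_
    field_simp
  have h2 : Tendsto (fun z : ℂ => |K| * 2 ^ k * ‖z‖ ^ (s - k)) (Bornology.cobounded ℂ) (𝓝 0) := by
    have h3 : Tendsto (fun x : ℝ => x ^ (-((k:ℝ) - s))) atTop (𝓝 0) :=
      tendsto_rpow_neg_atTop (by linarith)
    have h4 := (h3.comp (tendsto_norm_cobounded_atTop (E := ℂ))).const_mul (|K| * 2 ^ k)
    rw [mul_zero] at h4
    refine h4.congr fun z => ?_
    simp only [Function.comp]
    rw [neg_sub]
  have h3 : Tendsto G₁ (Bornology.cobounded ℂ) (𝓝 0) := squeeze_zero_norm' h1 h2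
  rw [Metric.cobounded_eq_cocompact] at h3
  have h4 := hG₁.eq_const_of_tendsto_cocompact h3
  intro z
  rw [h z, h4]
  simp

namespace End

/-- two analytic functions on a convex open set which agree at all large points agree, if the set
contains arbitrarily large points -/
theorem id_of_large {f g : ℂ → ℂ} {S : Set ℂ} (hS : Convex ℝ S)
    (hf : ∀ V ∈ S, AnalyticAt ℂ f V) (hg : ∀ V ∈ S, AnalyticAt ℂ g V)
    (hfg : ∀ᶠ V in Bornology.cobounded ℂ, f V = g V)
    (hbig : ∃ᶠ V in Bornology.cobounded ℂ, V ∈ S) : ∀ V ∈ S, f V = g V := by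
  obtain ⟨M, hM⟩ : ∃ M : ℝ, ∀ V : ℂ, M < ‖V‖ → f V = g V := by
    obtain ⟨M, -, hM⟩ := (Filter.hasBasis_cobounded_norm (E := ℂ)).eventually_iff.1 hfg
    exact ⟨M, fun V hV => hM (le_of_lt hV)⟩
  obtain ⟨V₀, hV₀, hV₀'⟩ := (hbig.and_eventually
    ((tendsto_norm_cobounded_atTop (E := ℂ)).eventually_gt_atTop M)).exists
  have h1 : ∀ᶠ V in 𝓝 V₀, f V = g V := by
    filter_upwards [(isOpen_lt continuous_const continuous_norm).mem_nhds hV₀'] with V hV
    exact hM V hV
  have h2 := AnalyticOnNhd.eqOn_of_preconnected_of_eventuallyEq (f := f) (g := g) (U := S) hf hg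
    hS.isPreconnected hV₀ h1
  exact fun V hV => h2 hV

theorem tendsto_shift (c : ℂ) :
    Tendsto (fun V : ℂ => c - V) (Bornology.cobounded ℂ) (Bornology.cobounded ℂ) := by
  rw [← tendsto_norm_atTop_iff_cobounded]
  apply Filter.tendsto_atTop_mono (f := fun V : ℂ => ‖V‖ - ‖c‖)
  · intro V
    have := norm_sub_norm_le V c
    rw [norm_sub_rev c V]
    exact this
  · exact Filter.tendsto_atTop_add_const_right _ _ (tendsto_norm_cobounded_atTop (E := ℂ))

/-- the functional equation for the entire function, at all large points -/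
theorem flip_large {d : ℂ} {F G : ℂ → ℂ} (h : HypSol r d F)
    (hG : ∀ᶠ z in 𝓝 (1:ℂ), G z = F z) : ∀ᶠ V in Bornology.cobounded ℂ,
    chi d V * G (Rr r V) = chi d (-2 * cen r d - V) * G (Rr r (-2 * cen r d - V)) := by
  have h1 : ∀ᶠ V in Bornology.cobounded ℂ, G (Rr r V) = F (Rr r V) :=
    (Rr_inf (r := r)).eventually hG
  have h2 : ∀ᶠ V in Bornology.cobounded ℂ, G (Rr r (-2 * cen r d - V)) =
      F (Rr r (-2 * cen r d - V)) := (tendsto_shift (-2 * cen r d)).eventually h1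
  filter_upwards [h1, h2, h.flip] with V h3 h4 h5
  rw [h3, h4, h5]

theorem side_analytic {d : ℂ} {G : ℂ → ℂ} (hG : Differentiable ℂ G) {V : ℂ}
    (hV : 0 < V.re ∨ V.re < -1) : AnalyticAt ℂ (fun V => chi d V * G (Rr r V)) V := by
  have h0 : V ≠ 0 := by
    rintro rfl
    rcases hV with h | h
    · simp at h
    · simp only [Complex.zero_re] at h
      linarith
  have h1 : AnalyticAt ℂ (fun V => G (Rr r V)) V :=
    (hG.analyticAt (Rr r V)).comp (Rr_analytic h0)
  exact (chi_analytic hV).mul h1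

theorem side_analytic' {d : ℂ} {G : ℂ → ℂ} (hG : Differentiable ℂ G) {V : ℂ}
    (hV : 0 < (-2 * cen r d - V).re ∨ (-2 * cen r d - V).re < -1) :
    AnalyticAt ℂ (fun V => chi d (-2 * cen r d - V) * G (Rr r (-2 * cen r d - V))) V := by
  have h1 : AnalyticAt ℂ (fun V : ℂ => -2 * cen r d - V) V := analyticAt_const.sub analyticAt_id
  exact (side_analytic (r := r) (d := d) hG hV).comp (g := fun V => chi d V * G (Rr r V))
    (f := fun V : ℂ => -2 * cen r d - V) h1

theorem bdd_of_continuousAt {f : ℂ → ℂ} {a : ℂ} (h : ContinuousAt f a) :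
    ∃ K : ℝ, 0 < K ∧ ∀ᶠ z in 𝓝 a, ‖f z‖ ≤ K := by
  refine ⟨‖f a‖ + 1, by positivity, ?_⟩
  have h1 : ∀ᶠ z in 𝓝 a, ‖f z‖ < ‖f a‖ + 1 := h.norm.eventually (gt_mem_nhds (by linarith))
  exact h1.mono fun z hz => hz.le

/-- the growth of the entire function -/
theorem growth (hr : 3 ≤ r) {d : ℂ} {F G : ℂ → ℂ} (h : HypSol r d F)
    (hc : 65 / 100 < (cen r d).re) (hd : 0 < d.re) (hG : Differentiable ℂ G)
    (hGF : ∀ᶠ z in 𝓝 (1:ℂ), G z = F z) :
    ∃ K : ℝ, ∀ᶠ z in Bornology.cobounded ℂ, ‖G z‖ ≤ K * ‖z‖ ^ (2 * d.re / (r + 1)) := by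
  obtain ⟨g, hg⟩ := exists_inv (r := r) (by omega)
  set c := cen r d with hcdef
  -- the identity on the right half plane
  have hid1 : ∀ V ∈ {V : ℂ | 0 < V.re}, chi d V * G (Rr r V) =
      chi d (-2 * c - V) * G (Rr r (-2 * c - V)) := by
    refine id_of_large (f := fun V => chi d V * G (Rr r V))
      (g := fun V => chi d (-2 * c - V) * G (Rr r (-2 * c - V)))
      (convex_halfSpace_re_gt 0)
      (fun V hV => side_analytic hG (Or.inl hV)) (fun V hV => side_analytic' hG (Or.inr ?_))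
      (flip_large h hGF) ?_
    · have h1 : (0:ℝ) < V.re := hV
      simp only [Complex.sub_re, Complex.mul_re, Complex.neg_re, Complex.neg_im,
        Complex.re_ofNat, Complex.im_ofNat]
      simp only [neg_zero, zero_mul, sub_zero]
      linarith
    · have h1 : Tendsto (fun x : ℝ => (x : ℂ)) atTop (Bornology.cobounded ℂ) := by
        rw [← tendsto_norm_atTop_iff_cobounded]
        simp only [Complex.norm_real]
        exact tendsto_norm_atTop_atTop
      refine h1.frequently ?_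
      refine Filter.Eventually.frequently ?_
      filter_upwards [Filter.eventually_gt_atTop (0:ℝ)] with x hx
      simpa using hx
  -- bound of the right side near `0`
  have hre : (-2 * c).re < -1 := by
    simp only [Complex.mul_re, Complex.neg_re, Complex.neg_im, Complex.re_ofNat,
      Complex.im_ofNat]
    simp only [neg_zero, zero_mul, sub_zero]
    linarith
  obtain ⟨K₁, hK₁, hb⟩ := bdd_of_continuousAt (a := 0)
    (side_analytic' (r := r) (d := d) (V := 0) hG (Or.inr (by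
      rw [sub_zero]; exact hre))).continuousAt
  obtain ⟨K₂, hK₂, hch⟩ := chi_lower d
  refine ⟨K₁ * K₂, ?_⟩
  have hne1 : ∀ᶠ z : ℂ in Bornology.cobounded ℂ, z ≠ 1 := by
    filter_upwards [(tendsto_norm_cobounded_atTop (E := ℂ)).eventually_gt_atTop 1] with z hz h1
    rw [h1] at hz
    simp at hz
  have hsmall : ∀ᶠ z : ℂ in Bornology.cobounded ℂ, ‖g z‖ < 1 := by
    have h1 := hg.zero.norm
    rw [norm_zero] at h1
    exact h1.eventually (gt_mem_nhds one_pos)
  filter_upwards [hne1, hsmall, hg.zero.eventually hb,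
    (tendsto_norm_cobounded_atTop (E := ℂ)).eventually_gt_atTop 0] with z hz1 hV1 hbz hz0
  obtain ⟨hEC, hRr⟩ := inv_EC hg hz1
  have hVre : 0 < (g z).re := EC_re hEC
  have hV0 : g z ≠ 0 := by
    intro h0
    rw [h0] at hVre
    simp at hVre
  have hVpos : 0 < ‖g z‖ := norm_pos_iff.2 hV0
  have h1 := hid1 (g z) hVre
  rw [hRr] at h1
  have h2 : ‖chi d (g z)‖ * ‖G z‖ ≤ K₁ := by
    rw [← norm_mul, h1]
    exact hbz
  have h3 := hch (g z) hVre hV1.le
  have h4 : 0 < ‖chi d (g z)‖ := norm_pos_iff.2 (chi_ne d (g z))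
  have h5 : 0 < ‖g z‖ ^ (2 * d.re) := Real.rpow_pos_of_pos hVpos _
  have h6 : ‖g z‖ ^ (2 * d.re) * ‖G z‖ ≤ K₁ * K₂ := by
    calc ‖g z‖ ^ (2 * d.re) * ‖G z‖ ≤ (K₂ * ‖chi d (g z)‖) * ‖G z‖ :=
          mul_le_mul_of_nonneg_right h3 (norm_nonneg _)
      _ = K₂ * (‖chi d (g z)‖ * ‖G z‖) := by ring
      _ ≤ K₂ * K₁ := mul_le_mul_of_nonneg_left h2 hK₂.le
      _ = K₁ * K₂ := by ring
  -- `‖z‖ * ‖V‖ ^ (r + 1) ≥ 1`
  have h7 : 1 ≤ ‖z‖ * ‖g z‖ ^ (r + 1) := by
    have h8 : ‖z‖ * ‖g z‖ ^ (r + 1) = ‖g z - r‖ * ‖g z + 1‖ ^ r := by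
      have h8' : ‖z‖ = ‖Rr r (g z)‖ := by rw [hRr]
      rw [h8']
      unfold Rr
      rw [norm_div, norm_mul, norm_pow, norm_pow]
      field_simp
    rw [h8]
    have h9 : 1 ≤ ‖g z - r‖ := by
      have h10 := norm_sub_norm_le (r:ℂ) (g z)
      rw [norm_sub_rev, Complex.norm_natCast] at h10
      have h11 : (3:ℝ) ≤ r := by exact_mod_cast hr
      linarith
    have h10 : 1 ≤ ‖g z + 1‖ := by
      have h11 := Complex.re_le_norm (g z + 1)
      rw [Complex.add_re, Complex.one_re] at h11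
      linarith
    calc (1:ℝ) = 1 * 1 ^ r := by simp
      _ ≤ ‖g z - r‖ * ‖g z + 1‖ ^ r :=
        mul_le_mul h9 (pow_le_pow_left₀ zero_le_one h10 r) (by positivity) (by positivity)
  have hr1 : (0:ℝ) < (r:ℝ) + 1 := by positivity
  have h8 : 1 ≤ ‖z‖ ^ (2 * d.re / (r + 1)) * ‖g z‖ ^ (2 * d.re) := by
    have h9 := Real.rpow_le_rpow zero_le_one h7 (z := 2 * d.re / (r + 1))
      (div_nonneg (by linarith) hr1.le)
    rw [Real.one_rpow, Real.mul_rpow (norm_nonneg _) (by positivity), ← Real.rpow_natCast,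
      ← Real.rpow_mul (norm_nonneg _)] at h9
    have h10 : ((r + 1 : ℕ) : ℝ) * (2 * d.re / (r + 1)) = 2 * d.re := by
      push_cast
      field_simp
    rw [h10] at h9
    exact h9
  calc ‖G z‖ = 1 * ‖G z‖ := (one_mul _).symm
    _ ≤ (‖z‖ ^ (2 * d.re / (r + 1)) * ‖g z‖ ^ (2 * d.re)) * ‖G z‖ :=
      mul_le_mul_of_nonneg_right h8 (norm_nonneg _)
    _ = ‖z‖ ^ (2 * d.re / (r + 1)) * (‖g z‖ ^ (2 * d.re) * ‖G z‖) := by ring
    _ ≤ ‖z‖ ^ (2 * d.re / (r + 1)) * (K₁ * K₂) :=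
      mul_le_mul_of_nonneg_left h6 (Real.rpow_nonneg (norm_nonneg _) _)
    _ = K₁ * K₂ * ‖z‖ ^ (2 * d.re / (r + 1)) := by ring

/-- an entire function which is not zero near `0` is a power times an entire function which does
not vanish at `0` -/
theorem factor_zero {G : ℂ → ℂ} (hG : Differentiable ℂ G) (h0 : ¬ ∀ᶠ z in 𝓝 (0:ℂ), G z = 0) :
    ∃ (k : ℕ) (G₁ : ℂ → ℂ), Differentiable ℂ G₁ ∧ G₁ 0 ≠ 0 ∧ ∀ z, G z = (z - 0) ^ k * G₁ z := by
  obtain ⟨k, g, hg, hg0, hgG⟩ :=
    (hG.analyticAt 0).exists_eventuallyEq_pow_smul_nonzero_iff.2 h0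
  refine ⟨k, fun z => if z = 0 then g 0 else G z / z ^ k, ?_, ?_, ?_⟩
  · intro z
    by_cases hz : z = 0
    · subst hz
      refine DifferentiableAt.congr_of_eventuallyEq hg.differentiableAt ?_
      filter_upwards [hgG] with w hw
      by_cases hw0 : w = 0
      · simp [hw0]
      · rw [if_neg hw0, hw, sub_zero, smul_eq_mul, mul_div_cancel_left₀ _ (pow_ne_zero k hw0)]
    · have h1 : DifferentiableAt ℂ (fun z => G z / z ^ k) z :=
        (hG z).div (differentiableAt_id.pow k) (pow_ne_zero k hz)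
      refine h1.congr_of_eventuallyEq ?_
      filter_upwards [isOpen_ne.mem_nhds hz] with w hw
      rw [if_neg hw]
  · simp [hg0]
  · intro z
    by_cases hz : z = 0
    · subst hz
      have h1 := hgG.self_of_nhds
      simpa using h1
    · simp only [if_neg hz, sub_zero]
      rw [mul_div_cancel₀ _ (pow_ne_zero k hz)]

end End

theorem hyp_bound (hr : 3 ≤ r) {d : ℂ} {F : ℂ → ℂ} (h : HypSol r d F) :
    (cen r d).re ≤ 65 / 100 := by
  by_contra hcon
  push Not at hcon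
  obtain ⟨G, hG, hGF⟩ := entire hr hcon h
  have hr3 : (3:ℝ) ≤ r := by exact_mod_cast hr
  have hdc : d.re = (cen r d).re + ((r:ℝ) - 1) / 3 := by
    have h1 : cen r d = d - (((r:ℝ) - 1) / 3 : ℝ) := by
      unfold cen
      push_cast
      ring
    rw [h1, Complex.sub_re, Complex.ofReal_re]
    ring
  have hd : 0 < d.re := by
    rw [hdc]
    have : 0 ≤ ((r:ℝ) - 1) / 3 := by
      apply div_nonneg <;> linarith
    linarith
  obtain ⟨K, hK⟩ := End.growth hr h hcon hd hG hGF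
  -- `G` is not zero
  have hGne : ¬ ∀ z, G z = 0 := by
    intro h0
    apply h.nz
    filter_upwards [hGF] with z hz
    rw [← hz, h0 z]
  have hr1 : (0:ℝ) < (r:ℝ) + 1 := by positivity
  rcases le_or_gt (cen r d).re 1 with hc1 | hc1
  · -- a zero at `1` is enough
    have hG1 : G 1 = 0 := by
      rw [hGF.self_of_nhds, h.zero]
    have h1 : Differentiable ℂ (dslope G 1) := by
      rw [← differentiableOn_univ]
      exact (Complex.differentiableOn_dslope Filter.univ_mem).2 hG.differentiableOn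
    apply hGne
    refine liouville_zero (G₁ := dslope G 1) (a := 1) (k := 1) (s := 2 * d.re / (r + 1))
      (K := K) h1 ?_ ?_ hK
    · intro z
      have h2 := sub_smul_dslope G 1 z
      rw [hG1, sub_zero, smul_eq_mul] at h2
      rw [pow_one, h2]
    · rw [Nat.cast_one, div_lt_one hr1, hdc]
      linarith
  · have h0 : ¬ ∀ᶠ z in 𝓝 (0:ℂ), G z = 0 := by
      intro h1
      apply hGne
      intro z
      have h2 := AnalyticOnNhd.eq_of_eventuallyEq (f := G) (g := fun _ => 0)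
        (fun z _ => hG.analyticAt z) (fun z _ => analyticAt_const) (z₀ := 0) h1
      exact congrFun h2 z
    obtain ⟨k, G₁, hG₁, hG₁0, hfac⟩ := End.factor_zero hG h0
    apply hGne
    refine liouville_zero (k := k) (s := 2 * d.re / (r + 1)) hG₁ hfac ?_ hK
    -- the identity on the strip
    set c := cen r d with hcdef
    have hre2 : (-2 * c).re = -2 * c.re := by
      simp only [Complex.mul_re, Complex.neg_re, Complex.neg_im, Complex.re_ofNat,
        Complex.im_ofNat]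
      simp
    have hid2 : ∀ V ∈ {V : ℂ | 1 - 2 * c.re < V.re} ∩ {V : ℂ | V.re < -1},
        chi d V * G (Rr r V) = chi d (-2 * c - V) * G (Rr r (-2 * c - V)) := by
      refine End.id_of_large (f := fun V => chi d V * G (Rr r V))
        (g := fun V => chi d (-2 * c - V) * G (Rr r (-2 * c - V)))
        ((convex_halfSpace_re_gt _).inter (convex_halfSpace_re_lt _))
        (fun V hV => End.side_analytic hG (Or.inr hV.2))
        (fun V hV => End.side_analytic' hG (Or.inr ?_)) (End.flip_large h hGF) ?_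
      · have h1 : 1 - 2 * c.re < V.re := hV.1
        rw [Complex.sub_re, hre2]
        linarith
      · have h1 : Tendsto (fun y : ℝ => (⟨-c.re, y⟩ : ℂ)) atTop (Bornology.cobounded ℂ) := by
          rw [← tendsto_norm_atTop_iff_cobounded]
          apply Filter.tendsto_atTop_mono (f := fun y : ℝ => y)
          · intro y
            exact (le_abs_self y).trans (Complex.abs_im_le_norm ⟨-c.re, y⟩)
          · exact tendsto_id
        refine h1.frequently (Filter.Eventually.frequently ?_)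
        refine Filter.Eventually.of_forall fun y => ⟨?_, ?_⟩
        · simp only [Set.mem_ofPred_eq]
          linarith
        · simp only [Set.mem_ofPred_eq]
          linarith
    -- the right side is bounded near `-1`
    obtain ⟨K₂, hK₂, hb⟩ := End.bdd_of_continuousAt (a := -1)
      (End.side_analytic' (r := r) (d := d) (V := -1) hG (Or.inr (by
        rw [Complex.sub_re, ← hcdef, hre2, Complex.neg_re, Complex.one_re]
        linarith))).continuousAt
    have hG₁c : ∀ᶠ z in 𝓝 (0:ℂ), ‖G₁ 0‖ / 2 ≤ ‖G₁ z‖ := by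
      have h1 : ContinuousAt (fun z => ‖G₁ z‖) 0 := (hG₁ 0).continuousAt.norm
      have h2 : ‖G₁ 0‖ / 2 < ‖G₁ 0‖ := by
        have := norm_pos_iff.2 hG₁0
        linarith
      exact (h1.eventually (lt_mem_nhds h2)).mono fun z hz => hz.le
    -- the path
    have hpath : Tendsto (fun ε : ℝ => (-1 - ε : ℂ)) (𝓝[>] 0) (𝓝 (-1)) := by
      have h1 : Continuous fun ε : ℝ => (-1 - ε : ℂ) := by fun_prop
      have h2 := h1.tendsto 0
      simp only [Complex.ofReal_zero, sub_zero] at h2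
      exact h2.mono_left nhdsWithin_le_nhds
    have hpathR : Tendsto (fun ε : ℝ => Rr r (-1 - ε : ℂ)) (𝓝[>] 0) (𝓝 0) := by
      have h1 : Tendsto (Rr r) (𝓝 (-1)) (𝓝 (Rr r (-1))) :=
        (Rr_analytic (r := r) (V := -1) (by simp)).continuousAt
      have h2 : Rr r (-1) = 0 := (Rr_eq_zero (by omega) (by simp)).2 (Or.inr rfl)
      rw [h2] at h1
      exact h1.comp hpath
    have hev : ∀ᶠ ε : ℝ in 𝓝[>] 0,
        ε ^ ((r:ℝ) * k - 2 * d.re) * ((1 / 2 ^ (r + 1)) ^ k * (‖G₁ 0‖ / 2)) ≤ K₂ := by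
      have hlt1 : ∀ᶠ ε : ℝ in 𝓝[>] 0, ε < 1 :=
        nhdsWithin_le_nhds (gt_mem_nhds one_pos)
      have hlt2 : ∀ᶠ ε : ℝ in 𝓝[>] 0, ε < 2 * c.re - 2 :=
        nhdsWithin_le_nhds (gt_mem_nhds (by linarith))
      filter_upwards [hlt1, hlt2, hpath.eventually hb, hpathR.eventually hG₁c,
        self_mem_nhdsWithin] with ε he1 he2 hbε hGε hε
      have hε0 : 0 < ε := hε
      have h1 := hid2 (-1 - ε : ℂ) ⟨by
        simp only [Set.mem_ofPred_eq, Complex.sub_re, Complex.neg_re, Complex.one_re,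
          Complex.ofReal_re]
        linarith, by
        simp only [Set.mem_ofPred_eq, Complex.sub_re, Complex.neg_re, Complex.one_re,
          Complex.ofReal_re]
        linarith⟩
      have h2 : ‖chi d (-1 - ε)‖ * ‖G (Rr r (-1 - ε))‖ ≤ K₂ := by
        rw [← norm_mul, h1]
        exact hbε
      rw [chi_left d ε hε0, hfac, norm_mul, norm_pow, sub_zero] at h2
      have h3 : ‖Rr r (-1 - ε : ℂ)‖ = (1 + ε + r) * ε ^ r / (1 + ε) ^ (r + 1) := by
        unfold Rr
        rw [norm_div, norm_mul, norm_pow, norm_pow]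
        have h4 : ‖(-1 - ε - r : ℂ)‖ = 1 + ε + r := by
          have h5 : (-1 - ε - r : ℂ) = -((1 + ε + r : ℝ) : ℂ) := by push_cast; ring
          rw [h5, norm_neg, Complex.norm_real, Real.norm_eq_abs, abs_of_pos (by positivity)]
        have h5 : ‖(-1 - ε + 1 : ℂ)‖ = ε := by
          have h6 : (-1 - ε + 1 : ℂ) = -((ε : ℝ) : ℂ) := by ring
          rw [h6, norm_neg, Complex.norm_real, Real.norm_eq_abs, abs_of_pos hε0]
        have h6 : ‖(-1 - ε : ℂ)‖ = 1 + ε := by
          have h7 : (-1 - ε : ℂ) = -((1 + ε : ℝ) : ℂ) := by push_cast; ring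
          rw [h7, norm_neg, Complex.norm_real, Real.norm_eq_abs, abs_of_pos (by positivity)]
        rw [h4, h5, h6]
      have h4 : 1 / 2 ^ (r + 1) * ε ^ r ≤ ‖Rr r (-1 - ε : ℂ)‖ := by
        rw [h3, div_mul_eq_mul_div, one_mul]
        apply div_le_div₀ (by positivity) _ (by positivity)
        · exact pow_le_pow_left₀ (by positivity) (by linarith) _
        · have h5 : (0:ℝ) < ε ^ r := by positivity
          nlinarith
      have h5 : (1 / 2 ^ (r + 1)) ^ k * (ε ^ r) ^ k ≤ ‖Rr r (-1 - ε : ℂ)‖ ^ k := by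
        rw [← mul_pow]
        exact pow_le_pow_left₀ (by positivity) h4 k
      have h6 : ε ^ (-(2 * d.re)) ≤ ((1 + ε) / ε) ^ (2 * d.re) := by
        rw [Real.rpow_neg hε0.le, ← Real.inv_rpow hε0.le]
        apply Real.rpow_le_rpow (by positivity) _ (by linarith)
        rw [inv_eq_one_div]
        gcongr
        linarith
      have h7 : ε ^ ((r:ℝ) * k - 2 * d.re) = (ε ^ r) ^ k * ε ^ (-(2 * d.re)) := by
        rw [sub_eq_add_neg, Real.rpow_add hε0, Real.rpow_mul hε0.le, Real.rpow_natCast,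
          Real.rpow_natCast]
      rw [h7]
      calc (ε ^ r) ^ k * ε ^ (-(2 * d.re)) * ((1 / 2 ^ (r + 1)) ^ k * (‖G₁ 0‖ / 2))
          = ε ^ (-(2 * d.re)) * (((1 / 2 ^ (r + 1)) ^ k * (ε ^ r) ^ k) * (‖G₁ 0‖ / 2)) := by
            ring
        _ ≤ ((1 + ε) / ε) ^ (2 * d.re) * (‖Rr r (-1 - ε : ℂ)‖ ^ k *
            ‖G₁ (Rr r (-1 - ε : ℂ))‖) := by
            apply mul_le_mul h6 _ (by positivity) (by positivity)
            exact mul_le_mul h5 hGε (by positivity) (by positivity)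
        _ ≤ K₂ := h2
    -- conclusion
    by_contra hks
    push Not at hks
    have hneg : (r:ℝ) * k - 2 * d.re < 0 := by
      have h1 : (k:ℝ) * (r + 1) ≤ 2 * d.re := by
        rwa [le_div_iff₀ hr1] at hks
      rcases Nat.eq_zero_or_pos k with hk | hk
      · rw [hk]
        simp only [Nat.cast_zero, mul_zero, zero_sub]
        linarith
      · have h2 : (0:ℝ) < k := by exact_mod_cast hk
        nlinarith
    have hA : 0 < ((1:ℝ) / 2 ^ (r + 1)) ^ k * (‖G₁ 0‖ / 2) := by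
      have := norm_pos_iff.2 hG₁0
      positivity
    have htop : Tendsto (fun ε : ℝ => ε ^ ((r:ℝ) * k - 2 * d.re) *
        (((1:ℝ) / 2 ^ (r + 1)) ^ k * (‖G₁ 0‖ / 2))) (𝓝[>] 0) atTop := by
      apply Filter.Tendsto.atTop_mul_const hA
      exact tendsto_rpow_neg_nhdsGT_zero hneg
    obtain ⟨ε, h1, h2⟩ := (hev.and (htop.eventually_gt_atTop K₂)).exists
    exact absurd h1 (not_le.2 h2)

end Pool.Agent.MP_ae5b4e_an_HYP
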