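import Mathlib
import Pool.Agent.Lib.MP_ae5b4e_an_HYP.Defs
import Pool.Agent.Lib.MP_ae5b4e_an_GEN.Defs
import Pool.Agent.Lib.MP_ae5b4e_an_GEN.Psi
import Pool.Agent.Lib.MP_ae5b4e_an_GEN.Second

/-!
# MP_ae5b4e_an, project HYP, module G1: the first integral for all types `(a, b)`
-/

set_option autoImplicit false

noncomputable section

namespace Pool.Agent.MP_ae5b4e_an_HYP

open Filter Topology Set Metric
open scoped ComplexConjugate
open Pool.Agent.MP_ae5b4e_an_GEN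

namespace Exp

theorem div1 {f : ℂ → ℂ} (hf : AnalyticAt ℂ f 0) :
    ∃ g : ℂ → ℂ, AnalyticAt ℂ g 0 ∧ g 0 = deriv f 0 ∧ ∀ t, f t = f 0 + t * g t := by
  refine ⟨dslope f 0, ?_, dslope_same f 0, fun t => ?_⟩
  · obtain ⟨p, hp⟩ := hf
    exact ⟨_, hp.has_fpower_series_dslope_fslope⟩
  · have h := sub_smul_dslope f 0 t
    rw [sub_zero, smul_eq_mul] at h
    rw [h]
    ring

/-- two primitives with the same value at `0` agree near `0` -/
theorem eq_of_deriv {f g f' : ℂ → ℂ} (hf : ∀ᶠ z in 𝓝 (0:ℂ), HasDerivAt f (f' z) z)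
    (hg : ∀ᶠ z in 𝓝 (0:ℂ), HasDerivAt g (f' z) z) (h0 : f 0 = g 0) :
    ∀ᶠ z in 𝓝 (0:ℂ), f z = g z := by
  obtain ⟨r, hr, h⟩ := Metric.eventually_nhds_iff_ball.1 (hf.and hg)
  filter_upwards [Metric.ball_mem_nhds 0 hr] with z hz
  have h1 : ∀ w ∈ ball (0:ℂ) r, HasDerivAt (fun w => f w - g w) 0 w := fun w hw => by
    have := (h w hw).1.sub (h w hw).2
    rw [sub_self] at this
    exact this
  have := Metric.isOpen_ball.is_const_of_deriv_eq_zero (convex_ball (0:ℂ) r).isPreconnected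
    (fun w hw => (h1 w hw).differentiableAt.differentiableWithinAt)
    (fun w hw => (h1 w hw).deriv) hz (mem_ball_self hr)
  have h2 : f z - g z = f 0 - g 0 := this
  linear_combination h2 + h0

theorem prim {f : ℂ → ℂ} (hf : AnalyticAt ℂ f 0) :
    ∃ F : ℂ → ℂ, AnalyticAt ℂ F 0 ∧ F 0 = 0 ∧ ∀ᶠ z in 𝓝 (0:ℂ), HasDerivAt F (f z) z := by
  obtain ⟨r, hr, h⟩ := Metric.eventually_nhds_iff_ball.1 hf.eventually_analyticAt
  have h1 : DifferentiableOn ℂ f (ball 0 r) :=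
    fun z hz => (h z hz).differentiableAt.differentiableWithinAt
  obtain ⟨F, hF0, hF⟩ := h1.isExactOn_ball.with_val_at 0 0
  refine ⟨F, ?_, hF0, ?_⟩
  · have h2 : DifferentiableOn ℂ F (ball 0 r) :=
      fun z hz => (hF z hz).differentiableAt.differentiableWithinAt
    exact h2.analyticAt (Metric.ball_mem_nhds 0 hr)
  · filter_upwards [Metric.ball_mem_nhds 0 hr] with z hz using hF z hz

theorem local_inv {f : ℂ → ℂ} (hf : AnalyticAt ℂ f 0) (hf0 : f 0 = 0) (hf1 : deriv f 0 ≠ 0) :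
    ∃ g : ℂ → ℂ, AnalyticAt ℂ g 0 ∧ g 0 = 0 ∧ deriv g 0 = (deriv f 0)⁻¹ ∧
      (∀ᶠ z in 𝓝 (0:ℂ), f (g z) = z) ∧ ∀ᶠ z in 𝓝 (0:ℂ), g (f z) = z := by
  have ha := hf.analyticAt_localInverse hf1
  have hl : ∀ᶠ w in 𝓝 (0:ℂ), hf.hasStrictDerivAt.localInverse _ _ _ hf1 (f w) = w :=
    hf.hasStrictDerivAt.eventually_left_inverse hf1
  have hr := hf.hasStrictDerivAt.eventually_right_inverse hf1
  have hd := (hf.hasStrictDerivAt.to_localInverse hf1).hasDerivAt
  rw [hf0] at ha hr hd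
  refine ⟨hf.hasStrictDerivAt.localInverse _ _ _ hf1, ha, ?_, hd.deriv, hr, hl⟩
  have := hl.self_of_nhds
  rw [hf0] at this
  exact this

/-- an identity between analytic germs holds at `0` if it holds near `0` -/
theorem ext_punct {f g : ℂ → ℂ} (hf : AnalyticAt ℂ f 0) (hg : AnalyticAt ℂ g 0)
    (h : ∀ᶠ z in 𝓝[≠] (0:ℂ), f z = g z) : ∀ᶠ z in 𝓝 (0:ℂ), f z = g z :=
  (hf.frequently_eq_iff_eventually_eq hg).1 h.frequently

/-- a function which is analytic after an extension and has derivative zero is constant -/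
theorem const_of_punct {K L : ℂ → ℂ} (hL : AnalyticAt ℂ L 0)
    (h : ∀ᶠ z in 𝓝[≠] (0:ℂ), K z = L z) (hd : ∀ᶠ z in 𝓝[≠] (0:ℂ), HasDerivAt K 0 z) :
    ∀ᶠ z in 𝓝[≠] (0:ℂ), K z = L 0 := by
  have h1 : ∀ᶠ z in 𝓝[≠] (0:ℂ), ∀ᶠ w in 𝓝 z, K w = L w := by
    have := eventually_eventually_nhdsWithin.2 h
    filter_upwards [this, self_mem_nhdsWithin] with z hz hz0
    rwa [IsOpen.nhdsWithin_eq isOpen_compl_singleton hz0] at hz
  have h2 : ∀ᶠ z in 𝓝[≠] (0:ℂ), deriv L z = (fun _ : ℂ => (0:ℂ)) z := by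
    filter_upwards [h1, hd] with z hz hdz
    have : L =ᶠ[𝓝 z] K := by filter_upwards [hz] with w hw using hw.symm
    rw [this.deriv_eq, hdz.deriv]
  have h3 := ext_punct hL.deriv analyticAt_const h2
  have h4 : ∀ᶠ z in 𝓝 (0:ℂ), HasDerivAt L 0 z := by
    filter_upwards [h3, hL.eventually_analyticAt] with z hz hLz
    have := hLz.differentiableAt.hasDerivAt
    rw [hz] at this
    exact this
  have h5 : ∀ᶠ z in 𝓝 (0:ℂ), L z = (fun _ => L 0) z :=
    eq_of_deriv (f' := fun _ => 0) h4 (Eventually.of_forall fun z => hasDerivAt_const z (L 0)) rfl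
  filter_upwards [h, nhdsWithin_le_nhds h5] with z hz h5z
  rw [hz, h5z]

theorem tendsto_neg0 : Tendsto (fun z : ℂ => -z) (𝓝 (0:ℂ)) (𝓝 0) := by
  have := (continuous_neg (G := ℂ)).tendsto (0:ℂ)
  rwa [neg_zero] at this

/-- from the punctured neighbourhoods of `0` to the neighbourhoods of `∞` -/
theorem exists_radius {P : ℂ → Prop} (h : ∀ᶠ t in 𝓝[≠] (0:ℂ), P t) :
    ∃ R > (0:ℝ), ∀ U : ℂ, R < ‖U‖ → P U⁻¹ := by
  rw [eventually_nhdsWithin_iff, Metric.eventually_nhds_iff] at h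
  obtain ⟨ε, hε, h⟩ := h
  refine ⟨ε⁻¹, inv_pos.2 hε, fun U hU => ?_⟩
  have hU0 : 0 < ‖U‖ := lt_trans (inv_pos.2 hε) hU
  refine h ?_ ?_
  · rw [dist_zero_right, norm_inv]
    exact inv_lt_of_inv_lt₀ hε hU
  · exact inv_ne_zero (norm_pos_iff.1 hU0)

theorem of_radius {P : ℂ → Prop} {R : ℝ} (hR : 0 < R) (h : ∀ U : ℂ, R < ‖U‖ → P U⁻¹) :
    ∀ᶠ t in 𝓝[≠] (0:ℂ), P t := by
  rw [eventually_nhdsWithin_iff, Metric.eventually_nhds_iff]
  refine ⟨R⁻¹, inv_pos.2 hR, fun t ht ht0 => ?_⟩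
  rw [dist_zero_right] at ht
  have h0 : 0 < ‖t‖ := norm_pos_iff.2 ht0
  have := h t⁻¹ (by rw [norm_inv]; exact (lt_inv_comm₀ hR h0).2 ht)
  rwa [inv_inv] at this

/-- the function `κ` -/
theorem kappa_of_psi {D : ℂ} {r M psi : ℂ → ℂ} {R : ℝ} (h : Psi D r M R psi) :
    ∃ κ : ℂ → ℂ, AnalyticAt ℂ κ 0 ∧ κ 0 = 1 ∧ (∀ t, t ≠ 0 → psi t⁻¹ = -t * κ t) ∧
      (∀ᶠ t in 𝓝 (0:ℂ), κ (-t) = κ t) := by
  classical
  have hval : ∀ t : ℂ, t ≠ 0 →
      Function.update (fun t : ℂ => -psi t⁻¹ / t) 0 1 t = -psi t⁻¹ / t := fun t ht =>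
    Function.update_of_ne ht _ _
  refine ⟨Function.update (fun t : ℂ => -psi t⁻¹ / t) 0 1, ?_, Function.update_self _ _ _, ?_, ?_⟩
  · apply Complex.analyticAt_of_differentiable_on_punctured_nhds_of_continuousAt
    · have h1 : ∀ᶠ t in 𝓝[≠] (0:ℂ), DifferentiableAt ℂ psi t⁻¹ :=
        of_radius (P := fun t => DifferentiableAt ℂ psi t⁻¹) h.R_pos
          (fun U hU => by rw [inv_inv]; exact h.diff U hU)
      filter_upwards [h1, self_mem_nhdsWithin] with t ht ht0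
      have ht0' : t ≠ 0 := ht0
      have h2 : DifferentiableAt ℂ (fun t : ℂ => -psi t⁻¹ / t) t :=
        ((ht.comp t (differentiableAt_inv ht0')).neg).div differentiableAt_id ht0'
      refine h2.congr_of_eventuallyEq ?_
      filter_upwards [isOpen_ne.mem_nhds ht0'] with s hs
      exact hval s hs
    · rw [continuousAt_update_same]
      have h3 := h.inf.comp (tendsto_inv₀_nhdsNE_zero (α := ℂ))
      have h4 := h3.neg
      rw [neg_neg] at h4
      refine h4.congr' ?_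
      filter_upwards [self_mem_nhdsWithin] with t ht
      have ht0 : t ≠ 0 := ht
      show -(t⁻¹ * psi t⁻¹) = -psi t⁻¹ / t
      field_simp
  · intro t ht
    rw [hval t ht]
    field_simp
  · have h1 : ∀ᶠ t in 𝓝[≠] (0:ℂ), psi (-t⁻¹) = -psi t⁻¹ :=
      of_radius (P := fun t => psi (-t⁻¹) = -psi t⁻¹) h.R_pos
        (fun U hU => by rw [inv_inv]; exact h.odd U hU)
    rw [eventually_nhdsWithin_iff] at h1
    filter_upwards [h1] with t ht
    by_cases h0 : t = 0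
    · rw [h0, neg_zero]
    · rw [hval t h0, hval (-t) (neg_ne_zero.2 h0), inv_neg, ht h0]
      rw [neg_neg, div_neg, neg_div]

/-- the function `g` -/
theorem exists_g {κ : ℂ → ℂ} (hκ : AnalyticAt ℂ κ 0) (hκ0 : κ 0 = 1)
    (hev : ∀ᶠ t in 𝓝 (0:ℂ), κ (-t) = κ t) :
    ∃ g : ℂ → ℂ, AnalyticAt ℂ g 0 ∧ g 0 = 0 ∧ (∀ᶠ t in 𝓝 (0:ℂ), g (-t) = g t) ∧
      ∀ᶠ t in 𝓝 (0:ℂ), HasDerivAt (fun t => t * Complex.exp (g t))
        (Complex.exp (g t) * κ t) t := by
  obtain ⟨k1, hk1, _, hk⟩ := div1 hκ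
  obtain ⟨g, hg, hg0, hgd⟩ := prim hk1
  have hneg : AnalyticAt ℂ (fun t : ℂ => -t) 0 := analyticAt_id.neg
  have hodd : ∀ᶠ t in 𝓝 (0:ℂ), -k1 (-t) = k1 t := by
    have h1 : AnalyticAt ℂ (fun t => -k1 (-t)) 0 := by
      have h2 : AnalyticAt ℂ k1 ((fun t : ℂ => -t) 0) := by
        show AnalyticAt ℂ k1 (-0)
        rw [neg_zero]
        exact hk1
      exact (AnalyticAt.comp h2 hneg).neg
    refine ext_punct h1 hk1 ?_
    filter_upwards [nhdsWithin_le_nhds hev, self_mem_nhdsWithin] with t ht ht0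
    have ht0' : t ≠ 0 := ht0
    rw [hk t, hk (-t)] at ht
    have h3 : t * (-k1 (-t) - k1 t) = 0 := by linear_combination ht
    have h4 := (mul_eq_zero.1 h3).resolve_left ht0'
    linear_combination h4
  refine ⟨g, hg, hg0, ?_, ?_⟩
  · have h1 : ∀ᶠ t in 𝓝 (0:ℂ), HasDerivAt (fun t => g (-t)) (k1 t) t := by
      filter_upwards [tendsto_neg0.eventually hgd, hodd] with t ht ho
      have h2 : HasDerivAt (fun t : ℂ => -t) (-1) t := (hasDerivAt_id t).neg
      have h3 := ht.comp t h2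
      have h4 : k1 (-t) * -1 = k1 t := by rw [← ho]; ring
      rw [h4] at h3
      exact h3
    exact eq_of_deriv h1 hgd (by simp)
  · filter_upwards [hgd] with t ht
    have h1 : HasDerivAt (fun t => t * Complex.exp (g t))
        (1 * Complex.exp (g t) + t * (Complex.exp (g t) * k1 t)) t :=
      (hasDerivAt_id t).mul ht.cexp
    have h2 : 1 * Complex.exp (g t) + t * (Complex.exp (g t) * k1 t) =
        Complex.exp (g t) * κ t := by
      rw [hk t, hκ0]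
      ring
    rw [h2] at h1
    exact h1

/-- the relation for consecutive tangent lines -/
theorem second {D : ℂ} {ρ T κ g psi : ℂ → ℂ} {R : ℝ}
    (hρ : AnalyticAt ℂ ρ 0) (hρ0 : ρ 0 = 0)
    (hT : AnalyticAt ℂ T 0) (hT0 : T 0 = 0) (hT1 : deriv T 0 = -1)
    (h : Psi D (fun U => 1 + ρ U⁻¹) (fun U => -(T U⁻¹)⁻¹) R psi)
    (hpsi : ∀ t, t ≠ 0 → psi t⁻¹ = -t * κ t)
    (hg : AnalyticAt ℂ g 0) (hg0 : g 0 = 0)
    (hgd : ∀ᶠ t in 𝓝 (0:ℂ), HasDerivAt (fun t => t * Complex.exp (g t))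
        (Complex.exp (g t) * κ t) t) :
    ∀ᶠ t in 𝓝 (0:ℂ), T t * Complex.exp (g (T t)) * Complex.exp (D * Complex.log (1 + ρ t)) =
      -(t * Complex.exp (g t)) := by
  obtain ⟨T1, hT1a, hT10, hTT⟩ := div1 hT
  have hTT' : ∀ t, T t = t * T1 t := fun t => by rw [hTT t, hT0, zero_add]
  have hT10' : T1 0 = -1 := by rw [hT10, hT1]
  have hTt : Tendsto T (𝓝 0) (𝓝 0) := by
    have := hT.continuousAt.tendsto
    rwa [hT0] at this
  have hρt : Tendsto ρ (𝓝 0) (𝓝 0) := by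
    have := hρ.continuousAt.tendsto
    rwa [hρ0] at this
  have hT1ne : ∀ᶠ t in 𝓝 (0:ℂ), T1 t ≠ 0 := by
    have : T1 0 ≠ 0 := by rw [hT10']; norm_num
    exact hT1a.continuousAt.eventually_ne this
  have hlog : AnalyticAt ℂ (fun t => Complex.log (1 + ρ t)) 0 := by
    have h1 : AnalyticAt ℂ (fun t => 1 + ρ t) 0 := analyticAt_const.add hρ
    refine h1.clog ?_
    rw [hρ0, add_zero]
    exact Complex.one_mem_slitPlane
  have hslit : ∀ᶠ t in 𝓝 (0:ℂ), 1 + ρ t ∈ Complex.slitPlane := by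
    have h1 : ContinuousAt (fun t => 1 + ρ t) 0 := continuousAt_const.add hρ.continuousAt
    refine h1.eventually_mem (Complex.isOpen_slitPlane.mem_nhds ?_)
    rw [hρ0, add_zero]
    exact Complex.one_mem_slitPlane
  have hB : AnalyticAt ℂ (fun t => Complex.exp (D * Complex.log (1 + ρ t))) 0 :=
    (analyticAt_const.mul hlog).cexp
  have hgT : AnalyticAt ℂ (fun t => g (T t)) 0 := by
    have h2 : AnalyticAt ℂ g (T 0) := by rw [hT0]; exact hg
    exact AnalyticAt.comp h2 hT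
  have hV : AnalyticAt ℂ (fun t => T1 t * Complex.exp (g (T t)) *
      Complex.exp (D * Complex.log (1 + ρ t)) * Complex.exp (-g t)) 0 :=
    ((hT1a.mul hgT.cexp).mul hB).mul hg.neg.cexp
  have hKV : ∀ᶠ t in 𝓝[≠] (0:ℂ), T t * Complex.exp (g (T t)) *
      Complex.exp (D * Complex.log (1 + ρ t)) * (t * Complex.exp (g t))⁻¹ =
      T1 t * Complex.exp (g (T t)) *
      Complex.exp (D * Complex.log (1 + ρ t)) * Complex.exp (-g t) := by
    filter_upwards [self_mem_nhdsWithin] with t ht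
    have ht0 : t ≠ 0 := ht
    rw [hTT' t, mul_inv, Complex.exp_neg]
    field_simp
  -- the differential equation
  have hode : ∀ᶠ t in 𝓝[≠] (0:ℂ), HasDerivAt (fun t => T t * Complex.exp (g (T t)) *
      Complex.exp (D * Complex.log (1 + ρ t)) * (t * Complex.exp (g t))⁻¹) 0 t := by
    have e1 : ∀ᶠ t in 𝓝[≠] (0:ℂ), R < ‖t⁻¹‖ :=
      of_radius (P := fun t => R < ‖t⁻¹‖) h.R_pos (fun U hU => by rwa [inv_inv])
    have hTne : ∀ᶠ t in 𝓝[≠] (0:ℂ), T t ≠ 0 := by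
      filter_upwards [nhdsWithin_le_nhds hT1ne, self_mem_nhdsWithin] with t h1 h2
      rw [hTT' t]
      exact mul_ne_zero h2 h1
    have hTp : Tendsto T (𝓝[≠] 0) (𝓝[≠] 0) :=
      tendsto_nhdsWithin_iff.2 ⟨hTt.mono_left nhdsWithin_le_nhds, hTne⟩
    filter_upwards [e1, hTp.eventually e1, hTne, self_mem_nhdsWithin,
      nhdsWithin_le_nhds hρ.eventually_analyticAt, nhdsWithin_le_nhds hT.eventually_analyticAt,
      nhdsWithin_le_nhds hslit, nhdsWithin_le_nhds hgd,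
      nhdsWithin_le_nhds (hTt.eventually hgd)] with t r1 r2 hTn ht0 hρa hTa hsl hd1 hd2
    have ht : t ≠ 0 := ht0
    have hne : (1 + ρ t) ≠ 0 := Complex.slitPlane_ne_zero hsl
    have hρd := hρa.differentiableAt.hasDerivAt
    have hTd := hTa.differentiableAt.hasDerivAt
    have hinv : HasDerivAt (fun U : ℂ => U⁻¹) (-t ^ 2) t⁻¹ := by
      have := hasDerivAt_inv (inv_ne_zero ht)
      have h2 : -((t⁻¹) ^ 2)⁻¹ = -t ^ 2 := by field_simp
      rw [h2] at this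
      exact this
    have hr' : HasDerivAt (fun U : ℂ => 1 + ρ U⁻¹) (deriv ρ t * -t ^ 2) t⁻¹ := by
      have h2 : HasDerivAt ρ (deriv ρ t) ((fun U : ℂ => U⁻¹) t⁻¹) := by
        show HasDerivAt ρ (deriv ρ t) (t⁻¹)⁻¹
        rw [inv_inv]
        exact hρd
      exact (HasDerivAt.comp t⁻¹ h2 hinv).const_add 1
    have hM' : HasDerivAt (fun U : ℂ => -(T U⁻¹)⁻¹) (-(-(deriv T t * -t ^ 2) / (T t) ^ 2)) t⁻¹ := by
      have h2 : HasDerivAt T (deriv T t) ((fun U : ℂ => U⁻¹) t⁻¹) := by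
        show HasDerivAt T (deriv T t) (t⁻¹)⁻¹
        rw [inv_inv]
        exact hTd
      have h3 : HasDerivAt (fun U : ℂ => T U⁻¹) (deriv T t * -t ^ 2) t⁻¹ :=
        HasDerivAt.comp t⁻¹ h2 hinv
      have h4 : (fun U : ℂ => T U⁻¹) t⁻¹ ≠ 0 := by
        show T (t⁻¹)⁻¹ ≠ 0
        rw [inv_inv]
        exact hTn
      have h5 := (h3.inv h4).neg
      have h6 : T (t⁻¹)⁻¹ = T t := by rw [inv_inv]
      rw [h6] at h5
      exact h5
    have heq := h.eq t⁻¹ r1 (by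
      show R < ‖-(T (t⁻¹)⁻¹)⁻¹‖
      rw [inv_inv, norm_neg]
      exact r2)
    rw [hr'.deriv, hM'.deriv, inv_inv, h.odd _ r2, hpsi t ht, hpsi _ hTn] at heq
    have hstar : κ t / t = D * deriv ρ t / (1 + ρ t) + deriv T t * κ (T t) / T t := by
      have ht2 : t ^ 2 ≠ 0 := pow_ne_zero 2 ht
      field_simp at heq ⊢
      linear_combination -heq
    -- derivative of the product
    have dA : HasDerivAt (fun t => T t * Complex.exp (g (T t)))
        (Complex.exp (g (T t)) * κ (T t) * deriv T t) t :=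
      HasDerivAt.comp (h₂ := fun t => t * Complex.exp (g t)) t hd2 hTd
    have dB : HasDerivAt (fun t => Complex.exp (D * Complex.log (1 + ρ t)))
        (Complex.exp (D * Complex.log (1 + ρ t)) * (D * (deriv ρ t / (1 + ρ t)))) t := by
      have h2 : HasDerivAt (fun t => 1 + ρ t) (deriv ρ t) t := hρd.const_add 1
      exact ((h2.clog hsl).const_mul D).cexp
    have hEne : t * Complex.exp (g t) ≠ 0 := mul_ne_zero ht (Complex.exp_ne_zero _)
    have dC : HasDerivAt (fun t => (t * Complex.exp (g t))⁻¹)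
        (-(Complex.exp (g t) * κ t) / (t * Complex.exp (g t)) ^ 2) t := hd1.inv hEne
    have dK := (dA.mul dB).mul dC
    have hz : ((Complex.exp (g (T t)) * κ (T t) * deriv T t) *
        Complex.exp (D * Complex.log (1 + ρ t)) + T t * Complex.exp (g (T t)) *
        (Complex.exp (D * Complex.log (1 + ρ t)) * (D * (deriv ρ t / (1 + ρ t))))) *
        (t * Complex.exp (g t))⁻¹ + T t * Complex.exp (g (T t)) *
        Complex.exp (D * Complex.log (1 + ρ t)) *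
        (-(Complex.exp (g t) * κ t) / (t * Complex.exp (g t)) ^ 2) = 0 := by
      have hE := Complex.exp_ne_zero (g t)
      have h3 : ((Complex.exp (g (T t)) * κ (T t) * deriv T t) *
        Complex.exp (D * Complex.log (1 + ρ t)) + T t * Complex.exp (g (T t)) *
        (Complex.exp (D * Complex.log (1 + ρ t)) * (D * (deriv ρ t / (1 + ρ t))))) *
        (t * Complex.exp (g t))⁻¹ + T t * Complex.exp (g (T t)) *
        Complex.exp (D * Complex.log (1 + ρ t)) *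
        (-(Complex.exp (g t) * κ t) / (t * Complex.exp (g t)) ^ 2) =
        T t * Complex.exp (g (T t)) * Complex.exp (D * Complex.log (1 + ρ t)) *
          (t * Complex.exp (g t))⁻¹ *
          (deriv T t * κ (T t) / T t + D * deriv ρ t / (1 + ρ t) - κ t / t) := by
        field_simp
        ring
      rw [h3, hstar]
      ring
    have dK' := dK
    simp only [Pi.mul_apply] at dK'
    rw [hz] at dK'
    exact dK'
  have hconst := const_of_punct hV hKV hode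
  have hV0 : T1 0 * Complex.exp (g (T 0)) * Complex.exp (D * Complex.log (1 + ρ 0)) *
      Complex.exp (-g 0) = -1 := by
    rw [hT10', hT0, hg0, hρ0]
    simp
  rw [eventually_nhdsWithin_iff] at hconst
  filter_upwards [hconst] with t ht
  by_cases h0 : t = 0
  · rw [h0, hT0]; simp
  · have h1 := ht h0
    rw [hV0] at h1
    have hE : t * Complex.exp (g t) ≠ 0 := mul_ne_zero h0 (Complex.exp_ne_zero _)
    have h2 := congrArg (fun x => x * (t * Complex.exp (g t))) h1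
    rw [mul_assoc, inv_mul_cancel₀ hE, mul_one] at h2
    rw [h2]
    ring

end Exp

open Exp in
/-- The first integral on the tangent line of the homogeneous curve, as a function of `η`
(`1 + η` is the quotient of the two parameters). -/
theorem germ_exp {a b : ℕ} (ha : 0 < a) (hab : a < b) {c D : ℂ} {m0 A0 Q : ℂ → ℂ}
    (h : Germ a b c m0 A0 Q) (hD : D = ((a:ℂ) + b) / 3 + c / 2) (hD0 : D ≠ 0) :
    ∃ e : ℂ → ℂ, AnalyticAt ℂ e 0 ∧ e 0 = 0 ∧ deriv e 0 = 1 ∧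
      (∀ᶠ η in 𝓝 (0:ℂ), e (-A0 η) = -e η) ∧
      (∀ᶠ η in 𝓝 (0:ℂ), e (-η / (1 + η)) * Complex.exp (D * Complex.log (1 + η)) = -e η) := by
  have hA2 : deriv (deriv A0) 0 = 2 * D - 2 := by rw [germ_second ha hab h, hD]
  have hDD : 1 + deriv (deriv A0) 0 / 2 = D := by rw [hA2]; ring
  -- the kernel with respect to the centre
  obtain ⟨m1, hm1⟩ : ∃ m1 : ℂ → ℂ, m1 = fun η => m0 η / (1 - c / 2 * m0 η) := ⟨_, rfl⟩
  have hden0 : (1 - c / 2 * m0 0) ≠ 0 := by rw [h.m_zero]; simp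
  have hdena : AnalyticAt ℂ (fun η => 1 - c / 2 * m0 η) 0 :=
    analyticAt_const.sub (analyticAt_const.mul h.m_ana)
  have hdenne : ∀ᶠ η in 𝓝 (0:ℂ), 1 - c / 2 * m0 η ≠ 0 := hdena.continuousAt.eventually_ne hden0
  have hm : AnalyticAt ℂ m1 0 := by
    rw [hm1]
    exact h.m_ana.div hdena hden0
  have hm0 : m1 0 = 0 := by rw [hm1]; simp [h.m_zero]
  have hmd : deriv m1 0 = 1 / 2 := by
    have h1 := h.m_ana.differentiableAt.hasDerivAt
    have h2 : HasDerivAt (fun η => 1 - c / 2 * m0 η) (-(c / 2 * deriv m0 0)) 0 :=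
      (h1.const_mul (c / 2)).const_sub 1
    have h3 := h1.div h2 hden0
    rw [hm1]
    have h4 := h3.deriv
    have h5 : deriv (fun η => m0 η / (1 - c / 2 * m0 η)) 0 =
        (deriv m0 0 * (1 - c / 2 * m0 0) - m0 0 * -(c / 2 * deriv m0 0)) /
          (1 - c / 2 * m0 0) ^ 2 := h4
    rw [h5, h.m_zero, h.m_der]
    simp
  have hmd' : deriv m1 0 ≠ 0 := by rw [hmd]; norm_num
  have htA : Tendsto (fun η => -A0 η) (𝓝 0) (𝓝 0) := by
    have := h.A_ana.continuousAt.tendsto.neg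
    rwa [h.A_zero, neg_zero] at this
  have hmA : ∀ᶠ η in 𝓝 (0:ℂ), m1 (-(A0 η)) = -m1 η := by
    filter_upwards [h.kick, hdenne, htA.eventually hdenne] with η h1 h2 h3
    rw [hm1]
    simp only
    rw [eq_neg_iff_add_eq_zero, div_add_div _ _ h3 h2, div_eq_zero_iff]
    left
    linear_combination -h1
  obtain ⟨ρ, hρ, hρ0, hρ1, hmρ, hρm⟩ := local_inv hm hm0 hmd'
  have hρt : Tendsto ρ (𝓝 0) (𝓝 0) := by
    have := hρ.continuousAt.tendsto
    rwa [hρ0] at this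
  -- the map of consecutive tangent lines
  obtain ⟨σ, hσ⟩ : ∃ σ : ℂ → ℂ, σ = fun t => -ρ t / (1 + ρ t) := ⟨_, rfl⟩
  have h1ρ : (1 + ρ 0) ≠ 0 := by rw [hρ0]; simp
  have h1ρa : AnalyticAt ℂ (fun t => 1 + ρ t) 0 := analyticAt_const.add hρ
  have h1ρne : ∀ᶠ t in 𝓝 (0:ℂ), 1 + ρ t ≠ 0 := h1ρa.continuousAt.eventually_ne h1ρ
  have hσa : AnalyticAt ℂ σ 0 := by
    rw [hσ]
    exact hρ.neg.div h1ρa h1ρ
  have hσ0 : σ 0 = 0 := by rw [hσ]; simp [hρ0]
  have hσt : Tendsto σ (𝓝 0) (𝓝 0) := by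
    have := hσa.continuousAt.tendsto
    rwa [hσ0] at this
  have hσd : HasDerivAt σ (-deriv ρ 0) 0 := by
    have h1 := hρ.differentiableAt.hasDerivAt
    have h2 : HasDerivAt (fun t => 1 + ρ t) (deriv ρ 0) 0 := h1.const_add 1
    have h3 := h1.neg.div h2 h1ρ
    rw [hσ]
    have h4 : (-deriv ρ 0 * (1 + ρ 0) - -ρ 0 * deriv ρ 0) / (1 + ρ 0) ^ 2 = -deriv ρ 0 := by
      rw [hρ0]; simp
    have h5 : HasDerivAt (fun t => -ρ t / (1 + ρ t))
        ((-deriv ρ 0 * (1 + ρ 0) - -ρ 0 * deriv ρ 0) / (1 + ρ 0) ^ 2) 0 := h3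
    rw [h4] at h5
    exact h5
  obtain ⟨T, hT⟩ : ∃ T : ℂ → ℂ, T = fun t => m1 (σ t) := ⟨_, rfl⟩
  have hTa : AnalyticAt ℂ T 0 := by
    rw [hT]
    have h2 : AnalyticAt ℂ m1 (σ 0) := by rw [hσ0]; exact hm
    exact AnalyticAt.comp h2 hσa
  have hT0 : T 0 = 0 := by rw [hT]; simp only; rw [hσ0, hm0]
  have hT1 : deriv T 0 = -1 := by
    have h1 : HasDerivAt m1 (deriv m1 0) (σ 0) := by
      rw [hσ0]; exact hm.differentiableAt.hasDerivAt
    have h2 : HasDerivAt (fun t => m1 (σ t)) (deriv m1 0 * -deriv ρ 0) 0 :=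
      HasDerivAt.comp (0:ℂ) h1 hσd
    rw [hT, h2.deriv, hρ1]
    field_simp
  have hTt : Tendsto T (𝓝 0) (𝓝 0) := by
    have := hTa.continuousAt.tendsto
    rwa [hT0] at this
  have hTne : ∀ᶠ t in 𝓝[≠] (0:ℂ), T t ≠ 0 := by
    obtain ⟨T1, hT1a, hT10, hTT⟩ := div1 hTa
    have h1 : T1 0 ≠ 0 := by rw [hT10, hT1]; norm_num
    filter_upwards [nhdsWithin_le_nhds (hT1a.continuousAt.eventually_ne h1),
      self_mem_nhdsWithin] with t h2 h3
    rw [hTT t, hT0, zero_add]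
    exact mul_ne_zero h3 h2
  -- psi
  have hr : ∃ R > 0, ∀ U : ℂ, R < ‖U‖ → DifferentiableAt ℂ (fun U => 1 + ρ U⁻¹) U ∧
      DifferentiableAt ℂ (fun U => -(T U⁻¹)⁻¹) U ∧
      m1 ((fun U => 1 + ρ U⁻¹) U - 1) = U⁻¹ ∧
      (fun U => 1 + ρ U⁻¹) (-((fun U => -(T U⁻¹)⁻¹) U)) = ((fun U => 1 + ρ U⁻¹) U)⁻¹ := by
    have hP : ∀ᶠ t in 𝓝[≠] (0:ℂ), t ≠ 0 ∧ DifferentiableAt ℂ ρ t ∧ DifferentiableAt ℂ T t ∧
        T t ≠ 0 ∧ m1 (ρ t) = t ∧ ρ (T t) = σ t ∧ 1 + ρ t ≠ 0 := by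
      filter_upwards [self_mem_nhdsWithin, nhdsWithin_le_nhds hρ.eventually_analyticAt,
        nhdsWithin_le_nhds hTa.eventually_analyticAt, hTne, nhdsWithin_le_nhds hmρ,
        nhdsWithin_le_nhds (hσt.eventually hρm), nhdsWithin_le_nhds h1ρne]
        with t h1 h2 h3 h4 h5 h6 h7
      refine ⟨h1, h2.differentiableAt, h3.differentiableAt, h4, h5, ?_, h7⟩
      rw [hT]
      exact h6
    obtain ⟨R, hR, hRR⟩ := exists_radius hP
    refine ⟨R, hR, fun U hU => ?_⟩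
    obtain ⟨h1, h2, h3, h4, h5, h6, h7⟩ := hRR U hU
    have hU0 : U ≠ 0 := fun h0 => h1 (by rw [h0, inv_zero])
    have hi : DifferentiableAt ℂ (fun U : ℂ => U⁻¹) U := differentiableAt_inv hU0
    refine ⟨(h2.comp U hi).const_add 1, ((h3.comp U hi).inv h4).neg, ?_, ?_⟩
    · simp only
      rw [add_sub_cancel_left, h5]
    · simp only
      rw [neg_neg, inv_inv, h6, hσ]
      simp only
      generalize ρ U⁻¹ = x at h7 ⊢
      field_simp
      ring
  have hrinf : Tendsto (fun U : ℂ => 1 + ρ U⁻¹) (Bornology.cobounded ℂ) (𝓝 1) := by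
    have h1 : Tendsto (fun U : ℂ => ρ U⁻¹) (Bornology.cobounded ℂ) (𝓝 0) :=
      hρt.comp tendsto_inv₀_cobounded
    have := h1.const_add 1
    rwa [add_zero] at this
  have hMinf : Tendsto (fun U : ℂ => -(T U⁻¹)⁻¹) (Bornology.cobounded ℂ)
      (Bornology.cobounded ℂ) := by
    have hTp : Tendsto T (𝓝[≠] 0) (𝓝[≠] 0) :=
      tendsto_nhdsWithin_iff.2 ⟨hTt.mono_left nhdsWithin_le_nhds, hTne⟩
    have h1 : Tendsto (fun U : ℂ => (T U⁻¹)⁻¹) (Bornology.cobounded ℂ)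
        (Bornology.cobounded ℂ) :=
      (tendsto_inv₀_nhdsNE_zero (α := ℂ)).comp (hTp.comp tendsto_inv₀_cobounded')
    exact tendsto_neg_cobounded.comp h1
  obtain ⟨R, psi, hpsi⟩ := psi_of_germ (m1 := m1) (A0 := A0) (Q := Q)
    (r := fun U => 1 + ρ U⁻¹) (M := fun U => -(T U⁻¹)⁻¹) hm hm0 hmd' h.A_ana h.A_zero h.A_der
    (by
      rw [hA2]
      intro h0
      apply hD0
      linear_combination h0 / 2) hmA h.Q_ana h.Q_zero h.Q_der h.fi hr hrinf hMinf
  rw [hDD] at hpsi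
  obtain ⟨κ, hκ, hκ0, hκpsi, hκev⟩ := kappa_of_psi hpsi
  obtain ⟨g, hg, hg0, hgev, hgd⟩ := exists_g hκ hκ0 hκev
  have hsec := second hρ hρ0 hTa hT0 hT1 hpsi hκpsi hg hg0 hgd
  have hmt : Tendsto m1 (𝓝 0) (𝓝 0) := by
    have := hm.continuousAt.tendsto
    rwa [hm0] at this
  have hgm : AnalyticAt ℂ (fun η => g (m1 η)) 0 := by
    have h2 : AnalyticAt ℂ g (m1 0) := by rw [hm0]; exact hg
    exact AnalyticAt.comp h2 hm
  refine ⟨fun η => 2 * (m1 η * Complex.exp (g (m1 η))),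
    analyticAt_const.mul (hm.mul hgm.cexp), ?_, ?_, ?_, ?_⟩
  · simp only
    rw [hm0]
    simp
  · have h1 := hm.differentiableAt.hasDerivAt
    have h2 := hgm.differentiableAt.hasDerivAt
    have h3 := (h1.mul h2.cexp).const_mul 2
    have h4 : deriv (fun η => 2 * (m1 η * Complex.exp (g (m1 η)))) 0 =
        2 * (deriv m1 0 * Complex.exp (g (m1 0)) +
          m1 0 * (Complex.exp (g (m1 0)) * deriv (fun η => g (m1 η)) 0)) := h3.deriv
    rw [h4, hm0, hg0, hmd]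
    simp
  · filter_upwards [hmA, hmt.eventually hgev] with η h1 h2
    rw [h1, h2]
    ring
  · filter_upwards [hρm, hmt.eventually hsec] with η h1 h2
    rw [hT] at h2
    simp only [hσ] at h2
    rw [h1] at h2
    have h3 : 2 * (m1 (-η / (1 + η)) * Complex.exp (g (m1 (-η / (1 + η))))) *
        Complex.exp (D * Complex.log (1 + η)) =
        2 * (m1 (-η / (1 + η)) * Complex.exp (g (m1 (-η / (1 + η)))) *
        Complex.exp (D * Complex.log (1 + η))) := by ring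
    rw [h3, h2]
    ring

end Pool.Agent.MP_ae5b4e_an_HYP
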