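import Mathlib
import Pool.Agent.Lib.MP_ae5b4e_an_HYP.Defs
import Pool.Agent.Lib.MP_ae5b4e_an_HYP.Exp
import Pool.Agent.Lib.MP_ae5b4e_an_HYP.Desc
import Pool.Agent.Lib.MP_ae5b4e_an_GEN.Defs

/-!
# MP_ae5b4e_an, project HYP, module G3: from the germ to the homogeneous solution
-/

set_option autoImplicit false

noncomputable section

namespace Pool.Agent.MP_ae5b4e_an_HYP

open Filter Topology Set Metric
open scoped ComplexConjugate

namespace OfGerm

/-- the relation between the coordinate and the quotient of the parameters -/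
theorem x_rel {m r : ℕ} (hm : 0 < m) {m0 : ℂ → ℂ} {η : ℂ}
    (h : (((1 * m : ℕ) : ℂ) * (((r + 1) * m : ℕ) : ℂ) * ((1 + η) ^ ((r + 1) * m - 1 * m) - 1)) * m0 η =
      Pool.Agent.MP_ae5b4e_an_ALG.Dh (1 * m) ((r + 1) * m) η) :
    (1 + m * m0 η) * ((r + 1) * (((1 + η) ^ m) ^ r - 1)) = r * (((1 + η) ^ m) ^ (r + 1) - 1) := by
  have hm' : (m:ℂ) ≠ 0 := by exact_mod_cast hm.ne'
  have h1 : (r + 1) * m - 1 * m = m * r := by
    have : (r + 1) * m = m * r + 1 * m := by ring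
    rw [this, Nat.add_sub_cancel]
  have h2 : (r + 1) * m = m * (r + 1) := by ring
  rw [Pool.Agent.MP_ae5b4e_an_ALG.Dh, h1, h2] at h
  rw [pow_mul (1 + η) m r, pow_mul (1 + η) m (r + 1)] at h
  push_cast at h
  have h3 : (m:ℂ) * ((1 + m * m0 η) * ((r + 1) * (((1 + η) ^ m) ^ r - 1))) =
      m * (r * (((1 + η) ^ m) ^ (r + 1) - 1)) := by
    linear_combination h
  exact mul_left_cancel₀ hm' h3

/-- the value of the absolute invariant -/
theorem Rr_x {r : ℕ} {x : ℂ} (h0 : x ≠ 0) (h1 : x ≠ 1) :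
    Rr r (x / (1 - x)) = ((r + 1) * x - r) / x ^ (r + 1) := by
  have h2 : 1 - x ≠ 0 := sub_ne_zero.mpr (Ne.symm h1)
  have h3 : x / (1 - x) - r = ((r + 1) * x - r) / (1 - x) := by
    field_simp
    ring
  have h4 : x / (1 - x) + 1 = 1 / (1 - x) := by
    field_simp
    ring
  rw [Rr, h3, h4, div_pow, div_pow, one_pow]
  field_simp
  ring

theorem frac_x {x : ℂ} (h1 : x ≠ 1) : x / (1 - x) / (x / (1 - x) + 1) = x := by
  have h2 : 1 - x ≠ 0 := sub_ne_zero.mpr (Ne.symm h1)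
  have h4 : x / (1 - x) + 1 = 1 / (1 - x) := by
    field_simp
    ring
  rw [h4]
  field_simp

/-- the coordinate -/
def xf (m : ℕ) (m0 : ℂ → ℂ) (η : ℂ) : ℂ := 1 + m * m0 η

/-- the absolute invariant -/
def zf (r m : ℕ) (m0 : ℂ → ℂ) (η : ℂ) : ℂ := ((r + 1) * xf m m0 η - r) / xf m m0 η ^ (r + 1)

/-- the involution -/
def tf (η : ℂ) : ℂ := -η / (1 + η)

theorem tf_zero : tf 0 = 0 := by simp [tf]

theorem tf_ana : AnalyticAt ℂ tf 0 := by
  unfold tf
  exact (analyticAt_id.neg).div (analyticAt_const.add analyticAt_id) (by simp)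

theorem tf_deriv : deriv tf 0 = -1 := by
  have h : HasDerivAt tf ((-1 * (1 + 0) - -0 * 1) / (1 + 0) ^ 2) 0 := by
    unfold tf
    exact ((hasDerivAt_id (0:ℂ)).neg).div ((hasDerivAt_id (0:ℂ)).const_add 1) (by simp)
  rw [h.deriv]
  norm_num

theorem tf_tendsto : Tendsto tf (𝓝 0) (𝓝 0) := by
  have h := tf_ana.continuousAt
  rw [ContinuousAt, tf_zero] at h
  exact h

theorem one_add_tf {η : ℂ} (h : 1 + η ≠ 0) : 1 + tf η = (1 + η)⁻¹ := by
  rw [tf]
  field_simp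
  ring

section
variable {m r : ℕ} {m0 : ℂ → ℂ}

theorem xf_ana (h : AnalyticAt ℂ m0 0) : AnalyticAt ℂ (xf m m0) 0 := by
  unfold xf
  exact analyticAt_const.add (analyticAt_const.mul h)

theorem xf_zero (h : m0 0 = 0) : xf m m0 0 = 1 := by simp [xf, h]

theorem xf_deriv (h : AnalyticAt ℂ m0 0) (h1 : deriv m0 0 = 1 / 2) :
    deriv (xf m m0) 0 = m / 2 := by
  have h2 : HasDerivAt (xf m m0) (m * deriv m0 0) 0 := by
    unfold xf
    exact (h.differentiableAt.hasDerivAt.const_mul (m:ℂ)).const_add 1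
  rw [h2.deriv, h1]
  ring

theorem zf_ana (h : AnalyticAt ℂ m0 0) (h0 : m0 0 = 0) : AnalyticAt ℂ (zf r m m0) 0 := by
  unfold zf
  refine ((analyticAt_const.mul (xf_ana h)).sub analyticAt_const).div ((xf_ana h).pow _) ?_
  rw [xf_zero h0]
  simp

theorem zf_zero (h : m0 0 = 0) : zf r m m0 0 = 1 := by
  rw [zf, xf_zero h]
  simp

theorem zf_deriv_ev (h : AnalyticAt ℂ m0 0) (h0 : m0 0 = 0) :
    ∀ᶠ η in 𝓝 (0:ℂ), deriv (zf r m m0) η =
      (1 - xf m m0 η) * (r * (r + 1) * deriv (xf m m0) η / xf m m0 η ^ (r + 2)) := by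
  have h1 := (xf_ana (m := m) h).eventually_analyticAt
  have h2 : ∀ᶠ η in 𝓝 (0:ℂ), xf m m0 η ≠ 0 := by
    refine (xf_ana h).continuousAt.eventually_ne ?_
    rw [xf_zero h0]
    exact one_ne_zero
  filter_upwards [h1, h2] with η ha hne
  have hx := ha.differentiableAt.hasDerivAt
  have hd : HasDerivAt (zf r m m0) ((((r + 1) * deriv (xf m m0) η) * xf m m0 η ^ (r + 1) -
      ((r + 1) * xf m m0 η - r) * (((r + 1 : ℕ) : ℂ) * xf m m0 η ^ r * deriv (xf m m0) η)) /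
      (xf m m0 η ^ (r + 1)) ^ 2) η := by
    have hp : HasDerivAt (fun η => xf m m0 η ^ (r + 1))
        (((r + 1 : ℕ) : ℂ) * xf m m0 η ^ r * deriv (xf m m0) η) η := hx.fun_pow (r + 1)
    exact ((hx.const_mul ((r:ℂ) + 1)).sub_const (r:ℂ)).fun_div hp (pow_ne_zero _ hne)
  rw [hd.deriv]
  push_cast
  field_simp
  ring

theorem zf_deriv_zero (h : AnalyticAt ℂ m0 0) (h0 : m0 0 = 0) : deriv (zf r m m0) 0 = 0 := by
  rw [(zf_deriv_ev h h0).self_of_nhds, xf_zero h0]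
  ring

theorem zf_deriv2 (h : AnalyticAt ℂ m0 0) (h0 : m0 0 = 0) (h1 : deriv m0 0 = 1 / 2) :
    deriv (deriv (zf r m m0)) 0 = -(r * (r + 1) * (m / 2) ^ 2) := by
  have he : deriv (zf r m m0) =ᶠ[𝓝 0] fun η => (1 - xf m m0 η) *
      (r * (r + 1) * deriv (xf m m0) η / xf m m0 η ^ (r + 2)) := zf_deriv_ev h h0
  rw [he.deriv_eq]
  have hx := (xf_ana (m := m) h).differentiableAt.hasDerivAt
  have hW : AnalyticAt ℂ (fun η => (r:ℂ) * (r + 1) * deriv (xf m m0) η / xf m m0 η ^ (r + 2)) 0 := by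
    refine (analyticAt_const.mul (xf_ana h).deriv).div ((xf_ana h).pow _) ?_
    rw [xf_zero h0]
    simp
  have hd := (hx.const_sub 1).mul hW.differentiableAt.hasDerivAt
  have hd' : HasDerivAt (fun η => (1 - xf m m0 η) *
      (r * (r + 1) * deriv (xf m m0) η / xf m m0 η ^ (r + 2))) _ 0 := hd
  rw [hd'.deriv, xf_zero h0, xf_deriv h h1]
  simp
  ring

theorem xf_ne (h : AnalyticAt ℂ m0 0) (h0 : m0 0 = 0) : ∀ᶠ η in 𝓝 (0:ℂ), xf m m0 η ≠ 0 := by
  refine (xf_ana h).continuousAt.eventually_ne ?_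
  rw [xf_zero h0]
  exact one_ne_zero

theorem one_add_ne : ∀ᶠ η in 𝓝 (0:ℂ), 1 + η ≠ 0 := by
  have h : ContinuousAt (fun η : ℂ => 1 + η) 0 := by fun_prop
  exact h.eventually_ne (by simp)

theorem s_ne (hm : 0 < m) (hr : 1 ≤ r) : ∀ᶠ η in 𝓝[≠] (0:ℂ), ((1 + η) ^ m) ^ r ≠ 1 := by
  have h1 : HasDerivAt (fun η : ℂ => (1 + η) ^ (m * r)) (((m * r : ℕ) : ℂ)) 0 := by
    have h2 := ((hasDerivAt_id (0:ℂ)).const_add 1).fun_pow (m * r)
    simpa using h2
  have h3 : ((m * r : ℕ) : ℂ) ≠ 0 := by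
    have : m * r ≠ 0 := Nat.mul_ne_zero (by omega) (by omega)
    exact_mod_cast this
  filter_upwards [h1.eventually_ne h3 (c := 1)] with η hη
  rw [← pow_mul]
  exact hη

theorem x_tau (hm : 0 < m) (hr : 1 ≤ r)
    (hrel : ∀ᶠ η in 𝓝 (0:ℂ), xf m m0 η * ((r + 1) * (((1 + η) ^ m) ^ r - 1)) =
      r * (((1 + η) ^ m) ^ (r + 1) - 1)) :
    ∀ᶠ η in 𝓝 (0:ℂ), xf m m0 (tf η) * (1 + η) ^ m = xf m m0 η := by
  have h2 := tf_tendsto.eventually hrel
  have h3 := eventually_nhdsWithin_iff.mp (s_ne (m := m) (r := r) hm hr)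
  filter_upwards [hrel, h2, h3, one_add_ne] with η e1 e2 e3 e4
  by_cases h0 : η = 0
  · subst h0
    simp [tf_zero]
  · have e5 := e3 h0
    rw [one_add_tf e4, inv_pow] at e2
    have hs : (1 + η) ^ m ≠ 0 := pow_ne_zero _ e4
    generalize (1 + η) ^ m = s at *
    generalize xf m m0 (tf η) = x' at *
    generalize xf m m0 η = x at *
    have e6 : x' * ((r + 1) * (s - s ^ (r + 1))) = r * (1 - s ^ (r + 1)) := by
      have e7 : s ^ (r + 1) * (x' * ((r + 1) * ((s⁻¹) ^ r - 1))) =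
          s ^ (r + 1) * (r * ((s⁻¹) ^ (r + 1) - 1)) := by rw [e2]
      have e8 : s ^ (r + 1) * (s⁻¹) ^ r = s := by
        rw [pow_succ, mul_right_comm, ← mul_pow, mul_inv_cancel₀ hs, one_pow, one_mul]
      have e9 : s ^ (r + 1) * (s⁻¹) ^ (r + 1) = 1 := by
        rw [← mul_pow, mul_inv_cancel₀ hs, one_pow]
      linear_combination e7 - x' * (r + 1) * e8 + r * e9
    have hr' : ((r:ℂ) + 1) ≠ 0 := by exact_mod_cast Nat.succ_ne_zero r
    have e10 : (x' * s - x) * ((r + 1) * (1 - s ^ r)) = 0 := by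
      rw [pow_succ] at e6 e1
      linear_combination e6 + e1
    rcases mul_eq_zero.mp e10 with h | h
    · exact sub_eq_zero.mp h
    · rcases mul_eq_zero.mp h with h | h
      · exact absurd h hr'
      · exact absurd (sub_eq_zero.mp h).symm e5

theorem z_tau (h : AnalyticAt ℂ m0 0) (h0 : m0 0 = 0)
    (hrel : ∀ᶠ η in 𝓝 (0:ℂ), xf m m0 η * ((r + 1) * (((1 + η) ^ m) ^ r - 1)) =
      r * (((1 + η) ^ m) ^ (r + 1) - 1))
    (hx : ∀ᶠ η in 𝓝 (0:ℂ), xf m m0 (tf η) * (1 + η) ^ m = xf m m0 η) :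
    ∀ᶠ η in 𝓝 (0:ℂ), zf r m m0 (tf η) = zf r m m0 η := by
  filter_upwards [hrel, hx, one_add_ne, xf_ne (m := m) h h0,
    tf_tendsto.eventually (xf_ne (m := m) h h0)] with η e1 e2 e3 e4 e5
  have hs : (1 + η) ^ m ≠ 0 := pow_ne_zero _ e3
  rw [zf, zf]
  generalize (1 + η) ^ m = s at *
  generalize xf m m0 (tf η) = x' at *
  generalize xf m m0 η = x at *
  subst e2
  rw [div_eq_div_iff (pow_ne_zero _ e5) (pow_ne_zero _ e4), mul_pow]
  linear_combination x' ^ (r + 1) * e1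

/-- the logarithm of the coordinate -/
theorem log_tau (h : AnalyticAt ℂ m0 0) (h0 : m0 0 = 0)
    (hx : ∀ᶠ η in 𝓝 (0:ℂ), xf m m0 (tf η) * (1 + η) ^ m = xf m m0 η) :
    ∀ᶠ η in 𝓝 (0:ℂ), Complex.log (xf m m0 (tf η)) =
      Complex.log (xf m m0 η) - m * Complex.log (1 + η) := by
  have hc : ContinuousAt (fun η => Complex.log (xf m m0 η) - m * Complex.log (1 + η)) 0 := by
    have h1 : AnalyticAt ℂ (fun η => Complex.log (xf m m0 η)) 0 :=
      (xf_ana h).clog (by rw [xf_zero h0]; exact Complex.one_mem_slitPlane)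
    have h2 : AnalyticAt ℂ (fun η : ℂ => Complex.log (1 + η)) 0 :=
      (analyticAt_const.add analyticAt_id).clog (by simp)
    exact h1.continuousAt.sub (continuousAt_const.mul h2.continuousAt)
  have hc' := hc.tendsto
  have hv : Complex.log (xf m m0 0) - m * Complex.log (1 + 0) = 0 := by
    rw [xf_zero h0]
    simp
  rw [hv] at hc'
  have h3 : ∀ᶠ η in 𝓝 (0:ℂ), ‖Complex.log (xf m m0 η) - m * Complex.log (1 + η)‖ < Real.pi := by
    have := hc'.eventually (Metric.ball_mem_nhds (0:ℂ) Real.pi_pos)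
    filter_upwards [this] with η hη
    simpa using hη
  filter_upwards [h3, hx, one_add_ne, xf_ne (m := m) h h0] with η e1 e2 e3 e4
  have e5 : xf m m0 (tf η) = Complex.exp (Complex.log (xf m m0 η) - m * Complex.log (1 + η)) := by
    rw [Complex.exp_sub, Complex.exp_log e4, Complex.exp_nat_mul, Complex.exp_log e3,
      eq_div_iff (pow_ne_zero _ e3)]
    exact e2
  have e6 := Complex.abs_im_le_norm (Complex.log (xf m m0 η) - m * Complex.log (1 + η))
  have e7 := abs_lt.mp (lt_of_le_of_lt e6 e1)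
  rw [e5, Complex.log_exp e7.1 e7.2.le]

end

/-- the square of the first integral -/
def Kf (m : ℕ) (d : ℂ) (m0 e : ℂ → ℂ) (η : ℂ) : ℂ :=
  e η ^ 2 * Complex.exp (-(2 * d * Complex.log (xf m m0 η)))

theorem Kf_ana {m : ℕ} {d : ℂ} {m0 e : ℂ → ℂ} (h : AnalyticAt ℂ m0 0) (h0 : m0 0 = 0)
    (he : AnalyticAt ℂ e 0) : AnalyticAt ℂ (Kf m d m0 e) 0 := by
  unfold Kf
  have h1 : AnalyticAt ℂ (fun η => Complex.log (xf m m0 η)) 0 :=
    (xf_ana h).clog (by rw [xf_zero h0]; exact Complex.one_mem_slitPlane)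
  exact (he.pow 2).mul ((analyticAt_const.mul h1).neg.cexp)

theorem K_tau {m : ℕ} {d : ℂ} {m0 e : ℂ → ℂ}
    (hlog : ∀ᶠ η in 𝓝 (0:ℂ), Complex.log (xf m m0 (tf η)) =
      Complex.log (xf m m0 η) - m * Complex.log (1 + η))
    (heτ : ∀ᶠ η in 𝓝 (0:ℂ), e (-η / (1 + η)) * Complex.exp ((m * d) * Complex.log (1 + η)) =
      -e η) :
    ∀ᶠ η in 𝓝 (0:ℂ), Kf m d m0 e (tf η) = Kf m d m0 e η := by
  filter_upwards [hlog, heτ] with η e1 e2
  have e3 : e η = -(e (tf η) * Complex.exp ((m * d) * Complex.log (1 + η))) := by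
    have e4 : e (tf η) * Complex.exp ((m * d) * Complex.log (1 + η)) = -e η := e2
    rw [e4, neg_neg]
  rw [Kf, Kf, e1, e3]
  have e5 : Complex.exp (-(2 * d * (Complex.log (xf m m0 η) - m * Complex.log (1 + η)))) =
      Complex.exp (-(2 * d * Complex.log (xf m m0 η))) *
        (Complex.exp ((m * d) * Complex.log (1 + η)) *
          Complex.exp ((m * d) * Complex.log (1 + η))) := by
    rw [← Complex.exp_add, ← Complex.exp_add]
    congr 1
    ring
  rw [e5]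
  ring

theorem value {m r : ℕ} {d : ℂ} {m0 e F : ℂ → ℂ} {η : ℂ} (h0 : xf m m0 η ≠ 0)
    (h1 : xf m m0 η ≠ 1) (h : Kf m d m0 e η = F (zf r m m0 η)) :
    chi d (xf m m0 η / (1 - xf m m0 η)) * F (Rr r (xf m m0 η / (1 - xf m m0 η))) = e η ^ 2 := by
  have h2 : Rr r (xf m m0 η / (1 - xf m m0 η)) = zf r m m0 η := Rr_x h0 h1
  rw [h2, ← h, chi, frac_x h1, Kf, mul_left_comm, ← Complex.exp_add, add_neg_cancel,
    Complex.exp_zero, mul_one]

end OfGerm

open Pool.Agent.MP_ae5b4e_an_GEN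
open OfGerm

theorem hyp_of_germ {m b : ℕ} (hm : 0 < m) (hb : 4 ≤ b) {c d : ℂ} {m0 A0 Q : ℂ → ℂ}
    (h : Germ (1 * m) (b * m) c m0 A0 Q) (hd : d = (1 + (b:ℂ)) / 3 + c / (2 * m)) (hd0 : d ≠ 0) :
    ∃ F, HypSol (b - 1) d F := by
  obtain ⟨r, rfl⟩ : ∃ r, b = r + 1 := ⟨b - 1, by omega⟩
  rw [Nat.add_sub_cancel]
  have hr : 3 ≤ r := by omega
  have hm' : (m:ℂ) ≠ 0 := by exact_mod_cast hm.ne'
  obtain ⟨e, he, he0, he1, heA, heτ⟩ := germ_exp (a := 1 * m) (b := (r + 1) * m) (D := m * d)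
    (by omega) (by nlinarith) h (by rw [hd]; push_cast; field_simp) (mul_ne_zero hm' hd0)
  have hrel : ∀ᶠ η in 𝓝 (0:ℂ), xf m m0 η * ((r + 1) * (((1 + η) ^ m) ^ r - 1)) =
      r * (((1 + η) ^ m) ^ (r + 1) - 1) := by
    filter_upwards [h.m_hom] with η hη
    exact x_rel hm hη
  have hx := x_tau hm (by omega) hrel
  have hz := z_tau h.m_ana h.m_zero hrel hx
  have hlog := log_tau h.m_ana h.m_zero hx
  have hK := K_tau (d := d) hlog heτ
  have hr0 : (r:ℂ) ≠ 0 := by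
    have : r ≠ 0 := by omega
    exact_mod_cast this
  have hr1 : (r:ℂ) + 1 ≠ 0 := by exact_mod_cast Nat.succ_ne_zero r
  obtain ⟨F, hF, hKF⟩ := analytic_descend (zf_ana (r := r) (m := m) h.m_ana h.m_zero)
    (Kf_ana (m := m) (d := d) h.m_ana h.m_zero he) (zf_deriv_zero h.m_ana h.m_zero)
    (by
      rw [zf_deriv2 h.m_ana h.m_zero h.m_der]
      exact neg_ne_zero.mpr (mul_ne_zero (mul_ne_zero hr0 hr1)
        (pow_ne_zero _ (div_ne_zero hm' two_ne_zero))))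
    (zf_zero h.m_zero) tf_ana tf_zero tf_deriv hz hK
  refine ⟨F, hF, ?_, ?_, ?_⟩
  · have h1 := hKF.self_of_nhds
    rw [zf_zero h.m_zero, Kf, he0] at h1
    rw [← h1]
    ring
  · intro hnz
    have h1 : Tendsto (zf r m m0) (𝓝 0) (𝓝 1) := by
      have := (zf_ana (r := r) (m := m) h.m_ana h.m_zero).continuousAt.tendsto
      rwa [zf_zero h.m_zero] at this
    have h2 : e =ᶠ[𝓝 0] fun _ => (0:ℂ) := by
      filter_upwards [h1.eventually hnz, hKF] with η e1 e2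
      rw [e1, Kf] at e2
      rcases mul_eq_zero.mp e2 with h | h
      · exact pow_eq_zero_iff (two_ne_zero) |>.mp h
      · exact absurd h (Complex.exp_ne_zero _)
    rw [h2.deriv_eq, deriv_const] at he1
    exact zero_ne_one he1
  · -- the flip
    have hy : AnalyticAt ℂ (fun η => (1 - xf m m0 η) / xf m m0 η) 0 :=
      (analyticAt_const.sub (xf_ana h.m_ana)).div (xf_ana h.m_ana)
        (by rw [xf_zero h.m_zero]; exact one_ne_zero)
    have hyd : deriv (fun η => (1 - xf m m0 η) / xf m m0 η) 0 ≠ 0 := by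
      have hx1 := (xf_ana (m := m) h.m_ana).differentiableAt.hasDerivAt
      have h1 := (hx1.const_sub 1).fun_div hx1 (by rw [xf_zero h.m_zero]; exact one_ne_zero)
      rw [h1.deriv, xf_zero h.m_zero, xf_deriv h.m_ana h.m_der]
      simp [hm']
    have hmap := hy.hasStrictDerivAt.map_nhds_eq hyd
    have hy0 : (1 - xf m m0 0) / xf m m0 0 = 0 := by
      rw [xf_zero h.m_zero]
      simp
    rw [hy0] at hmap
    have hA : Tendsto (fun η => -A0 η) (𝓝 0) (𝓝 0) := by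
      have h1 := h.A_ana.continuousAt.tendsto.neg
      rwa [h.A_zero, neg_zero] at h1
    have hP : ∀ᶠ η in 𝓝 (0:ℂ), (xf m m0 η ≠ 0 ∧ Kf m d m0 e η = F (zf r m m0 η)) ∧
        (xf m m0 (-A0 η) ≠ 0 ∧ Kf m d m0 e (-A0 η) = F (zf r m m0 (-A0 η))) ∧
        e (-A0 η) = -e η ∧ m0 (-A0 η) * (c * m0 η - 1) = m0 η := by
      have h1 := (xf_ne (m := m) h.m_ana h.m_zero).and hKF
      filter_upwards [h1, hA.eventually h1, heA, h.kick] with η a1 a2 a3 a4
      exact ⟨a1, a2, a3, a4⟩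
    have himg : (fun η => (1 - xf m m0 η) / xf m m0 η) '' {η | (xf m m0 η ≠ 0 ∧
        Kf m d m0 e η = F (zf r m m0 η)) ∧
        (xf m m0 (-A0 η) ≠ 0 ∧ Kf m d m0 e (-A0 η) = F (zf r m m0 (-A0 η))) ∧
        e (-A0 η) = -e η ∧ m0 (-A0 η) * (c * m0 η - 1) = m0 η} ∈ 𝓝 (0:ℂ) := by
      rw [← hmap]
      exact image_mem_map hP
    have hV := tendsto_inv₀_cobounded.eventually himg
    have hV0 : ∀ᶠ V in Bornology.cobounded ℂ, V ≠ 0 := Bornology.eventually_ne_cobounded 0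
    filter_upwards [hV, hV0] with V h1 h2
    obtain ⟨η, ⟨⟨a1, a2⟩, ⟨b1, b2⟩, c1, c2⟩, hη⟩ := h1
    have hη' : (1 - xf m m0 η) / xf m m0 η = V⁻¹ := hη
    have a3 : xf m m0 η ≠ 1 := by
      intro hh
      rw [hh, sub_self, zero_div] at hη'
      exact inv_ne_zero h2 hη'.symm
    have a4 : V = xf m m0 η / (1 - xf m m0 η) := by
      rw [← inv_inv V, ← hη', inv_div]
    have a5 : m0 η ≠ 0 := by
      intro hh
      apply a3
      rw [xf, hh]
      ring
    have b5 : m0 (-A0 η) ≠ 0 := by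
      intro hh
      apply a5
      rw [← c2, hh, zero_mul]
    have b3 : xf m m0 (-A0 η) ≠ 1 := by
      intro hh
      rw [xf, add_eq_left] at hh
      exact b5 ((mul_eq_zero.mp hh).resolve_left hm')
    have b4 : -2 * cen r d - V = xf m m0 (-A0 η) / (1 - xf m m0 (-A0 η)) := by
      rw [a4, cen, hd, xf, xf]
      push_cast
      generalize m0 (-A0 η) = μ' at *
      generalize m0 η = μ at *
      have s1 : (1:ℂ) - (1 + m * μ) = -(m * μ) := by ring
      have s2 : (1:ℂ) - (1 + m * μ') = -(m * μ') := by ring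
      rw [s1, s2]
      field_simp
      linear_combination (-3) * c2
    rw [b4, a4, value a1 a3 a2, value b1 b3 b2, c1, neg_sq]

end Pool.Agent.MP_ae5b4e_an_HYP
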