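import Pool.Agent.Lib.MP_ae5b4e_an_HYP.Defs
import Pool.Agent.Lib.MP_ae5b4e_an_HYP.End
import Pool.Agent.Lib.MP_ae5b4e_an_HYP.OfGerm
import Pool.Agent.Lib.MP_ae5b4e_an_GEN.Defs

/-!
# MP_ae5b4e_an, project HYP, module T: the local bound at the places of type `(1, b)`, `b ≥ 4`
-/

set_option autoImplicit false

noncomputable section

namespace Pool.Agent.MP_ae5b4e_an_HYP

open Filter Topology Set Metric
open scoped ComplexConjugate
open Pool.Agent.MP_ae5b4e_an_GEN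

namespace Final

/-- the local bound at a germ, with `β = b / 3 - 1 / 60` -/
theorem germ_le {b m : ℕ} (hb : 4 ≤ b) (hm : 0 < m) {c : ℂ} {m0 A0 Q : ℂ → ℂ}
    (h : Germ (1 * m) (b * m) c m0 A0 Q) :
    ((1 + (b:ℂ)) / 3 + c / (2 * m)).re ≤ (b:ℝ) / 3 - 1 / 60 := by
  have hb' : (4:ℝ) ≤ (b:ℝ) := by exact_mod_cast hb
  by_cases hd0 : (1 + (b:ℂ)) / 3 + c / (2 * m) = 0
  · rw [hd0, Complex.zero_re]
    linarith
  · obtain ⟨F, hF⟩ := hyp_of_germ hm hb h rfl hd0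
    have h1 := hyp_bound (by omega) hF
    have h2 : (cen (b - 1) ((1 + (b:ℂ)) / 3 + c / (2 * m))).re =
        ((1 + (b:ℂ)) / 3 + c / (2 * m)).re - ((b:ℝ) - 2) / 3 := by
      have h3 : cen (b - 1) ((1 + (b:ℂ)) / 3 + c / (2 * m)) =
          ((1 + (b:ℂ)) / 3 + c / (2 * m)) - ((((b:ℝ) - 2) / 3 : ℝ) : ℂ) := by
        unfold cen
        rw [Nat.cast_sub (by omega : 1 ≤ b)]
        push_cast
        ring
      rw [h3, Complex.sub_re, Complex.ofReal_re]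
    rw [h2] at h1
    linarith

end Final

theorem lb_hyp {b : ℕ} (hb : 4 ≤ b) : ∃ β : ℝ, β < (b:ℝ) / 3 ∧ LBd 1 b β := by
  refine ⟨(b:ℝ) / 3 - 1 / 60, by linarith, ?_⟩
  intro m hm c m0 A0 Q h
  have h1 := Final.germ_le hb hm h
  rw [Nat.cast_one]
  exact h1

end Pool.Agent.MP_ae5b4e_an_HYP
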